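import Pool.Agent.H966.EX.Defs
import Pool.Graph.R_seed8.H980R4.Rect

/-! Multiscale bound for the crossing of annuli by open paths (`S_AN` of `EX/Defs.lean`). -/

namespace Pool.Agent.H966.EX

open Pool.Agent.H988R2.Perc hiding X
open Finset MeasureTheory Relation
open Pool.Agent Pool.Agent.H980R2.Unif Pool.Agent.H980R2.Unif.U3 Pool.Agent.H863R4

namespace AN

/-- the box of radius `R` -/
def In (x0 y0 R : ℤ) (p : ℤ × ℤ) : Prop :=
  (x0 - R ≤ p.1 ∧ p.1 ≤ x0 + R) ∧ (y0 - R ≤ p.2 ∧ p.2 ≤ y0 + R)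

/-- the closed annulus -/
def An (x0 y0 R : ℤ) (p : ℤ × ℤ) : Prop := In x0 y0 (3 * R) p ∧ ¬ In x0 y0 (R - 1) p

open Classical in
/-- the edges of the annulus -/
noncomputable def SE (x0 y0 R : ℤ) : Finset H974.Edg :=
  (Icc (x0 - 3 * R) (x0 + 3 * R) ×ˢ (Icc (y0 - 3 * R) (y0 + 3 * R) ×ˢ (univ : Finset Bool))).filter
    (fun e => An x0 y0 R (H974.src e) ∧ An x0 y0 R (H974.tgt e))

theorem mem_SE {x0 y0 R : ℤ} {e : H974.Edg} :
    e ∈ SE x0 y0 R ↔ An x0 y0 R (H974.src e) ∧ An x0 y0 R (H974.tgt e) := by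
  classical
  unfold SE
  rw [mem_filter]
  constructor
  · exact fun k => k.2
  · intro k
    refine ⟨?_, k⟩
    obtain ⟨x, y, b⟩ := e
    have h1 := k.1.1
    unfold In H974.src at h1
    simp only at h1
    simp only [mem_product, mem_Icc, mem_univ, and_true]
    omega

theorem adj_cases {ω : Conf} {p r : ℤ × ℤ} (h : OpenAdj ω p r) :
    p.1 - 1 ≤ r.1 ∧ r.1 ≤ p.1 + 1 ∧ p.2 - 1 ≤ r.2 ∧ r.2 ≤ p.2 + 1 := by
  unfold OpenAdj at h
  rcases h with ⟨e, -⟩ | ⟨e, -⟩ | ⟨e, -⟩ | ⟨e, -⟩ <;>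
    (have e1 := congrArg Prod.fst e; have e2 := congrArg Prod.snd e; simp only at e1 e2; omega)

/-- the last visit of the box of radius `R` -/
theorem level {x0 y0 R : ℤ} {ω : Conf} {x y : ℤ × ℤ} (h : ReflTransGen (OpenAdj ω) x y)
    (hy : ¬ In x0 y0 R y) :
    (∃ z : ℤ × ℤ, In x0 y0 R z ∧ ¬ In x0 y0 (R - 1) z ∧
      ReflTransGen (fun p r => OpenAdj ω p r ∧ ¬ In x0 y0 (R - 1) p ∧ ¬ In x0 y0 (R - 1) r) z y) ∨
    (¬ In x0 y0 R x ∧
      ReflTransGen (fun p r => OpenAdj ω p r ∧ ¬ In x0 y0 (R - 1) p ∧ ¬ In x0 y0 (R - 1) r) x y) := by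
  induction h using ReflTransGen.head_induction_on with
  | refl => exact Or.inr ⟨hy, ReflTransGen.refl⟩
  | head h1 h2 ih =>
    rename_i p r
    rcases ih with ih | ⟨k1, k2⟩
    · exact Or.inl ih
    · have a1 := adj_cases h1
      have hr : ¬ In x0 y0 (R - 1) r := by
        intro k; apply k1; unfold In at k ⊢; omega
      have hp : ¬ In x0 y0 (R - 1) p := by
        intro k; apply k1; unfold In at k ⊢; omega
      by_cases c : In x0 y0 R p
      · exact Or.inl ⟨p, c, hp, ReflTransGen.head ⟨h1, hp, hr⟩ k2⟩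
      · exact Or.inr ⟨c, ReflTransGen.head ⟨h1, hp, hr⟩ k2⟩

/-- the first exit of the annulus -/
theorem exit {x0 y0 R : ℤ} (hR : 1 ≤ R) {ω : Conf} {x y : ℤ × ℤ}
    (hp : ReflTransGen (fun p r => OpenAdj ω p r ∧ ¬ In x0 y0 (R - 1) p ∧ ¬ In x0 y0 (R - 1) r) x y)
    (hx : In x0 y0 R x) :
    (In x0 y0 (3 * R - 1) y ∧
      ReflTransGen (fun p r => OpenAdj ω p r ∧ An x0 y0 R p ∧ An x0 y0 R r) x y) ∨
    ∃ w : ℤ × ℤ, ¬ In x0 y0 (3 * R - 1) w ∧
      ReflTransGen (fun p r => OpenAdj ω p r ∧ An x0 y0 R p ∧ An x0 y0 R r) x w := by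
  induction hp with
  | refl =>
    left
    refine ⟨?_, ReflTransGen.refl⟩
    unfold In at hx ⊢; omega
  | tail h1 h2 ih =>
    rename_i p r
    rcases ih with ⟨k1, k2⟩ | k
    · have a1 := adj_cases h2.1
      have hp : An x0 y0 R p := by
        refine ⟨?_, h2.2.1⟩
        unfold In at k1 ⊢; omega
      have hr : An x0 y0 R r := by
        refine ⟨?_, h2.2.2⟩
        unfold In at k1 ⊢; omega
      have k3 := k2.tail (show OpenAdj ω p r ∧ An x0 y0 R p ∧ An x0 y0 R r from ⟨h2.1, hp, hr⟩)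
      by_cases c : In x0 y0 (3 * R - 1) r
      · exact Or.inl ⟨c, k3⟩
      · exact Or.inr ⟨r, c, k3⟩
    · exact Or.inr k

/-- paths of the annulus in terms of the edges of the annulus -/
theorem toReach {x0 y0 R : ℤ} {ω : Conf} {x y : ℤ × ℤ} {U : Finset H974.Edg}
    (hU : SE x0 y0 R ⊆ U)
    (hp : ReflTransGen (fun p r => OpenAdj ω p r ∧ An x0 y0 R p ∧ An x0 y0 R r) x y) :
    H974.Reach (↑(tB U ω ∩ SE x0 y0 R) : Set H974.Edg) x y := by
  unfold H974.Reach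
  refine ReflTransGen.mono ?_ x y hp
  rintro p r ⟨k, k1, k2⟩
  have key : ∀ e : H974.Edg, (H974.src e = p ∧ H974.tgt e = r) ∨ (H974.src e = r ∧ H974.tgt e = p) →
      ω (eB e) = true → H974.Adj (↑(tB U ω ∩ SE x0 y0 R) : Set H974.Edg) p r := by
    intro e he ho
    refine ⟨e, ?_, he⟩
    have hm : e ∈ SE x0 y0 R := by
      rw [mem_SE]
      rcases he with ⟨e1, e2⟩ | ⟨e1, e2⟩
      · rw [e1, e2]; exact ⟨k1, k2⟩
      · rw [e1, e2]; exact ⟨k2, k1⟩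
    rw [Finset.mem_coe, mem_inter]
    refine ⟨?_, hm⟩
    unfold tB
    rw [mem_filter]
    exact ⟨hU hm, ho⟩
  unfold OpenAdj at k
  rcases k with ⟨e, k⟩ | ⟨e, k⟩ | ⟨e, k⟩ | ⟨e, k⟩
  · refine key (p.1, p.2, true) (Or.inl ⟨rfl, ?_⟩) k
    rw [e]; rfl
  · refine key (r.1, r.2, true) (Or.inr ⟨rfl, ?_⟩) k
    rw [e]; rfl
  · refine key (p.1, p.2, false) (Or.inl ⟨rfl, ?_⟩) k
    rw [e]; rfl
  · refine key (r.1, r.2, false) (Or.inr ⟨rfl, ?_⟩) k
    rw [e]; rfl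

/-- the annulus event -/
def A (x0 y0 : ℤ) (m : ℕ) (F : Finset H974.Edg) : Prop :=
  ∃ x ∈ Kb x0 y0 m,
    H974.RB H974.src H974.tgt (Bb x0 y0 m) (↑(F ∩ SE x0 y0 m) : Set H974.Edg) x

theorem A_local {x0 y0 : ℤ} {m : ℕ} {F T : Finset H974.Edg} (hT : SE x0 y0 m ⊆ T) :
    A x0 y0 m F ↔ A x0 y0 m (F ∩ T) := by
  unfold A
  have : F ∩ T ∩ SE x0 y0 m = F ∩ SE x0 y0 m := by
    rw [inter_assoc, inter_eq_right.mpr hT]
  rw [this]

theorem pr_A {x0 y0 : ℤ} {m : ℕ} (hm : 5 ≤ m) :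
    H974.Pr (fun _ => (1/2 : ℝ)) (SE x0 y0 m) (A x0 y0 m) ≤ 1 - (1/2 : ℝ)^188 := by
  have h1 := u4_prob hm x0 y0 (SE x0 y0 m)
  refine le_trans (le_of_eq ?_) h1
  apply H974.Pr_congr
  intro F hF
  unfold A
  rw [inter_eq_left.mpr hF]

/-- the radii -/
def rr (r : ℕ) : ℕ → ℕ
  | 0 => r
  | (i+1) => 3 * rr r i + 1

theorem rr_ge (r i : ℕ) : r ≤ rr r i := by
  induction i with
  | zero => exact le_rfl
  | succ i ih => rw [rr]; omega

theorem rr_lt (r : ℕ) {i j : ℕ} (h : i < j) : 3 * rr r i + 1 ≤ rr r j := by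
  induction j with
  | zero => omega
  | succ j ih =>
    rcases Nat.lt_or_ge i j with h' | h'
    · have := ih h'
      rw [rr]; omega
    · have : i = j := by omega
      rw [this, rr]

theorem rr_le {r : ℕ} (hr : 1 ≤ r) (i : ℕ) : rr r i ≤ 4^i * r := by
  induction i with
  | zero => rw [rr]; omega
  | succ i ih =>
    rw [rr, pow_succ]
    have : 1 ≤ 4^i * r := Nat.one_le_iff_ne_zero.mpr (by positivity)
    have h2 : 4^i * 4 * r = 4 * (4^i * r) := by ring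
    rw [h2]
    omega

theorem rr_le' {r : ℕ} (hr : 1 ≤ r) {i j : ℕ} (h : i < j) : 3 * rr r i ≤ 4^j * r := by
  have h1 := rr_le hr j
  have h2 := rr_lt r h
  omega

/-- the union of the annuli -/
noncomputable def UU (x0 y0 : ℤ) (r : ℕ) (j : ℕ) : Finset H974.Edg :=
  (range j).biUnion (fun i => SE x0 y0 (rr r i : ℕ))

theorem sub_UU {x0 y0 : ℤ} {r : ℕ} {i j : ℕ} (h : i < j) : SE x0 y0 (rr r i : ℕ) ⊆ UU x0 y0 r j :=
  subset_biUnion_of_mem (fun i => SE x0 y0 (rr r i : ℕ)) (mem_range.mpr h)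

theorem disj (x0 y0 : ℤ) (r : ℕ) (j : ℕ) :
    Disjoint (UU x0 y0 r j) (SE x0 y0 (rr r j : ℕ)) := by
  rw [Finset.disjoint_left]
  intro e he he'
  unfold UU at he
  rw [mem_biUnion] at he
  obtain ⟨i, hi, he⟩ := he
  rw [mem_range] at hi
  rw [mem_SE] at he he'
  have h1 := he.1.1
  have h2 := he'.1.2
  have h3 := rr_lt r hi
  apply h2
  unfold In at h1 ⊢
  generalize rr r i = a at *
  generalize rr r j = b at *
  omega

theorem UU_succ (x0 y0 : ℤ) (r : ℕ) (j : ℕ) :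
    UU x0 y0 r (j+1) = UU x0 y0 r j ∪ SE x0 y0 (rr r j : ℕ) := by
  unfold UU
  rw [range_add_one, biUnion_insert, union_comm]

theorem prod_bound (x0 y0 : ℤ) {r : ℕ} (hr : 5 ≤ r) (j : ℕ) :
    H974.Pr (fun _ => (1/2 : ℝ)) (UU x0 y0 r j)
      (fun F => ∀ i < j, A x0 y0 (rr r i) F) ≤ (1 - (1/2 : ℝ)^188)^j := by
  have ok := H974.okq (q := 1/2) (by norm_num) (by norm_num)
  induction j with
  | zero =>
    rw [pow_zero]
    exact H974.Pr_le_one ok _ _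
  | succ j ih =>
    have e1 : H974.Pr (fun _ => (1/2 : ℝ)) (UU x0 y0 r (j+1))
        (fun F => ∀ i < j+1, A x0 y0 (rr r i) F) =
        H974.Pr (fun _ => (1/2 : ℝ)) (UU x0 y0 r (j+1))
          (fun F => (∀ i < j, A x0 y0 (rr r i) F) ∧ A x0 y0 (rr r j) F) := by
      apply H974.Pr_congr
      intro F _
      constructor
      · intro h
        exact ⟨fun i hi => h i (by omega), h j (by omega)⟩
      · rintro ⟨h1, h2⟩ i hi
        rcases Nat.lt_or_ge i j with h | h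
        · exact h1 i h
        · have : i = j := by omega
          rw [this]; exact h2
    have hS : UU x0 y0 r j ⊆ UU x0 y0 r (j+1) := by rw [UU_succ]; exact subset_union_left
    have hT : SE x0 y0 (rr r j : ℕ) ⊆ UU x0 y0 r (j+1) := sub_UU (Nat.lt_succ_self j)
    have l1 : ∀ F, F ⊆ UU x0 y0 r (j+1) → ((∀ i < j, A x0 y0 (rr r i) F) ↔
        (∀ i < j, A x0 y0 (rr r i) (F ∩ UU x0 y0 r j))) := by
      intro F _
      exact forall_congr' fun i => forall_congr' fun hi => A_local (sub_UU hi)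
    have l2 : ∀ F, F ⊆ UU x0 y0 r (j+1) → (A x0 y0 (rr r j) F ↔
        A x0 y0 (rr r j) (F ∩ SE x0 y0 (rr r j : ℕ))) := by
      intro F _
      exact A_local (Subset.refl _)
    rw [e1, H974.Pr_indep hS hT (disj x0 y0 r j) l1 l2, H974.Pr_local hS l1, H974.Pr_local hT l2,
      pow_succ]
    exact mul_le_mul ih (pr_A (hr.trans (rr_ge r j))) (H974.Pr_nonneg ok _ _) (by
      apply pow_nonneg
      have : ((1:ℝ)/2)^188 ≤ 1 := pow_le_one₀ (by norm_num) (by norm_num)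
      linarith)

/-- the crossing of the big annulus crosses all the annuli -/
theorem sub (x0 y0 : ℤ) {r : ℕ} (hr : 5 ≤ r) (j : ℕ) :
    {ω : Conf | ∃ x y : ℤ × ℤ, |x.1 - x0| ≤ r ∧ |x.2 - y0| ≤ r ∧
      ((4:ℤ)^j * r ≤ |y.1 - x0| ∨ (4:ℤ)^j * r ≤ |y.2 - y0|) ∧
      Relation.ReflTransGen (OpenAdj ω) x y} ⊆
      {ω | ∀ i < j, A x0 y0 (rr r i) (tB (UU x0 y0 r j) ω)} := by
  rintro ω ⟨x, y, hx1, hx2, hy, hp⟩ i hi
  have h1 := rr_ge r i
  have h2 : 3 * ((rr r i : ℕ) : ℤ) ≤ (4:ℤ)^j * r := by exact_mod_cast rr_le' (by omega) hi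
  rw [abs_le] at hx1 hx2
  rw [le_abs, le_abs] at hy
  generalize (4:ℤ)^j * r = q at *
  have hsub := sub_UU (x0 := x0) (y0 := y0) (r := r) hi
  unfold A
  generalize rr r i = m at *
  have hyn : ¬ In x0 y0 (3 * m - 1) y := by
    intro k; unfold In at k; omega
  have hyn' : ¬ In x0 y0 m y := by
    intro k; apply hyn; unfold In at k ⊢; omega
  obtain ⟨z, z1, z2, z3⟩ : ∃ z : ℤ × ℤ, In x0 y0 m z ∧ ¬ In x0 y0 (m - 1) z ∧
      ReflTransGen (fun p r => OpenAdj ω p r ∧ ¬ In x0 y0 (m - 1) p ∧ ¬ In x0 y0 (m - 1) r) z y := by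
    rcases level hp hyn' with h | ⟨h, -⟩
    · exact h
    · exfalso; apply h; unfold In; omega
  obtain ⟨w, w1, w2⟩ : ∃ w : ℤ × ℤ, ¬ In x0 y0 (3 * m - 1) w ∧
      ReflTransGen (fun p r => OpenAdj ω p r ∧ An x0 y0 m p ∧ An x0 y0 m r) z w := by
    rcases exit (by omega) z3 z1 with ⟨k, -⟩ | k
    · exact absurd k hyn
    · exact k
  refine ⟨z, ?_, w, ?_, toReach hsub w2⟩
  · rw [u4_mem_Kb]
    unfold In at z1
    exact z1
  · unfold Bb
    change 3 * (m : ℤ) ≤ |w.1 - x0| ∨ 3 * (m : ℤ) ≤ |w.2 - y0|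
    rw [le_abs, le_abs]
    unfold In at w1
    omega

end AN

open AN in
theorem t_AN : S_AN := by
  intro x0 y0 r j hr
  have h1 : perc {ω : Conf | ∃ x y : ℤ × ℤ, |x.1 - x0| ≤ r ∧ |x.2 - y0| ≤ r ∧
      ((4:ℤ)^j * r ≤ |y.1 - x0| ∨ (4:ℤ)^j * r ≤ |y.2 - y0|) ∧
      Relation.ReflTransGen (OpenAdj ω) x y} ≤ ENNReal.ofReal ((1 - (1/2 : ℝ)^188)^j) := by
    refine (measure_mono (AN.sub x0 y0 hr j)).trans ?_
    refine (H980R4.Rect.perc_tB (UU x0 y0 r j) (fun F => ∀ i < j, A x0 y0 (rr r i) F)).le.trans ?_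
    exact ENNReal.ofReal_le_ofReal (prod_bound x0 y0 hr j)
  have h0 : (0:ℝ) ≤ (1 - (1/2 : ℝ)^188)^j := by
    apply pow_nonneg
    have : ((1:ℝ)/2)^188 ≤ 1 := pow_le_one₀ (by norm_num) (by norm_num)
    linarith
  exact ENNReal.toReal_le_of_le_ofReal h0 h1

end Pool.Agent.H966.EX
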