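import Pool.Agent.H966.EX.Defs

/-! CO: the neighbourhood of the corner of the slit is rarely joined to the column `0` (helper168 for helper966). -/

namespace Pool.Agent.H966.EX

open Pool.Agent.H988R2.Perc hiding X
open Pool.Agent.H966.TX
open MeasureTheory Filter Topology Set

namespace CO

lemma openAdj_symm {ω : Conf} {a b : ℤ × ℤ} (h : OpenAdj ω a b) : OpenAdj ω b a := by
  rcases h with h | h | h | h
  · exact Or.inr (Or.inl h)
  · exact Or.inl h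
  · exact Or.inr (Or.inr (Or.inr h))
  · exact Or.inr (Or.inr (Or.inl h))

lemma rtg_symm {ω : Conf} {a b : ℤ × ℤ} (h : Relation.ReflTransGen (OpenAdj ω) a b) :
    Relation.ReflTransGen (OpenAdj ω) b a := by
  induction h with
  | refl => exact Relation.ReflTransGen.refl
  | tail _ h2 ih => exact Relation.ReflTransGen.head (openAdj_symm h2) ih

lemma corner_sub (m e j : ℕ) (h : 4 ^ j * (e + 5) ≤ m / 2) :
    Corner m e ⊆ {ω : Conf | ∃ x y : ℤ × ℤ, |x.1 - ((m / 2 : ℕ) : ℤ)| ≤ ((e + 5 : ℕ) : ℤ) ∧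
      |x.2 - (-((m / 2 : ℕ) : ℤ))| ≤ ((e + 5 : ℕ) : ℤ) ∧
      ((4:ℤ)^j * ((e + 5 : ℕ) : ℤ) ≤ |y.1 - ((m / 2 : ℕ) : ℤ)| ∨
        (4:ℤ)^j * ((e + 5 : ℕ) : ℤ) ≤ |y.2 - (-((m / 2 : ℕ) : ℤ))|) ∧
      Relation.ReflTransGen (OpenAdj ω) x y} := by
  rintro ω ⟨x, y, hx, hy1, hy2, hxy⟩
  have hz : (4:ℤ)^j * ((e + 5 : ℕ) : ℤ) ≤ ((m / 2 : ℕ) : ℤ) := by exact_mod_cast h
  have hm : ((m / 2 : ℕ) : ℤ) * 2 ≤ (m : ℤ) ∧ (m : ℤ) ≤ ((m / 2 : ℕ) : ℤ) * 2 + 1 := by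
    constructor <;> omega
  set k : ℤ := ((m / 2 : ℕ) : ℤ) with hk
  set q : ℤ := (4:ℤ)^j * ((e + 5 : ℕ) : ℤ) with hq
  rw [abs_le] at hy1 hy2
  refine ⟨y, x, ?_, ?_, ?_, ?_⟩
  · rw [abs_le]
    push_cast
    constructor <;> omega
  · rw [abs_le]
    push_cast
    constructor <;> omega
  · by_contra hc
    push Not at hc
    obtain ⟨h1, h2⟩ := hc
    rw [abs_lt] at h1 h2
    omega
  · exact rtg_symm hxy

end CO

theorem t_CO (h : S_AN) : S_CO := by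
  intro η hη
  obtain ⟨j, hj⟩ := exists_pow_lt_of_lt_one hη
    (show (1 - (1/2 : ℝ)^188) < 1 by
      have : (0 : ℝ) < (1/2 : ℝ)^188 := by positivity
      linarith)
  refine ⟨1 / (8 * 4 ^ j), by positivity, 40 * 4 ^ j + 8, ?_⟩
  intro m e hm he
  have h4 : (0 : ℝ) < 4 ^ j := by positivity
  have hmR : (40 : ℝ) * 4 ^ j + 8 ≤ m := by exact_mod_cast hm
  have he' : (4 : ℝ) ^ j * e ≤ m / 8 := by
    have := mul_le_mul_of_nonneg_left he h4.le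
    calc (4 : ℝ) ^ j * e ≤ 4 ^ j * (1 / (8 * 4 ^ j) * m) := this
      _ = m / 8 := by field_simp
  have hkey : 4 ^ j * (e + 5) ≤ m / 2 := by
    rw [Nat.le_div_iff_mul_le (by norm_num)]
    have : ((4 ^ j * (e + 5) * 2 : ℕ) : ℝ) ≤ (m : ℝ) := by
      push_cast
      linarith
    exact_mod_cast this
  have hAN := h ((m / 2 : ℕ) : ℤ) (-((m / 2 : ℕ) : ℤ)) (e + 5) j (by omega)
  refine le_trans ?_ (hAN.trans hj.le)
  exact measureReal_mono (CO.corner_sub m e j hkey)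

end Pool.Agent.H966.EX
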