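import Pool.Agent.H966.EX.Defs
import Pool.Graph.R_seed8.H492E.E3

/-! S_DV: the dual configuration is again critical percolation. -/

set_option autoImplicit false

namespace Pool.Agent.H966.EX

open Pool.Agent.H988R2.Perc hiding X
open Pool.Agent.H966.TX
open MeasureTheory Filter Topology Set

namespace DV

/-- the edge crossed by the dual edge -/
def sg : Edge → Edge := fun e =>
  match e with
  | (u, v, false) => (u + 1, v, true)
  | (u, v, true) => (u, v + 1, false)

/-- its inverse -/
def sgi : Edge → Edge := fun e =>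
  match e with
  | (u, v, true) => (u - 1, v, false)
  | (u, v, false) => (u, v - 1, true)

theorem sgi_sg (e : Edge) : sgi (sg e) = e := by
  obtain ⟨u, v, c⟩ := e
  cases c
  · show (u + 1 - 1, v, false) = (u, v, false)
    rw [add_sub_cancel_right]
  · show (u, v + 1 - 1, true) = (u, v, true)
    rw [add_sub_cancel_right]

theorem sg_sgi (e : Edge) : sg (sgi e) = e := by
  obtain ⟨u, v, c⟩ := e
  cases c
  · show (u, v - 1 + 1, false) = (u, v, false)
    rw [sub_add_cancel]
  · show (u - 1 + 1, v, true) = (u, v, true)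
    rw [sub_add_cancel]

/-- the index bijection -/
def es : Edge ≃ Edge where
  toFun := sgi
  invFun := sg
  left_inv := sg_sgi
  right_inv := sgi_sg

theorem neg_neg (ω : Conf) : Pool.Agent.H492E.E3.neg (Pool.Agent.H492E.E3.neg ω) = ω := by
  funext e
  show (!(!(ω e))) = ω e
  rw [Bool.not_not]

/-- negation as an equivalence -/
def ne : Conf ≃ᵐ Conf where
  toFun := Pool.Agent.H492E.E3.neg
  invFun := Pool.Agent.H492E.E3.neg
  left_inv := neg_neg
  right_inv := neg_neg
  measurable_toFun := Pool.Agent.H492E.E3.meas_neg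
  measurable_invFun := Pool.Agent.H492E.E3.meas_neg

/-- the dual configuration -/
def dual : Conf ≃ᵐ Conf := (MeasurableEquiv.piCongrLeft (fun _ : Edge => Bool) es).trans ne

theorem dual_apply (ω : Conf) (e : Edge) : dual ω e = !(ω (sg e)) := by
  show (!((MeasurableEquiv.piCongrLeft (fun _ : Edge => Bool) es) ω e)) = !(ω (sg e))
  obtain ⟨j, rfl⟩ := es.surjective e
  rw [MeasurableEquiv.coe_piCongrLeft, Equiv.piCongrLeft_apply_apply]
  show (!(ω j)) = !(ω (sg (sgi j)))
  rw [sg_sgi]

theorem dual_pres : MeasurePreserving dual perc perc := by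
  refine ⟨dual.measurable, ?_⟩
  have h1 : perc.map (MeasurableEquiv.piCongrLeft (fun _ : Edge => Bool) es) = perc := by
    unfold perc
    exact Measure.infinitePi_map_piCongrLeft (fun _ : Edge => coin) es
  have h2 : (dual : Conf → Conf) = Pool.Agent.H492E.E3.neg ∘
      (MeasurableEquiv.piCongrLeft (fun _ : Edge => Bool) es) := rfl
  rw [h2, ← Measure.map_map Pool.Agent.H492E.E3.meas_neg (MeasurableEquiv.measurable _), h1,
    Pool.Agent.H492E.E3.neg_map]

theorem dadj_iff (ω : Conf) (f g : ℤ × ℤ) : DAdj ω f g ↔ OpenAdj (dual ω) f g := by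
  unfold DAdj OpenAdj
  rw [dual_apply, dual_apply, dual_apply, dual_apply]
  simp only [Bool.not_eq_true']
  exact Iff.rfl

end DV

theorem t_DV : S_DV := by
  intro c0 L s t
  have h1 : DVert c0 L s t = DV.dual ⁻¹' {ω : Conf | ∃ x y : ℤ × ℤ, x.1 + x.2 ≤ s ∧ t ≤ y.1 + y.2 ∧
      Relation.ReflTransGen (fun p r => OpenAdj ω p r ∧ c0 ≤ p.1 - p.2 ∧ p.1 - p.2 ≤ c0 + L ∧
        c0 ≤ r.1 - r.2 ∧ r.1 - r.2 ≤ c0 + L) x y} := by
    ext ω
    unfold DVert
    simp only [Set.mem_setOf_eq, Set.mem_preimage, DV.dadj_iff]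
  rw [h1, measureReal_def, measureReal_def, DV.dual_pres.measure_preimage_equiv]

end Pool.Agent.H966.EX
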