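import Mathlib
import Pool.Agent.H966.TX.Defs

/-!
The exit law of the exploration path of critical bond percolation on `ℤ²` in the plane cut along a
half-infinite thick slit, and of its scaling limits (helper966): definitions and statements of the
tasks (nothing is proved here; the docstrings contain the proofs).

Everything about the path (`step`, `path`, `face`, `leftCol`, `SAdj`, `FAdj`, `RightBank`) is in
`Pool.Agent.H966.TX.Defs`. A state `s = (x, d)`: `x` is the vertex on the right of the path. Column of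
a vertex: `x.1 - x.2`, height: `x.1 + x.2`. The slit: columns `[0, m]`, heights `≥ 0`. The path starts
at the left corner `(0,0)` and never enters the inside of the slit.
-/

namespace Pool.Agent.H966.EX

open Pool.Agent.H988R2.Perc hiding X
open Pool.Agent.H966.TX
open MeasureTheory Filter Topology Set

/-- the column of the vertex on the right of the path -/
def rightCol (s : (ℤ × ℤ) × Fin 4) : ℤ := s.1.1 - s.1.2

/-- the height of the vertex on the right of the path -/
def ht (s : (ℤ × ℤ) × Fin 4) : ℤ := s.1.1 + s.1.2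

/-- the path has not yet left the window: its right side has not reached the right bank or the
column `m + b`, its left side has not reached the column `-a` -/
def Free (a m b : ℕ) (s : (ℤ × ℤ) × Fin 4) : Prop :=
  ¬ RightBank m s.1 ∧ -(a : ℤ) < leftCol s ∧ rightCol s < (m : ℤ) + b

/-- the left side of the path reaches the column `-a` before its right side reaches the right bank or
the column `m + b` -/
def ExitLeft (a m b : ℕ) : Set Conf :=
  {ω | ∃ n, leftCol (path m ω n) ≤ -(a : ℤ) ∧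
    ∀ j ≤ n, ¬ RightBank m (path m ω j).1 ∧ rightCol (path m ω j) < (m : ℤ) + b}

/-- the right side of the path reaches the right bank before the column `m + b`, and before the left
side reaches the column `-a` -/
def ExitBank (a m b : ℕ) : Set Conf :=
  {ω | ∃ n, RightBank m (path m ω n).1 ∧
    ∀ j ≤ n, -(a : ℤ) < leftCol (path m ω j) ∧ rightCol (path m ω j) < (m : ℤ) + b}

/-- the right side of the path reaches the column `m + b` before the right bank, and before the left
side reaches the column `-a` -/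
def ExitRight (a m b : ℕ) : Set Conf :=
  {ω | ∃ n, (m : ℤ) + b ≤ rightCol (path m ω n) ∧
    ∀ j ≤ n, -(a : ℤ) < leftCol (path m ω j) ∧ ¬ RightBank m (path m ω j).1}

/-! ## NB: a path which comes near the right bank -/

/-- before it leaves the window `-a < column < m + b` the path comes near the right bank (the bank
itself is included) -/
def NearBank (a m b e : ℕ) : Set Conf :=
  {ω | ∃ N, (m : ℤ) - e ≤ rightCol (path m ω N) ∧ rightCol (path m ω N) ≤ (m : ℤ) + e ∧
    -(e : ℤ) ≤ ht (path m ω N) ∧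
    ∀ j ≤ N, -(a : ℤ) < leftCol (path m ω j) ∧ rightCol (path m ω j) < (m : ℤ) + b}

/-- an open path joins the column `0` to the neighbourhood of size `e` of the right corner of the slit
(column `m`, height `0`) -/
def Corner (m e : ℕ) : Set Conf :=
  {ω | ∃ x y : ℤ × ℤ, x.1 - x.2 = 0 ∧ |y.1 - y.2 - m| ≤ e ∧ |y.1 + y.2| ≤ e ∧
    Relation.ReflTransGen (OpenAdj ω) x y}

/-- NB. Proof. Let `N` be as in `NearBank` and `S` = the vertices of column in `[m, m+e]` and height
`≥ 0`.

Case A: some `(path m ω j).1` with `j ≤ N` is in `S`; take the first such `j`, call it `N'`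
(`N' ≥ 1`, since the path starts in the column `0 < m`). (1) For all `j ≤ N'`:
`path (m+e) ω j = path m ω j`. Induction: let `s = path m ω j`, `j < N'`, so `s.1 ∉ S`. In `step`, the
first test does not depend on `m`; `SAdj m` and `SAdj (m+e)` can only differ for `s.1` and
`y = s.1 + vec s.2` if both are in the slit `[0,m+e]` (heights `≥ 0`) and not both in the slit `[0,m]`.
But `s.1 ∉ S` and `s.1` in the slit `[0,m+e]` gives column of `s.1` `< m`, hence column of `y` `≤ m`:
both are in the slit `[0,m]`, contradiction. (2) Let `x = (path m ω N').1 ∈ S`. If its column is `m+e`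
then `ω ∈ ExitBank a (m+e) (b-e)` with `n = N'` (the window is the same: `(m+e) + (b-e) = m+b`, as
natural numbers since `e < b`). (3) Otherwise the column of `x` is `< m+e`. Let `z = (path m ω (N'-1)).1
∉ S`. The last step changed the vertex, so it was a bank step (then `x` is in the column `0 < m`, not
in `S`) or a step along an `SAdj m`-edge `{z,x}`. If the height of `z` is `≥ 0`: columns of `x` and `z`
differ by one, so the column of `z` is `≤ m+e`; `z ∉ S` gives column of `z` `< m`, so `z` has column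
`m-1`, `x` has column `m`: both in the slit, not `SAdj`. So the height of `z` is `≤ -1`, that of `x` is
`0` (parity is not needed: heights differ by one), and `|column x - m| ≤ e`, `|height x| = 0`. The
vertex `x` is joined to the column `0` by an open path (see below): `ω ∈ Corner m e`.

Case B: no such `j`. Let `x = (path m ω N).1`; `x ∉ S`, column in `[m-e, m+e]`, height `≥ -e`. If the
column is `≥ m` then the height is `< 0` since `x ∉ S`. If it is `< m` then it is `> 0` (as `e < m`) and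
the height is `≤ 0` since the vertex is never strictly inside the slit (`TX.I.Inv`, third component).
So `|height| ≤ e`: `ω ∈ Corner m e`.

Open path: `I.inv_path` of `Pool/Agent/H966/TX/I.lean` (first component of `Inv`, and
`FAdj → OpenAdj`), for the window `(a, b+1)`: before `N'` (resp. `N`) the path has not visited
`RightBank m ⊆ S`, and `leftCol ≤ rightCol + 1 < m + b + 1`. -/
def S_NB : Prop := ∀ a m b e : ℕ, 1 ≤ a → 1 ≤ m → 1 ≤ b → e < b → e < m →
  NearBank a m b e ⊆ ExitBank a (m + e) (b - e) ∪ Corner m e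

/-! ## AN: annuli -/

/-- AN. An annulus with large ratio is rarely crossed. Proof. `u4_prob` of
`Pool/Graph/R_seed8/H980R2/Unif/U4.lean` bounds the probability of the crossing of one annulus
`[-m,m]² → outside of [-3m,3m]²` (any centre), for the edges of an arbitrary finite set. Take the annuli
`R_i ≤ |·| ≤ 3 R_i`, `R_0 = r`, `R_{i+1} = 3 R_i + 1` (so `R_i ≤ 4^i r`, `3 R_j < 4^(j+1) r`), with the edge
sets `S_i` = the edges with both ends in the `i`-th closed annulus: pairwise disjoint. A path from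
sup-distance `≤ r` to sup-distance `≥ 4^j r` crosses the annuli `i < j` inside `S_i` (last visit of
`|·| ≤ R_i`... first visit of `|·| ≥ 3R_i` after it, as in `level`, `exit`, `toReach` of
`Pool/Graph/R_seed8/H980R4/Rect.lean`). Independence and product bound as in `prod_bound` there, and the
passage from `H974.Pr` to `perc` as in `vert_real` there. -/
def S_AN : Prop := ∀ (x0 y0 : ℤ) (r j : ℕ), 5 ≤ r →
  perc.real {ω : Conf | ∃ x y : ℤ × ℤ, |x.1 - x0| ≤ r ∧ |x.2 - y0| ≤ r ∧
    ((4:ℤ)^j * r ≤ |y.1 - x0| ∨ (4:ℤ)^j * r ≤ |y.2 - y0|) ∧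
    Relation.ReflTransGen (OpenAdj ω) x y} ≤ (1 - (1/2 : ℝ)^188)^j

/-- CO. Proof: from AN. With `x0 = m/2`, `y0 = -(m/2)` (integer division): `|y.1 - y.2 - m| ≤ e` and
`|y.1 + y.2| ≤ e` give `|y.1 - x0| ≤ e + 1`, `|y.2 - y0| ≤ e + 1`; `x.1 - x.2 = 0` gives
`|x.1 - x0| ≥ m/2 - 1` or `|x.2 - y0| ≥ m/2 - 1`. (The open path can be reversed.) Use `r = e + 5` and
`j` with `(1 - 2^(-188))^j ≤ η`; `ε = 4^(-j)/8` and `m ≥ m0` large give `4^j (e+5) ≤ m/2 - 1`. -/
def S_CO : Prop := ∀ η : ℝ, 0 < η → ∃ ε : ℝ, 0 < ε ∧ ∃ m0 : ℕ, ∀ m e : ℕ, m0 ≤ m →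
  (e:ℝ) ≤ ε * m → perc.real (Corner m e) ≤ η

/-! ## FA: the path does not go far before it leaves the window -/

/-- before it leaves the window the path visits a height `≥ H` or `≤ -H` -/
def Far (a m b H : ℕ) : Set Conf :=
  {ω | ∃ N, (H : ℤ) ≤ |ht (path m ω N)| ∧ ∀ j ≤ N, Free a m b (path m ω j)}

/-- dual adjacency: two neighbouring faces (given by their lower left corners) of a strip, separated
by an edge which is not open. The face `f` and the face `f + (1,0)` are separated by the edge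
`(f.1 + 1, f.2, true)`, the face `f` and the face `f + (0,1)` by the edge `(f.1, f.2 + 1, false)`. -/
def DAdj (ω : Conf) (f g : ℤ × ℤ) : Prop :=
  (g = (f.1 + 1, f.2) ∧ ω (f.1 + 1, f.2, true) = false) ∨
  (f = (g.1 + 1, g.2) ∧ ω (g.1 + 1, g.2, true) = false) ∨
  (g = (f.1, f.2 + 1) ∧ ω (f.1, f.2 + 1, false) = false) ∨
  (f = (g.1, g.2 + 1) ∧ ω (g.1, g.2 + 1, false) = false)

/-- a dual path of closed edges in the strip of the faces of column in `[c0, c0 + L]` joins the region
`u + v ≤ s` to `u + v ≥ t` (`u + v` for the lower left corner of the face) -/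
def DVert (c0 : ℤ) (L : ℕ) (s t : ℤ) : Set Conf :=
  {ω | ∃ f g : ℤ × ℤ, f.1 + f.2 ≤ s ∧ t ≤ g.1 + g.2 ∧
    Relation.ReflTransGen (fun p r => DAdj ω p r ∧ c0 ≤ p.1 - p.2 ∧ p.1 - p.2 ≤ c0 + L ∧
      c0 ≤ r.1 - r.2 ∧ r.1 - r.2 ≤ c0 + L) f g}

/-- DV. The dual configuration is again critical percolation. Proof: let `σ : Edge ≃ Edge`,
`σ (u,v,false) = (u+1,v,true)`, `σ (u,v,true) = (u,v+1,false)`, and `ω' e = !(ω (σ e))`. Then `ω'` has law
`perc` (`neg` and the permutation of the edges: see `Pool/Graph/R_seed8/H492E/E3.lean`, theorems around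
`mir_eq`, `neg`, `Measure.infinitePi_map_pi`, and `perc_map` in `H863R4/AllPar.lean`), and
`DAdj ω f g ↔ OpenAdj ω' f g`; so `DVert c0 L s t` is the preimage of `H980R4.Rect.Vert c0 L s t`. -/
def S_DV : Prop := ∀ (c0 : ℤ) (L : ℕ) (s t : ℤ),
  perc.real (DVert c0 L s t) = perc.real {ω : Conf | ∃ x y : ℤ × ℤ, x.1 + x.2 ≤ s ∧ t ≤ y.1 + y.2 ∧
    Relation.ReflTransGen (fun p r => OpenAdj ω p r ∧ c0 ≤ p.1 - p.2 ∧ p.1 - p.2 ≤ c0 + L ∧
      c0 ≤ r.1 - r.2 ∧ r.1 - r.2 ≤ c0 + L) x y}

/-- FD. Proof. While the path is `Free`, the faces `face (path m ω j)` have column in `(-a, m+b]`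
(`leftCol` is the column of `face`, `TX.leftCol_face` in `TX/Main.lean`; `leftCol ≤ rightCol + 1`). One
step changes the face only in the third case of `step` (see `TX.I.inv_step`: in the other two cases
`face` is the same), and then the old and the new face are separated by the edge
`{s.1, s.1 + vec s.2}` which is not `SAdj m`: so either it is closed (`DAdj`), or it is an edge of the
slit. In the latter case, as in `TX.I.inv_step`, `s.1` is strictly inside the ledge (height `0`, column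
in `(0,m)`): it is in the slit, not on the right bank (`Free`), not strictly inside the slit, and not on
the left bank (direction `0` there is a bank step, direction `3` with height `≥ 1` is excluded, and
direction `3` at `(0,0)` leads out of the slit). Then both faces have `u + v` in `[-1, 0]`, that is
`-1 ≤ f.1 + f.2 ≤ 0`, since both ends of the edge have height in `{0, 1}`. Hence by induction on `j ≤ N`:
either `-1 ≤ (face).1 + (face).2 ≤ 0`... more precisely there is a face `f` with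
`-1 ≤ f.1 + f.2 ≤ 0` joined to `face (path m ω j)` by a path of `DAdj`-steps in the strip (start:
`face ((0,0),3) = (0,-1)`, `u+v = -1`). The height of the vertex and `u+v` of the face differ by at most
`2`: `ht s - 2 ≤ (face s).1 + (face s).2 ≤ ht s`. If `ht ≥ H` this gives `DVert (-a) (a+m+b) 0 (H-2)`; if
`ht ≤ -H` the reversed path gives `DVert (-a) (a+m+b) (-H) (-1)`. -/
def S_FD : Prop := ∀ a m b H : ℕ, 1 ≤ a → 1 ≤ m → 1 ≤ b →
  Far a m b H ⊆ DVert (-(a:ℤ)) (a + m + b) 0 ((H:ℤ) - 2) ∪ DVert (-(a:ℤ)) (a + m + b) (-(H:ℤ)) (-1)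

/-- FA. Proof: from FD, DV and `vert_real` (`Pool/Graph/R_seed8/H980R4/Rect.lean`). -/
def S_FA : Prop := ∀ a m b j : ℕ, 1 ≤ a → 1 ≤ m → 1 ≤ b →
  perc.real (Far a m b (100 * (a + m + b) * j + 2)) ≤ 2 * (1 - (1/2 : ℝ)^188)^j

/-! ## The scaling limit: deterministic part -/

/-- the point of the plane at which the path is (the vertex on its right), at mesh `δ` -/
noncomputable def zz (δ : ℝ) (s : (ℤ × ℤ) × Fin 4) : ℂ :=
  ⟨δ * ((s.1.1 : ℝ) - s.1.2), δ * ((s.1.1 : ℝ) + s.1.2)⟩

/-- the exploration paths of the configurations `ω n` (mesh `δ n`, slit of `m n` columns),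
parametrised by the nondecreasing functions `k n` from `[0,∞)` onto `ℕ`, converge to the continuous
curve `Γ` locally uniformly, and `Γ` is unbounded -/
structure Conv (δ : ℕ → ℝ) (m : ℕ → ℕ) (ω : ℕ → Conf) (k : ℕ → ℝ → ℕ) (Γ : ℝ → ℂ) : Prop where
  zero : ∀ n, k n 0 = 0
  mono : ∀ n s t, 0 ≤ s → s ≤ t → k n s ≤ k n t
  surj : ∀ n N, ∃ t, 0 ≤ t ∧ k n t = N
  cont : ContinuousOn Γ (Ici 0)
  unif : ∀ T : ℝ, TendstoUniformlyOn (fun n t => zz (δ n) (path (m n) (ω n) (k n t))) Γ atTop
    (Icc 0 T)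
  unb : ∀ R : ℝ, ∃ t, 0 ≤ t ∧ R ≤ ‖Γ t‖

/-- `w` is on the right bank of the slit -/
def OnBank (γ : ℝ) (w : ℂ) : Prop := w.re = γ ∧ 0 ≤ w.im

/-- the curve hits the right bank before it leaves the window `-α < X < γ + β` -/
def HitBank (α γ β : ℝ) (Γ : ℝ → ℂ) : Prop :=
  ∃ t, 0 ≤ t ∧ OnBank γ (Γ t) ∧ ∀ s ∈ Icc 0 t, -α < (Γ s).re ∧ (Γ s).re < γ + β

/-- the curve hits the line `X = -α` before the right bank and the line `X = γ + β` -/
def HitLeft (α γ β : ℝ) (Γ : ℝ → ℂ) : Prop :=
  ∃ t, 0 ≤ t ∧ (Γ t).re ≤ -α ∧ ∀ s ∈ Icc 0 t, ¬ OnBank γ (Γ s) ∧ (Γ s).re < γ + β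

/-- the curve hits the line `X = γ + β` before the right bank and the line `X = -α` -/
def HitRight (α γ β : ℝ) (Γ : ℝ → ℂ) : Prop :=
  ∃ t, 0 ≤ t ∧ γ + β ≤ (Γ t).re ∧ ∀ s ∈ Icc 0 t, ¬ OnBank γ (Γ s) ∧ -α < (Γ s).re

/-- the parameters -/
structure Par (δ : ℕ → ℝ) (a m b : ℕ → ℕ) (α γ β : ℝ) : Prop where
  pos : ∀ n, 0 < δ n
  lim : Tendsto δ atTop (𝓝 0)
  ha : Tendsto (fun n => δ n * a n) atTop (𝓝 α)
  hm : Tendsto (fun n => δ n * m n) atTop (𝓝 γ)
  hb : Tendsto (fun n => δ n * b n) atTop (𝓝 β)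

/-- L1. Proof. `Γ` is continuous on the compact `[0,t]` (`t` from `HitBank`), so there is `η > 0` with
`-α + η < Re Γ < γ + β - η` on `[0,t]`, and `η ≤ ε`. For `n` large: `|zz (path (k n s)) - Γ s| < η/8` for
all `s ∈ [0,t]`, `δ n < η/8`, `δ n a n > α - η/8`, `|δ n m n - γ| < η/8`, `δ n b n > β - η/8`. Take
`N = k n t`. Every `j ≤ N` is `k n s` for some `s ∈ [0,t]` (`surj`; if `s > t` then `j = N = k n t` by
`mono`). The real part of `zz` is `δ * rightCol`, the imaginary part `δ * ht`, and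
`leftCol ≥ rightCol - 1`. All inequalities follow after multiplication with `δ n > 0`; for the first
three of `NearBank`: `|δ rightCol - δ m| ≤ |δ rightCol - Re Γ t| + |γ - δ m| < η/4 ≤ ε ≤ δ e`, and
`δ ht > Im Γ t - η/8 ≥ -ε ≥ -δ e`. -/
def S_L1 : Prop := ∀ (δ : ℕ → ℝ) (a m b e : ℕ → ℕ) (α γ β ε : ℝ) (ω : ℕ → Conf) (k : ℕ → ℝ → ℕ)
  (Γ : ℝ → ℂ), 0 < α → 0 < γ → 0 < β → 0 < ε → Par δ a m b α γ β → Conv δ m ω k Γ →
  (∀ n, ε ≤ δ n * e n) → HitBank α γ β Γ → ∀ᶠ n in atTop, ω n ∈ NearBank (a n) (m n) (b n) (e n)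

/-- L2. Here the parameters `a n` belong to a smaller `α' < α`. Proof: on the compact `[0,t]` the
distance of `Γ` to the closed right bank and to `Re = γ + β` is at least some `η > 0`
(`0 < α', α`, and `η < (α - α')`). For `n` large, with `N = k n t`: `δ * rightCol (path N) < -α + η/8`
and `leftCol ≤ rightCol + 1`, `δ a < α' + η/8`... gives `leftCol ≤ -a`. For `j ≤ N`, `j = k n s`,
`s ∈ [0,t]`: `rightCol < m + b` as in L1; if `RightBank (path j).1` then `zz = (δ m, δ ht)`, `ht ≥ 0`, is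
within `η/4` of the point `γ + i δ ht` of the right bank, so `Γ s` is within `η/2` of the bank,
contradiction. -/
def S_L2 : Prop := ∀ (δ : ℕ → ℝ) (a m b : ℕ → ℕ) (α α' γ β : ℝ) (ω : ℕ → Conf) (k : ℕ → ℝ → ℕ)
  (Γ : ℝ → ℂ), 0 < α' → α' < α → 0 < γ → 0 < β → Par δ a m b α' γ β → Conv δ m ω k Γ →
  HitLeft α γ β Γ → ∀ᶠ n in atTop, ω n ∈ ExitLeft (a n) (m n) (b n)

/-- L3. Same as L2, for the right line. -/
def S_L3 : Prop := ∀ (δ : ℕ → ℝ) (a m b : ℕ → ℕ) (α γ β β' : ℝ) (ω : ℕ → Conf) (k : ℕ → ℝ → ℕ)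
  (Γ : ℝ → ℂ), 0 < α → 0 < γ → 0 < β' → β' < β → Par δ a m b α γ β' → Conv δ m ω k Γ →
  HitRight α γ β Γ → ∀ᶠ n in atTop, ω n ∈ ExitRight (a n) (m n) (b n)

/-- L4. Proof. The set `C = {Re ≤ -α} ∪ {Re ≥ γ+β} ∪ bank` is closed. If `Γ` visited `C`, there would be a
first time `t` of a visit (`Γ` is continuous: the set of the times of visits is closed in `[0,∞)`, take
its infimum), and then one of the three events occurs with this `t`: if `Γ t` is on the bank, then
`Re Γ t = γ` and `-α < Re Γ s < γ + β` for `s ≤ t`; etc. So `Γ` never visits `C`: `-α < Re Γ < γ + β` for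
all times, and since `Γ` is unbounded there is a `t` with `|Im Γ t| ≥ M + 1`. On `[0,t]` the distance of
`Γ` to `C` is at least some `η > 0`. For `n` large, `N = k n t`: all `path j`, `j ≤ N`, are `Free` (as in
L2) and `δ |ht (path N)| ≥ M ≥ δ H`. -/
def S_L4 : Prop := ∀ (δ : ℕ → ℝ) (a m b H : ℕ → ℕ) (α γ β M : ℝ) (ω : ℕ → Conf) (k : ℕ → ℝ → ℕ)
  (Γ : ℝ → ℂ), 0 < α → 0 < γ → 0 < β → Par δ a m b α γ β → Conv δ m ω k Γ →
  (∀ n, δ n * H n ≤ M) → ¬ HitBank α γ β Γ → ¬ HitLeft α γ β Γ → ¬ HitRight α γ β Γ →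
  ∀ᶠ n in atTop, ω n ∈ Far (a n) (m n) (b n) (H n)

/-! ## The scaling limit: probabilities -/

/-- `Γ` is a scaling limit of the exploration path in the plane cut along the slit of width `γ`: there
are meshes `δ n → 0`, slits with `m n` columns, `δ n m n → γ`, and configurations `W n` of critical
percolation on the probability space `P`, whose exploration paths (suitably parametrised) converge
almost surely to `Γ`. (By Skorokhod's theorem every limit in law has such a representation.) -/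
def Limit (γ : ℝ) {Ω : Type} [MeasurableSpace Ω] (P : Measure Ω) (Γ : Ω → ℝ → ℂ) : Prop :=
  ∃ (δ : ℕ → ℝ) (m : ℕ → ℕ) (W : ℕ → Ω → Conf) (k : ℕ → Ω → ℝ → ℕ),
    (∀ n, 0 < δ n) ∧ Tendsto δ atTop (𝓝 0) ∧ Tendsto (fun n => δ n * m n) atTop (𝓝 γ) ∧
    (∀ n, Measurable (W n)) ∧ (∀ n, P.map (W n) = perc) ∧
    ∀ᵐ p ∂P, Conv δ m (fun n => W n p) (fun n => k n p) (Γ p)

/-- P1. Fatou for sets. Proof: `{∀ᶠ n, p ∈ A n} = ⋃_N ⋂_{n ≥ N} A n`, increasing union
(`measure_iUnion_eq_iSup` or continuity from below). -/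
def S_P1 : Prop := ∀ {Ω : Type} [MeasurableSpace Ω] (P : Measure Ω) [IsProbabilityMeasure P]
  (E : Set Ω) (A : ℕ → Set Ω) (v : ℝ) (u : ℕ → ℝ), (∀ n, MeasurableSet (A n)) →
  (∀ᵐ p ∂P, p ∈ E → ∀ᶠ n in atTop, p ∈ A n) → (∀ n, P.real (A n) ≤ u n) →
  Tendsto u atTop (𝓝 v) → P.real E ≤ v

end Pool.Agent.H966.EX
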