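import Pool.Agent.H966.EX.Defs
import Pool.Graph.R_seed8.H980R4.Rect

/-!
EX-FA: tail of the height reached before the exit.
-/

set_option autoImplicit false

namespace Pool.Agent.H966.EX

open Pool.Agent.H988R2.Perc hiding X
open Pool.Agent.H966.TX
open MeasureTheory

namespace FA

open Pool.Agent.H980R4.Rect in
/-- decay of the dual crossings -/
theorem dv (h2 : S_DV) (c0 : ℤ) {L : ℕ} (hL : 1 ≤ L) (s t : ℤ) (j : ℕ)
    (ht : s + ((100 * L * j : ℕ) : ℤ) ≤ t) :
    perc.real (DVert c0 L s t) ≤ (1 - (1/2 : ℝ)^188)^j := by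
  have e1 := h2 c0 L s t
  have e2 := vert_real c0 hL s (100 * L * j)
  have e3 : 100 * L * j / (100 * L) = j := Nat.mul_div_cancel_left j (by omega)
  rw [e3] at e2
  rw [e1]
  refine le_trans ?_ e2
  exact measureReal_mono (vert_anti c0 L s ht) (measure_ne_top _ _)

end FA

open FA

theorem t_FA (h1 : S_FD) (h2 : S_DV) : S_FA := by
  intro a m b j ha hm hb
  have k1 := h1 a m b (100 * (a + m + b) * j + 2) ha hm hb
  have k2 := measureReal_mono (μ := perc) k1 (measure_ne_top _ _)
  refine k2.trans ((measureReal_union_le _ _).trans ?_)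
  have k3 := dv h2 (-(a:ℤ)) (L := a + m + b) (by omega) 0
    (((100 * (a + m + b) * j + 2 : ℕ) : ℤ) - 2) j (by push_cast; linarith)
  have k4 := dv h2 (-(a:ℤ)) (L := a + m + b) (by omega)
    (-((100 * (a + m + b) * j + 2 : ℕ) : ℤ)) (-1) j (by push_cast; linarith)
  linarith

end Pool.Agent.H966.EX
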