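import Pool.Agent.H966.EX.Defs
import Pool.Agent.H966.TX.I

/-!
EX-FD: the dual path on the left of the exploration path.
-/

set_option autoImplicit false

namespace Pool.Agent.H966.EX

open Pool.Agent.H988R2.Perc hiding X
open Pool.Agent.H966.TX
open MeasureTheory Filter Topology Set

namespace FD

theorem path_succ (m : ℕ) (ω : Conf) (n : ℕ) : path m ω (n + 1) = step m ω (path m ω n) := by
  unfold path
  rw [Function.iterate_succ_apply']

theorem leftCol_face (s : (ℤ × ℤ) × Fin 4) : leftCol s = (face s).1 - (face s).2 := by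
  obtain ⟨⟨u, v⟩, d⟩ := s
  have hd : d = 0 ∨ d = 1 ∨ d = 2 ∨ d = 3 := by fin_cases d <;> simp
  unfold leftCol face
  rcases hd with rfl | rfl | rfl | rfl <;> simp only <;> ring

theorem leftCol_le (s : (ℤ × ℤ) × Fin 4) : leftCol s ≤ rightCol s + 1 := by
  obtain ⟨⟨x, y⟩, d⟩ := s
  unfold leftCol rightCol
  fin_cases d <;> simp only <;> omega

theorem face_ht (s : (ℤ × ℤ) × Fin 4) :
    ht s - 2 ≤ (face s).1 + (face s).2 ∧ (face s).1 + (face s).2 ≤ ht s := by
  obtain ⟨⟨x, y⟩, d⟩ := s
  unfold face ht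
  fin_cases d <;> constructor <;> simp only <;> omega

/-- crossing an edge which is not open -/
theorem dadj {ω : Conf} (v : ℤ × ℤ) (d : Fin 4) (h : ¬ OpenAdj ω v (v + vec d)) :
    DAdj ω (face (v, d)) (face (v, d + 3)) := by
  obtain ⟨x, y⟩ := v
  have hd : d = 0 ∨ d = 1 ∨ d = 2 ∨ d = 3 := by fin_cases d <;> simp
  rcases hd with rfl | rfl | rfl | rfl
  · -- right
    have h1 : ω (x, y, false) = false := by
      by_contra hc
      apply h
      left
      refine ⟨?_, by simpa using hc⟩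
      ext <;> simp [vec]
    right; right; right
    refine ⟨?_, ?_⟩
    · show ((x, y) : ℤ × ℤ) = (x, y - 1 + 1)
      ext <;> simp
    · show ω (x, y - 1 + 1, false) = false
      rw [sub_add_cancel]
      exact h1
  · -- up
    have h1 : ω (x, y, true) = false := by
      by_contra hc
      apply h
      right; right; left
      refine ⟨?_, by simpa using hc⟩
      ext <;> simp [vec]
    left
    refine ⟨?_, ?_⟩
    · show ((x, y) : ℤ × ℤ) = (x - 1 + 1, y)
      ext <;> simp
    · show ω (x - 1 + 1, y, true) = false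
      rw [sub_add_cancel]
      exact h1
  · -- left
    have h1 : ω (x - 1, y, false) = false := by
      by_contra hc
      apply h
      right; left
      refine ⟨?_, ?_⟩
      · show ((x, y) : ℤ × ℤ) = (x + -1 + 1, y + 0)
        ext
        · show x = x + -1 + 1
          ring
        · show y = y + 0
          ring
      · show ω (x + -1, y + 0, false) = true
        rw [add_zero, ← sub_eq_add_neg]
        simpa using hc
    right; right; left
    refine ⟨?_, ?_⟩
    · show ((x - 1, y) : ℤ × ℤ) = (x - 1, y - 1 + 1)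
      ext <;> simp
    · show ω (x - 1, y - 1 + 1, false) = false
      rw [sub_add_cancel]
      exact h1
  · -- down
    have h1 : ω (x, y - 1, true) = false := by
      by_contra hc
      apply h
      right; right; right
      refine ⟨?_, ?_⟩
      · show ((x, y) : ℤ × ℤ) = (x + 0, y + -1 + 1)
        ext
        · show x = x + 0
          ring
        · show y = y + -1 + 1
          ring
      · show ω (x + 0, y + -1, true) = true
        rw [add_zero, ← sub_eq_add_neg]
        simpa using hc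
    right; left
    refine ⟨?_, ?_⟩
    · show ((x, y - 1) : ℤ × ℤ) = (x - 1 + 1, y - 1)
      ext <;> simp
    · show ω (x - 1 + 1, y - 1, true) = false
      rw [sub_add_cancel]
      exact h1

/-- the faces of an edge of the slit seen from the ledge -/
theorem slit {a m b : ℕ} {ω : Conf} {v : ℤ × ℤ} {d : Fin 4} (hI : I.Inv a m b ω (v, d))
    (hR : ¬ RightBank m v) (hA : ¬ (LeftBank v ∧ d = 0)) (h1 : InSlit m v)
    (h2 : InSlit m (v + vec d)) :
    -1 ≤ (face (v, d + 3)).1 + (face (v, d + 3)).2 ∧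
      (face (v, d + 3)).1 + (face (v, d + 3)).2 ≤ 0 := by
  obtain ⟨-, -, h3, h4, -⟩ := hI
  obtain ⟨x, y⟩ := v
  obtain ⟨f1, f2, f3⟩ := h1
  obtain ⟨g1, g2, g3⟩ := h2
  simp only at f1 f2 f3 h3 h4
  have hcm : x - y ≠ (m : ℤ) := fun h => hR ⟨h, f3⟩
  have hd : d = 0 ∨ d = 1 ∨ d = 2 ∨ d = 3 := by fin_cases d <;> simp
  by_cases hc : x - y = 0
  · exfalso
    have hLB : LeftBank (x, y) := by
      refine ⟨?_, ?_⟩ <;> simp only <;> omega
    rcases hd with rfl | rfl | rfl | rfl
    · exact hA ⟨hLB, rfl⟩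
    · have : 0 ≤ (x + 0) - (y + 1) := g1
      omega
    · have : 0 ≤ (x + -1) - (y + 0) := g1
      omega
    · refine h4 hLB ?_ rfl
      have : 0 ≤ (x + 0) + (y + -1) := g3
      omega
  · have hh : x + y = 0 := by
      by_contra hh
      apply h3
      refine ⟨?_, ?_, ?_⟩ <;> omega
    rcases hd with rfl | rfl | rfl | rfl
    · show -1 ≤ x + (y - 1) ∧ x + (y - 1) ≤ 0
      omega
    · show -1 ≤ x + y ∧ x + y ≤ 0
      omega
    · exfalso
      have : 0 ≤ (x + -1) + (y + 0) := g3
      omega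
    · exfalso
      have : 0 ≤ (x + 0) + (y + -1) := g3
      omega

/-- one dual step in the strip -/
def R (ω : Conf) (c0 : ℤ) (L : ℕ) (p r : ℤ × ℤ) : Prop :=
  DAdj ω p r ∧ c0 ≤ p.1 - p.2 ∧ p.1 - p.2 ≤ c0 + L ∧ c0 ≤ r.1 - r.2 ∧ r.1 - r.2 ≤ c0 + L

theorem R_symm {ω : Conf} {c0 : ℤ} {L : ℕ} {p r : ℤ × ℤ} (hp : R ω c0 L p r) : R ω c0 L r p := by
  obtain ⟨h, h1, h2, h3, h4⟩ := hp
  refine ⟨?_, h3, h4, h1, h2⟩
  rcases h with h | h | h | h
  · exact Or.inr (Or.inl h)
  · exact Or.inl h
  · exact Or.inr (Or.inr (Or.inr h))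
  · exact Or.inr (Or.inr (Or.inl h))

theorem R_rev {ω : Conf} {c0 : ℤ} {L : ℕ} {p r : ℤ × ℤ}
    (hp : Relation.ReflTransGen (R ω c0 L) p r) : Relation.ReflTransGen (R ω c0 L) r p := by
  induction hp with
  | refl => exact Relation.ReflTransGen.refl
  | tail _ h2 ih => exact Relation.ReflTransGen.head (R_symm h2) ih

theorem free_col {a m b : ℕ} {s : (ℤ × ℤ) × Fin 4} (h : Free a m b s) :
    -(a : ℤ) ≤ (face s).1 - (face s).2 ∧
      (face s).1 - (face s).2 ≤ -(a : ℤ) + ((a + m + b : ℕ) : ℤ) := by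
  obtain ⟨-, h1, h2⟩ := h
  have h3 := leftCol_le s
  rw [leftCol_face] at h1 h3
  push_cast
  constructor <;> omega

theorem main {a m b : ℕ} (ha : 1 ≤ a) (hm : 1 ≤ m) {ω : Conf} (N : ℕ)
    (h : ∀ j ≤ N, Free a m b (path m ω j)) :
    ∃ f : ℤ × ℤ, -1 ≤ f.1 + f.2 ∧ f.1 + f.2 ≤ 0 ∧
      Relation.ReflTransGen (R ω (-(a:ℤ)) (a + m + b)) f (face (path m ω N)) := by
  induction N with
  | zero =>
    refine ⟨(0, -1), by norm_num, by norm_num, ?_⟩
    have : face (path m ω 0) = (0, -1) := by
      simp [path, face]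
    rw [this]
  | succ N ih =>
    obtain ⟨f, hf1, hf2, hf⟩ := ih (fun j hj => h j (by omega))
    have hI : I.Inv a m (b + 1) ω (path m ω N) := by
      refine I.inv_path ha hm (by omega) N (fun j hj => ?_)
      obtain ⟨k1, k2, k3⟩ := h j (by omega)
      refine ⟨k1, k2, ?_⟩
      have := leftCol_le (path m ω j)
      push_cast
      omega
    have hN := h N (by omega)
    have hN1 := h (N + 1) le_rfl
    rw [path_succ] at hN1 ⊢
    generalize hs : path m ω N = s at hf hI hN hN1
    obtain ⟨v, d⟩ := s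
    have c1 := free_col hN
    have c2 := free_col hN1
    have hR : ¬ RightBank m v := hN.1
    unfold step at c2 ⊢
    split_ifs at c2 ⊢ with hA hB
    · -- bank step
      obtain ⟨hA1, hA2⟩ := hA
      simp only at hA2
      subst hA2
      refine ⟨f, hf1, hf2, ?_⟩
      have e : face ((((v, (0 : Fin 4)) : (ℤ × ℤ) × Fin 4).1 + (1, 1), 2) : (ℤ × ℤ) × Fin 4)
          = face (v, 0) := by
        ext <;> simp [face]
      rw [e]
      exact hf
    · refine ⟨f, hf1, hf2, ?_⟩
      have e : face (v + vec d, d + 1) = face (v, d) := by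
        have hd : d = 0 ∨ d = 1 ∨ d = 2 ∨ d = 3 := by fin_cases d <;> simp
        obtain ⟨x, y⟩ := v
        rcases hd with rfl | rfl | rfl | rfl
        · show ((x + 1 - 1, y + 0) : ℤ × ℤ) = (x, y)
          ext <;> simp
        · show ((x + 0 - 1, y + 1 - 1) : ℤ × ℤ) = (x - 1, y)
          ext <;> simp
        · show ((x + -1, y + 0 - 1) : ℤ × ℤ) = (x - 1, y - 1)
          ext <;> simp
          ring
        · show ((x + 0, y + -1) : ℤ × ℤ) = (x, y - 1)
          ext <;> simp
          ring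
      show Relation.ReflTransGen _ f (face (v + vec d, d + 1))
      rw [e]
      exact hf
    · simp only at hA hB
      show ∃ f : ℤ × ℤ, -1 ≤ f.1 + f.2 ∧ f.1 + f.2 ≤ 0 ∧
        Relation.ReflTransGen (R ω (-(a:ℤ)) (a + m + b)) f (face (v, d + 3))
      by_cases hO : OpenAdj ω v (v + vec d)
      · have h5 : InSlit m v ∧ InSlit m (v + vec d) := by
          by_contra hc
          exact hB ⟨hO, hc⟩
        have h6 := slit hI hR hA h5.1 h5.2
        exact ⟨_, h6.1, h6.2, Relation.ReflTransGen.refl⟩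
      · exact ⟨f, hf1, hf2, hf.tail ⟨dadj v d hO, c1.1, c1.2, c2.1, c2.2⟩⟩

end FD

open FD

theorem t_FD : S_FD := by
  rintro a m b H ha hm hb ω ⟨N, hN, hF⟩
  obtain ⟨f, hf1, hf2, hf⟩ := main ha hm N hF
  have h1 := face_ht (path m ω N)
  rcases le_abs.1 hN with h2 | h2
  · left
    exact ⟨f, face (path m ω N), hf2, by omega, hf⟩
  · right
    exact ⟨face (path m ω N), f, by omega, by omega, R_rev hf⟩

end Pool.Agent.H966.EX
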