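import Pool.Agent.H966.TX.V
import Pool.Agent.H966.EX.Defs

/-!
Planarity for paths which end on the right line (helper966; adapted from TX/V.lean)
-/

namespace Pool.Agent.H966.EX

open Pool.Agent.H988R2.Perc hiding X
open Pool.Agent.H966.TX
open Pool.Agent.H966.TX.V

/-- `V` is constant along dual paths which cross only edges, with an end of column `< m + b`, which
are not in the graph `FAdj` and not `Bad` -/
def DualConstR (a m b : ℕ) (ω : Conf) (V : ℤ × ℤ → ZMod 2) : Prop :=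
  ∀ s : (ℤ × ℤ) × Fin 4, s.1.1 - s.1.2 < (m:ℤ) + b → ¬ FAdj a m b ω s.1 (s.1 + vec s.2) →
    ¬ Bad m s.1 (s.1 + vec s.2) → V (face s) = V (face (s.1, s.2 + 3))

theorem dualConstR_of {a m b : ℕ} {ω : Conf} {V : ℤ × ℤ → ZMod 2} (h : DualConst a m b ω V) :
    DualConstR a m b ω V := fun s _ h1 h2 => h s h1 h2

theorem exists_V {a m b : ℕ} {ω : Conf} {x y : ℤ × ℤ} (hm : 1 ≤ m) (hb : 1 ≤ b)
    (hx0 : x.1 - x.2 = 0) (hx1 : 0 ≤ x.1 + x.2) (hy0 : y.1 - y.2 = (m : ℤ) + b)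
    (h : Relation.ReflTransGen (FAdj a m b ω) x y) :
    ∃ V : ℤ × ℤ → ZMod 2, DualConstR a m b ω V ∧ V (0, -1) = 1 ∧
      (∀ f : ℤ × ℤ, f.1 - f.2 ≤ -(a:ℤ) - 1 → V f = 0) := by
  obtain ⟨W, h1, h2, h3, h4⟩ := exists_W hm h
  refine ⟨fun f => W f + ind (f.1 - f.2 = 0 ∧ x.1 + x.2 < f.1 + f.2 + 1) +
    ind (f.1 - f.2 = (m:ℤ) + b ∧ y.1 + y.2 < f.1 + f.2 + 1), ?_, ?_, ?_⟩
  · intro s hc hs hb
    have e1 := h1 s hs
    have e2 : ind ((face s).1 - (face s).2 = (m:ℤ) + b ∧ y.1 + y.2 < (face s).1 + (face s).2 + 1) +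
        ind ((face (s.1, s.2 + 3)).1 - (face (s.1, s.2 + 3)).2 = (m:ℤ) + b ∧
          y.1 + y.2 < (face (s.1, s.2 + 3)).1 + (face (s.1, s.2 + 3)).2 + 1) =
        ind (pp s y) := by
      apply ind_add_eq'
      obtain ⟨⟨v1, v2⟩, d⟩ := s
      change v1 - v2 < (m:ℤ) + b at hc
      fin_cases d
      · change ((v1 - v2 = (m:ℤ) + b ∧ y.1 + y.2 < v1 + v2 + 1) ↔
          (v1 - (v2 - 1) = (m:ℤ) + b ∧ y.1 + y.2 < v1 + (v2 - 1) + 1)) ↔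
          (¬ (y.1 - y.2 = v1 - v2 + 1 ∧ y.1 + y.2 ≤ v1 + v2 - 1))
        omega
      · change ((v1 - 1 - v2 = (m:ℤ) + b ∧ y.1 + y.2 < v1 - 1 + v2 + 1) ↔
          (v1 - v2 = (m:ℤ) + b ∧ y.1 + y.2 < v1 + v2 + 1)) ↔
          (¬ (y.1 - y.2 = v1 - v2 ∧ y.1 + y.2 ≤ v1 + v2))
        omega
      · change ((v1 - 1 - (v2 - 1) = (m:ℤ) + b ∧ y.1 + y.2 < v1 - 1 + (v2 - 1) + 1) ↔
          (v1 - 1 - v2 = (m:ℤ) + b ∧ y.1 + y.2 < v1 - 1 + v2 + 1)) ↔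
          (¬ (y.1 - y.2 = v1 - v2 ∧ y.1 + y.2 ≤ v1 + v2 - 2))
        omega
      · change ((v1 - (v2 - 1) = (m:ℤ) + b ∧ y.1 + y.2 < v1 + (v2 - 1) + 1) ↔
          (v1 - 1 - (v2 - 1) = (m:ℤ) + b ∧ y.1 + y.2 < v1 - 1 + (v2 - 1) + 1)) ↔
          (¬ (y.1 - y.2 = v1 - v2 + 1 ∧ y.1 + y.2 ≤ v1 + v2 - 1))
        omega
    have e3 : ind ((face s).1 - (face s).2 = 0 ∧ x.1 + x.2 < (face s).1 + (face s).2 + 1) +
        ind ((face (s.1, s.2 + 3)).1 - (face (s.1, s.2 + 3)).2 = 0 ∧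
          x.1 + x.2 < (face (s.1, s.2 + 3)).1 + (face (s.1, s.2 + 3)).2 + 1) =
        ind (pp s x) := by
      apply ind_add_eq'
      obtain ⟨⟨v1, v2⟩, d⟩ := s
      fin_cases d
      · change ¬ Bad m (v1, v2) (v1 + 1, v2 + 0) at hb
        change ((v1 - v2 = 0 ∧ x.1 + x.2 < v1 + v2 + 1) ↔
          (v1 - (v2 - 1) = 0 ∧ x.1 + x.2 < v1 + (v2 - 1) + 1)) ↔
          (¬ (x.1 - x.2 = v1 - v2 + 1 ∧ x.1 + x.2 ≤ v1 + v2 - 1))
        unfold Bad InSlit at hb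
        simp only at hb
        omega
      · change ¬ Bad m (v1, v2) (v1 + 0, v2 + 1) at hb
        change ((v1 - 1 - v2 = 0 ∧ x.1 + x.2 < v1 - 1 + v2 + 1) ↔
          (v1 - v2 = 0 ∧ x.1 + x.2 < v1 + v2 + 1)) ↔
          (¬ (x.1 - x.2 = v1 - v2 ∧ x.1 + x.2 ≤ v1 + v2))
        unfold Bad InSlit at hb
        simp only at hb
        omega
      · change ¬ Bad m (v1, v2) (v1 + -1, v2 + 0) at hb
        change ((v1 - 1 - (v2 - 1) = 0 ∧ x.1 + x.2 < v1 - 1 + (v2 - 1) + 1) ↔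
          (v1 - 1 - v2 = 0 ∧ x.1 + x.2 < v1 - 1 + v2 + 1)) ↔
          (¬ (x.1 - x.2 = v1 - v2 ∧ x.1 + x.2 ≤ v1 + v2 - 2))
        unfold Bad InSlit at hb
        simp only at hb
        omega
      · change ¬ Bad m (v1, v2) (v1 + 0, v2 + -1) at hb
        change ((v1 - (v2 - 1) = 0 ∧ x.1 + x.2 < v1 + (v2 - 1) + 1) ↔
          (v1 - 1 - (v2 - 1) = 0 ∧ x.1 + x.2 < v1 - 1 + (v2 - 1) + 1)) ↔
          (¬ (x.1 - x.2 = v1 - v2 + 1 ∧ x.1 + x.2 ≤ v1 + v2 - 1))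
        unfold Bad InSlit at hb
        simp only at hb
        omega
    have e4 := add_self (ind (pp s x))
    have e4' := add_self (ind (pp s y))
    have e5 := add_self (W (face (s.1, s.2 + 3)))
    have e6 := add_self (ind ((face (s.1, s.2 + 3)).1 - (face (s.1, s.2 + 3)).2 = 0 ∧
          x.1 + x.2 < (face (s.1, s.2 + 3)).1 + (face (s.1, s.2 + 3)).2 + 1))
    have e7 := add_self (ind ((face (s.1, s.2 + 3)).1 - (face (s.1, s.2 + 3)).2 = (m:ℤ) + b ∧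
          y.1 + y.2 < (face (s.1, s.2 + 3)).1 + (face (s.1, s.2 + 3)).2 + 1))
    linear_combination e1 + e2 + e3 + e4 + e4' - e5 - e6 - e7
  · have hs : ¬ FAdj a m b ω (0, 0) ((0, 0) + vec 0) := by
      intro hF
      obtain ⟨-, -, -, -, -, q⟩ := hF
      apply q
      change (0 : ℤ) ≤ 0 + 0 ∧ (0 : ℤ) ≤ (0 + 1) + (0 + 0) ∧ (0 : ℤ) ≤ 0 - 0 ∧ (0 : ℤ) - 0 ≤ m ∧
        (0 : ℤ) ≤ (0 + 1) - (0 + 0) ∧ ((0 : ℤ) + 1) - (0 + 0) ≤ m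
      omega
    have e1 := h1 ((0, 0), 0) hs
    have e2 : ind (pp ((0, 0), 0) x) = 0 := by
      apply ind_false
      intro hp
      change x.1 - x.2 = 0 - 0 + 1 ∧ x.1 + x.2 ≤ 0 + 0 - 1 at hp
      omega
    have e3 : ind (pp ((0, 0), 0) y) = 0 := by
      apply ind_false
      intro hp
      change y.1 - y.2 = 0 - 0 + 1 ∧ y.1 + y.2 ≤ 0 + 0 - 1 at hp
      omega
    rw [e2, e3] at e1
    change W (0, 0) + W (0, 0 - 1) = 0 + 0 at e1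
    have e4 : ind (x.1 - x.2 ≤ 0) = 1 := ind_true (by omega)
    have e5 : ind (y.1 - y.2 ≤ 0) = 0 := ind_false (by omega)
    rw [e4, e5] at h4
    have e6 : ind ((0 : ℤ) - (0 - 1) = 0 ∧ x.1 + x.2 < (0 : ℤ) + (0 - 1) + 1) = 0 :=
      ind_false (by omega)
    have e6' : ind ((0 : ℤ) - (0 - 1) = (m:ℤ) + b ∧ y.1 + y.2 < (0 : ℤ) + (0 - 1) + 1) = 0 :=
      ind_false (by omega)
    change W (0, 0 - 1) + ind ((0 : ℤ) - (0 - 1) = 0 ∧ x.1 + x.2 < (0 : ℤ) + (0 - 1) + 1) +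
      ind ((0 : ℤ) - (0 - 1) = (m:ℤ) + b ∧ y.1 + y.2 < (0 : ℤ) + (0 - 1) + 1) = 1
    rw [e6, e6']
    have e7 := add_self (W (0, 0))
    linear_combination e1 + h4 - e7
  · intro f hf
    change W f + ind (f.1 - f.2 = 0 ∧ x.1 + x.2 < f.1 + f.2 + 1) +
      ind (f.1 - f.2 = (m:ℤ) + b ∧ y.1 + y.2 < f.1 + f.2 + 1) = 0
    rw [h3 f hf]
    rw [zero_add, ind_false (by omega), ind_false (by omega), zero_add]

end Pool.Agent.H966.EX
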