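import Pool.Agent.H966.TX.I
import Pool.Agent.H966.EX.V

/-!
Invariants of the exploration path before its right side reaches the line `m + b` (helper966; adapted
from TX/I.lean)
-/

namespace Pool.Agent.H966.EX

open Pool.Agent.H988R2.Perc hiding X
open Pool.Agent.H966.TX

namespace I

/-- the invariants -/
def Inv (a m b : ℕ) (ω : Conf) (s : (ℤ × ℤ) × Fin 4) : Prop :=
  (∃ x : ℤ × ℤ, x.1 - x.2 = 0 ∧ 0 ≤ x.1 + x.2 ∧
    Relation.ReflTransGen (FAdj a m b ω) x s.1) ∧
  (-(a : ℤ) ≤ s.1.1 - s.1.2 ∧ s.1.1 - s.1.2 ≤ (m : ℤ) + b) ∧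
  ¬ (0 < s.1.1 - s.1.2 ∧ s.1.1 - s.1.2 < (m : ℤ) ∧ 0 < s.1.1 + s.1.2) ∧
  (LeftBank s.1 → 1 ≤ s.1.1 → s.2 ≠ 3) ∧
  ∀ V : ℤ × ℤ → ZMod 2, DualConstR a m b ω V → V (face s) = V (0, -1)

/-- the end of the edge lies in the channel -/
theorem cols {a m b : ℕ} {v : ℤ × ℤ} {d : Fin 4}
    (h1 : -(a : ℤ) ≤ v.1 - v.2) (hl : -(a : ℤ) < leftCol (v, d)) (hr : v.1 - v.2 < (m : ℤ) + b) :
    -(a : ℤ) ≤ (v + vec d).1 - (v + vec d).2 ∧
      (v + vec d).1 - (v + vec d).2 ≤ (m : ℤ) + b := by
  fin_cases d <;> simp [leftCol, vec] at hl ⊢ <;> omega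

/-- one step -/
theorem inv_step {a m b : ℕ} {ω : Conf} (ha : 1 ≤ a) (hm : 1 ≤ m) (hb : 1 ≤ b)
    {s : (ℤ × ℤ) × Fin 4} (hs : Inv a m b ω s) (hR : ¬ RightBank m s.1)
    (hl : -(a : ℤ) < leftCol s) (hr : s.1.1 - s.1.2 < (m : ℤ) + b) : Inv a m b ω (step m ω s) := by
  obtain ⟨v, d⟩ := s
  obtain ⟨⟨x, hx1, hx2, hx3⟩, ⟨h1, h2⟩, h3, h4, h5⟩ := hs
  simp only at h1 h2 h3 h4 h5 hx3 hR hr
  have hcol := cols (b := b) h1 hl hr
  unfold step
  split_ifs with hA hB
  · -- bank step
    obtain ⟨hA1, hA2⟩ := hA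
    simp only at hA1 hA2
    subst hA2
    obtain ⟨hv1, hv2⟩ := hA1
    refine ⟨⟨v + (1, 1), ?_, ?_, Relation.ReflTransGen.refl⟩, ⟨?_, ?_⟩, ?_, ?_, ?_⟩
    · simp only [Prod.fst_add, Prod.snd_add]
      omega
    · simp only [Prod.fst_add, Prod.snd_add]
      omega
    · simp only [Prod.fst_add, Prod.snd_add]
      omega
    · simp only [Prod.fst_add, Prod.snd_add]
      omega
    · simp only [Prod.fst_add, Prod.snd_add]
      omega
    · intro _ _
      simp only
      decide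
    · intro V hV
      rw [← h5 V hV]
      congr 1
      ext <;> simp [face]
  · -- along an edge
    simp only at hB
    have hF : FAdj a m b ω v (v + vec d) := by
      refine ⟨hB.1, h1, ?_, hcol.1, ?_, ?_⟩
      · push_cast
        exact h2
      · push_cast
        exact hcol.2
      · rintro ⟨e1, e2, e3, e4, e5, e6⟩
        exact hB.2 ⟨⟨e3, e4, e1⟩, ⟨e5, e6, e2⟩⟩
    refine ⟨⟨x, hx1, hx2, hx3.tail hF⟩, hcol, ?_, ?_, ?_⟩
    · intro hin
      simp only at hin
      apply hB.2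
      have hstep : (v + vec d).1 - (v + vec d).2 - (v.1 - v.2) ≤ 1 ∧
          -1 ≤ (v + vec d).1 - (v + vec d).2 - (v.1 - v.2) ∧
          (v + vec d).1 + (v + vec d).2 - (v.1 + v.2) ≤ 1 ∧
          -1 ≤ (v + vec d).1 + (v + vec d).2 - (v.1 + v.2) := by
        fin_cases d <;> simp [vec] <;> omega
      refine ⟨⟨?_, ?_, ?_⟩, ⟨?_, ?_, ?_⟩⟩ <;> omega
    · rintro ⟨e1, e2⟩ e3 e4
      simp only at e1 e2 e3 e4
      have hd : d = 2 := by
        fin_cases d
        · exact absurd e4 (by decide)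
        · exact absurd e4 (by decide)
        · rfl
        · exact absurd e4 (by decide)
      subst hd
      apply hB.2
      simp [vec] at e1 e2 e3
      refine ⟨⟨?_, ?_, ?_⟩, ⟨?_, ?_, ?_⟩⟩ <;> (try simp [vec]) <;> omega
    · intro V hV
      rw [← h5 V hV]
      congr 1
      fin_cases d <;> ext <;> simp [face, vec] <;> ring
  · -- turn
    simp only at hA hB
    refine ⟨⟨x, hx1, hx2, hx3⟩, ⟨h1, h2⟩, h3, ?_, ?_⟩
    · intro e1 e2 e3
      apply hA
      refine ⟨e1, ?_⟩
      simp only at e3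
      fin_cases d
      · rfl
      · exact absurd e3 (by decide)
      · exact absurd e3 (by decide)
      · exact absurd e3 (by decide)
    · intro V hV
      rw [← h5 V hV]
      symm
      apply hV (v, d) hr
      · rintro ⟨e0, -, -, -, -, e6⟩
        apply hB
        refine ⟨e0, ?_⟩
        rintro ⟨⟨f1, f2, f3⟩, ⟨f4, f5, f6⟩⟩
        exact e6 ⟨f3, f6, f1, f2, f4, f5⟩
      · rintro ⟨⟨f1, f2, f3⟩, ⟨f4, f5, f6⟩, f7, f8⟩
        simp only at f1 f2 f3 f4 f5 f6 f7 f8
        have hc : v.1 - v.2 = 0 := by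
          by_contra hc
          by_cases hcm : v.1 - v.2 = (m : ℤ)
          · exact hR ⟨hcm, f3⟩
          · by_cases hh : v.1 + v.2 = 0
            · apply f7
              refine ⟨hh, ?_, ?_⟩ <;> omega
            · apply h3
              refine ⟨?_, ?_, ?_⟩ <;> omega
        have hLB : LeftBank v := by
          refine ⟨?_, ?_⟩ <;> omega
        have hd : d = 0 ∨ d = 3 := by
          fin_cases d
          · left; rfl
          · simp [vec] at f4
            omega
          · simp [vec] at f4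
            omega
          · right; rfl
        rcases hd with rfl | rfl
        · exact hA ⟨hLB, rfl⟩
        · refine h4 hLB ?_ rfl
          simp [vec] at f6
          omega

theorem inv_path {a m b : ℕ} {ω : Conf} (ha : 1 ≤ a) (hm : 1 ≤ m) (hb : 1 ≤ b) (n : ℕ)
    (h : ∀ j < n, Free a m b (path m ω j)) : Inv a m b ω (path m ω n) := by
  induction n with
  | zero =>
    refine ⟨⟨(0, 0), by simp, by simp, Relation.ReflTransGen.refl⟩, ⟨?_, ?_⟩, ?_, ?_, ?_⟩
    · simp [path]
    · simp only [path, Function.iterate_zero, id_eq]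
      omega
    · simp [path]
    · intro _ h1
      simp [path] at h1
    · intro V _
      simp [path, face]
  | succ n ih =>
    have h1 := ih (fun j hj => h j (by omega))
    have h2 := h n (by omega)
    have h3 : path m ω (n + 1) = step m ω (path m ω n) := by
      unfold path
      rw [Function.iterate_succ_apply']
    rw [h3]
    exact inv_step ha hm hb h1 h2.1 h2.2.1 h2.2.2

end I

end Pool.Agent.H966.EX
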