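import Mathlib
import Pool.Agent.H966.EX.Defs

/-! L1: a limit curve which hits the right bank: the discrete paths come near the bank
(helper34 for helper966). -/

set_option autoImplicit false

namespace Pool.Agent.H966.EX

open Pool.Agent.H988R2.Perc hiding X
open Pool.Agent.H966.TX
open MeasureTheory Filter Topology Set

namespace L1

theorem left_ge (s : (ℤ × ℤ) × Fin 4) : rightCol s - 1 ≤ leftCol s := by
  obtain ⟨⟨x, y⟩, d⟩ := s
  fin_cases d
  all_goals (simp only [rightCol, leftCol]; omega)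

theorem zz_re (δ : ℝ) (s : (ℤ × ℤ) × Fin 4) : (zz δ s).re = δ * (rightCol s : ℝ) := by
  unfold zz rightCol
  push_cast
  rfl

theorem zz_im (δ : ℝ) (s : (ℤ × ℤ) × Fin 4) : (zz δ s).im = δ * (ht s : ℝ) := by
  unfold zz ht
  push_cast
  rfl

theorem abs_re_le {z w : ℂ} {e : ℝ} (h : dist z w < e) : |z.re - w.re| < e := by
  rw [dist_eq_norm] at h
  have h1 := Complex.abs_re_le_norm (z - w)
  rw [Complex.sub_re] at h1
  exact h1.trans_lt h

theorem abs_im_le {z w : ℂ} {e : ℝ} (h : dist z w < e) : |z.im - w.im| < e := by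
  rw [dist_eq_norm] at h
  have h1 := Complex.abs_im_le_norm (z - w)
  rw [Complex.sub_im] at h1
  exact h1.trans_lt h

/-- every step before `k n t` is visited before the time `t` -/
theorem time {k : ℝ → ℕ} (hmono : ∀ s t, 0 ≤ s → s ≤ t → k s ≤ k t)
    (hsurj : ∀ N, ∃ t, 0 ≤ t ∧ k t = N) {t : ℝ} (ht : 0 ≤ t) {j : ℕ} (hj : j ≤ k t) :
    ∃ s ∈ Icc 0 t, k s = j := by
  obtain ⟨s, hs0, hs⟩ := hsurj j
  rcases le_or_gt s t with h | h
  · exact ⟨s, ⟨hs0, h⟩, hs⟩
  · have h1 := hmono t s ht h.le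
    exact ⟨t, ⟨ht, le_rfl⟩, by omega⟩

end L1

open L1 in
theorem t_L1 : S_L1 := by
  intro δ a m b e α γ β ε ω k Γ hα hγ hβ hε hpar hconv he hhit
  obtain ⟨t, ht0, hbank, hwin⟩ := hhit
  -- a positive distance to the two lines
  have hΓ : ContinuousOn Γ (Icc 0 t) := hconv.cont.mono Icc_subset_Ici_self
  have hre : ContinuousOn (fun s => (Γ s).re) (Icc 0 t) := Complex.continuous_re.comp_continuousOn hΓ
  have hf : ContinuousOn (fun s => min ((Γ s).re + α) (γ + β - (Γ s).re)) (Icc 0 t) :=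
    ContinuousOn.inf (hre.add continuousOn_const) (continuousOn_const.sub hre)
  obtain ⟨s0, hs0, hmin⟩ := isCompact_Icc.exists_isMinOn (nonempty_Icc.2 ht0) hf
  obtain ⟨η, hηdef⟩ : ∃ η, η = min (min ((Γ s0).re + α) (γ + β - (Γ s0).re)) ε := ⟨_, rfl⟩
  have hη0 : 0 < η := by
    rw [hηdef]
    refine lt_min (lt_min ?_ ?_) hε
    · linarith [(hwin s0 hs0).1]
    · linarith [(hwin s0 hs0).2]
  have hηε : η ≤ ε := by
    rw [hηdef]
    exact min_le_right _ _
  have hη1 : ∀ s ∈ Icc 0 t, η ≤ (Γ s).re + α ∧ η ≤ γ + β - (Γ s).re := by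
    intro s hs
    have h1 : min ((Γ s0).re + α) (γ + β - (Γ s0).re) ≤
        min ((Γ s).re + α) (γ + β - (Γ s).re) := hmin hs
    have h2 : η ≤ min ((Γ s).re + α) (γ + β - (Γ s).re) := by
      rw [hηdef]
      exact (min_le_left _ _).trans h1
    exact ⟨h2.trans (min_le_left _ _), h2.trans (min_le_right _ _)⟩
  have h8 : 0 < η / 8 := by positivity
  have e1 := Metric.tendstoUniformlyOn_iff.1 (hconv.unif t) (η / 8) h8
  have e2 := (Metric.tendsto_nhds.1 hpar.lim) (η / 8) h8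
  have e3 := (Metric.tendsto_nhds.1 hpar.ha) (η / 8) h8
  have e4 := (Metric.tendsto_nhds.1 hpar.hm) (η / 8) h8
  have e5 := (Metric.tendsto_nhds.1 hpar.hb) (η / 8) h8
  filter_upwards [e1, e2, e3, e4, e5] with n h1 h2 h3 h4 h5
  have hδ := hpar.pos n
  rw [Real.dist_eq, sub_zero, abs_of_pos hδ] at h2
  rw [Real.dist_eq, abs_lt] at h3 h4 h5
  have hen := he n
  -- the window
  have hw : ∀ j ≤ k n t, -(a n : ℤ) < leftCol (path (m n) (ω n) j) ∧
      rightCol (path (m n) (ω n) j) < (m n : ℤ) + b n := by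
    intro j hj
    obtain ⟨s, hs, hsj⟩ := time (hconv.mono n) (hconv.surj n) ht0 hj
    have h6 := abs_re_le (h1 s hs)
    rw [hsj, zz_re, abs_lt] at h6
    obtain ⟨h7, h8'⟩ := hη1 s hs
    set P := path (m n) (ω n) j with hP
    have hl : ((rightCol P : ℤ) : ℝ) - 1 ≤ ((leftCol P : ℤ) : ℝ) := by exact_mod_cast left_ge P
    constructor
    · have h9 : δ n * (-(a n : ℝ)) < δ n * (leftCol P : ℝ) := by
        have h10 : δ n * ((rightCol P : ℝ) - 1) ≤ δ n * (leftCol P : ℝ) :=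
          mul_le_mul_of_nonneg_left hl hδ.le
        linarith [h6.1, h6.2, h3.1, h3.2]
      have h11 : (-(a n : ℝ)) < (leftCol P : ℝ) := lt_of_mul_lt_mul_left h9 hδ.le
      exact_mod_cast h11
    · have h9 : δ n * (rightCol P : ℝ) < δ n * ((m n : ℝ) + b n) := by
        linarith [h6.1, h6.2, h4.1, h4.2, h5.1, h5.2]
      have h11 : (rightCol P : ℝ) < (m n : ℝ) + b n := lt_of_mul_lt_mul_left h9 hδ.le
      exact_mod_cast h11
  have h6 := h1 t ⟨ht0, le_rfl⟩
  have h7 := abs_re_le h6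
  have h8' := abs_im_le h6
  rw [zz_re, abs_lt, hbank.1] at h7
  rw [zz_im, abs_lt] at h8'
  have him := hbank.2
  set P := path (m n) (ω n) (k n t) with hP
  refine ⟨k n t, ?_, ?_, ?_, hw⟩
  · have h9 : δ n * ((m n : ℝ) - e n) ≤ δ n * (rightCol P : ℝ) := by
      linarith [h7.1, h7.2, h4.1, h4.2]
    have h11 : (m n : ℝ) - e n ≤ (rightCol P : ℝ) := le_of_mul_le_mul_left h9 hδ
    exact_mod_cast h11
  · have h9 : δ n * (rightCol P : ℝ) ≤ δ n * ((m n : ℝ) + e n) := by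
      linarith [h7.1, h7.2, h4.1, h4.2]
    have h11 : (rightCol P : ℝ) ≤ (m n : ℝ) + e n := le_of_mul_le_mul_left h9 hδ
    exact_mod_cast h11
  · have h9 : δ n * (-(e n : ℝ)) ≤ δ n * (ht P : ℝ) := by
      linarith [h8'.1, h8'.2]
    have h11 : -(e n : ℝ) ≤ (ht P : ℝ) := le_of_mul_le_mul_left h9 hδ
    exact_mod_cast h11

end Pool.Agent.H966.EX
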