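import Pool.Agent.H966.EX.Defs

/-!
EX-L2 and EX-L3: a limit curve which hits one of the two lines.
-/

set_option autoImplicit false

namespace Pool.Agent.H966.EX

open Pool.Agent.H988R2.Perc hiding X
open Pool.Agent.H966.TX
open MeasureTheory Filter Topology Set

namespace L23

theorem lc (s : (ℤ × ℤ) × Fin 4) : leftCol s ≤ rightCol s + 1 ∧ rightCol s - 1 ≤ leftCol s := by
  obtain ⟨⟨x, y⟩, d⟩ := s
  unfold leftCol rightCol
  fin_cases d <;> constructor <;> simp only <;> omega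

theorem ex_s {δ : ℕ → ℝ} {m : ℕ → ℕ} {ω : ℕ → Conf} {k : ℕ → ℝ → ℕ} {Γ : ℝ → ℂ}
    (h : Conv δ m ω k Γ) {t : ℝ} (ht : 0 ≤ t) {n j : ℕ} (hj : j ≤ k n t) :
    ∃ s ∈ Icc 0 t, k n s = j := by
  obtain ⟨s, hs0, hs⟩ := h.surj n j
  rcases le_total s t with hst | hst
  · exact ⟨s, ⟨hs0, hst⟩, hs⟩
  · have := h.mono n t s ht hst
    exact ⟨t, ⟨ht, le_rfl⟩, by omega⟩

/-- the bank is closed -/
theorem bank_closed (γ : ℝ) : IsClosed {w : ℂ | OnBank γ w} :=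
  (isClosed_eq Complex.continuous_re continuous_const).inter
    (isClosed_le continuous_const Complex.continuous_im)

theorem bank_ne (γ : ℝ) : {w : ℂ | OnBank γ w}.Nonempty := ⟨⟨γ, 0⟩, rfl, le_rfl⟩

theorem pos_min {t : ℝ} (ht : 0 ≤ t) {f : ℝ → ℝ} (hf : ContinuousOn f (Icc 0 t))
    (hp : ∀ s ∈ Icc 0 t, 0 < f s) : ∃ η > 0, ∀ s ∈ Icc 0 t, η ≤ f s := by
  obtain ⟨s₀, hs₀, hmin⟩ := isCompact_Icc.exists_isMinOn ⟨0, ⟨le_rfl, ht⟩⟩ hf
  exact ⟨f s₀, hp s₀ hs₀, fun s hs => hmin hs⟩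

theorem dist_bank {γ t : ℝ} (ht : 0 ≤ t) {Γ : ℝ → ℂ} (hc : ContinuousOn Γ (Ici 0))
    (h : ∀ s ∈ Icc 0 t, ¬ OnBank γ (Γ s)) :
    ∃ η > 0, ∀ s ∈ Icc 0 t, ∀ w, OnBank γ w → η ≤ dist (Γ s) w := by
  obtain ⟨η, hη, h1⟩ := pos_min ht (f := fun s => Metric.infDist (Γ s) {w : ℂ | OnBank γ w})
    ((Metric.continuous_infDist_pt _).comp_continuousOn (hc.mono fun s hs => hs.1))
    (fun s hs => ((bank_closed γ).notMem_iff_infDist_pos (bank_ne γ)).1 (h s hs))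
  exact ⟨η, hη, fun s hs w hw => (h1 s hs).trans (Metric.infDist_le_dist_of_mem hw)⟩

theorem evt {δ : ℕ → ℝ} {a m b : ℕ → ℕ} {α γ β : ℝ} {ω : ℕ → Conf} {k : ℕ → ℝ → ℕ} {Γ : ℝ → ℂ}
    (hp : Par δ a m b α γ β) (h : Conv δ m ω k Γ) (t : ℝ) {η : ℝ} (hη : 0 < η) :
    ∀ᶠ n in atTop, δ n < η / 8 ∧ |δ n * a n - α| < η / 8 ∧ |δ n * m n - γ| < η / 8 ∧
      |δ n * b n - β| < η / 8 ∧
      ∀ s ∈ Icc 0 t, dist (Γ s) (zz (δ n) (path (m n) (ω n) (k n s))) < η / 8 := by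
  have h8 : 0 < η / 8 := by linarith
  have e1 := hp.lim.eventually (gt_mem_nhds h8)
  have e2 := (Metric.tendsto_nhds.1 hp.ha) _ h8
  have e3 := (Metric.tendsto_nhds.1 hp.hm) _ h8
  have e4 := (Metric.tendsto_nhds.1 hp.hb) _ h8
  have e5 := (Metric.tendstoUniformlyOn_iff.1 (h.unif t)) _ h8
  filter_upwards [e1, e2, e3, e4, e5] with n h1 h2 h3 h4 h5
  rw [Real.dist_eq] at h2 h3 h4
  exact ⟨h1, h2, h3, h4, h5⟩

theorem re_zz (δ : ℝ) (s : (ℤ × ℤ) × Fin 4) : (zz δ s).re = δ * (rightCol s : ℝ) := by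
  unfold zz rightCol
  push_cast
  rfl

theorem im_zz (δ : ℝ) (s : (ℤ × ℤ) × Fin 4) : (zz δ s).im = δ * (ht s : ℝ) := by
  unfold zz ht
  push_cast
  rfl

theorem re_lt {z w : ℂ} {r : ℝ} (h : dist z w < r) : |z.re - w.re| < r := by
  rw [← Complex.sub_re]
  rw [Complex.dist_eq] at h
  exact (Complex.abs_re_le_norm _).trans_lt h

theorem not_bank {δ : ℝ} (hδ : 0 < δ) {m : ℕ} {γ η : ℝ} (hm : |δ * m - γ| < η / 8) {z : ℂ}
    {s : (ℤ × ℤ) × Fin 4} (hz : dist z (zz δ s) < η / 8)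
    (hb : ∀ w, OnBank γ w → η ≤ dist z w) : ¬ RightBank m s.1 := by
  rintro ⟨h1, h2⟩
  have hw : OnBank γ ⟨γ, (zz δ s).im⟩ := by
    refine ⟨rfl, ?_⟩
    show 0 ≤ (zz δ s).im
    rw [im_zz]
    have : (0:ℝ) ≤ (ht s : ℝ) := by exact_mod_cast h2
    positivity
  have h3 := hb _ hw
  have h4 : dist (zz δ s) ⟨γ, (zz δ s).im⟩ = |δ * m - γ| := by
    rw [Complex.dist_of_im_eq (z := zz δ s) (w := ⟨γ, (zz δ s).im⟩) rfl, re_zz, Real.dist_eq]
    congr 2
    congr 1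
    exact_mod_cast h1
  have h5 := dist_triangle z (zz δ s) ⟨γ, (zz δ s).im⟩
  rw [h4] at h5
  have h6 : 0 < η := by
    have := abs_nonneg (δ * m - γ)
    linarith
  linarith

end L23

open L23

theorem t_L2 : S_L2 := by
  intro δ a m b α α' γ β ω k Γ hα' hαα hγ hβ hp h hHit
  obtain ⟨t, ht, htl, hs⟩ := hHit
  obtain ⟨η₁, hη₁, hb⟩ := dist_bank ht h.cont (fun s hs' => (hs s hs').1)
  obtain ⟨η₂, hη₂, hr⟩ := pos_min ht (f := fun s => γ + β - (Γ s).re)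
    (continuousOn_const.sub (Complex.continuous_re.comp_continuousOn (h.cont.mono fun s hs => hs.1)))
    (fun s hs' => sub_pos.2 (hs s hs').2)
  set η : ℝ := min (min η₁ η₂) (α - α') with hη
  have hη0 : 0 < η := lt_min (lt_min hη₁ hη₂) (by linarith)
  have hη1 : η ≤ η₁ := (min_le_left _ _).trans (min_le_left _ _)
  have hη2 : η ≤ η₂ := (min_le_left _ _).trans (min_le_right _ _)
  have hη3 : η ≤ α - α' := min_le_right _ _
  filter_upwards [evt hp h t hη0] with n ⟨g1, g2, g3, g4, g5⟩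
  have hδ := hp.pos n
  rw [abs_lt] at g2 g4
  have g3' := abs_lt.1 g3
  refine ⟨k n t, ?_, fun j hj => ?_⟩
  · have c1 := abs_lt.1 (re_lt (g5 t ⟨ht, le_rfl⟩))
    rw [re_zz] at c1
    have c2 : (leftCol (path (m n) (ω n) (k n t)) : ℝ) ≤
        rightCol (path (m n) (ω n) (k n t)) + 1 := by
      exact_mod_cast (lc _).1
    have c3 : δ n * (leftCol (path (m n) (ω n) (k n t)) : ℝ) < δ n * (-(a n : ℝ)) := by
      have := mul_le_mul_of_nonneg_left c2 hδ.le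
      linarith
    have c4 := lt_of_mul_lt_mul_left c3 hδ.le
    have : leftCol (path (m n) (ω n) (k n t)) < -(a n : ℤ) := by exact_mod_cast c4
    exact this.le
  · obtain ⟨s, hs', rfl⟩ := ex_s h ht hj
    have c0 := g5 s hs'
    refine ⟨not_bank hδ g3 c0 (fun w hw => hη1.trans (hb s hs' w hw)), ?_⟩
    have c1 := abs_lt.1 (re_lt c0)
    rw [re_zz] at c1
    have c2 := hr s hs'
    have c3 : δ n * (rightCol (path (m n) (ω n) (k n s)) : ℝ) < δ n * ((m n : ℝ) + b n) := by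
      rw [mul_add]
      linarith
    have c4 := lt_of_mul_lt_mul_left c3 hδ.le
    exact_mod_cast c4

theorem t_L3 : S_L3 := by
  intro δ a m b α γ β β' ω k Γ hα hγ hβ' hββ hp h hHit
  obtain ⟨t, ht, htl, hs⟩ := hHit
  obtain ⟨η₁, hη₁, hb⟩ := dist_bank ht h.cont (fun s hs' => (hs s hs').1)
  obtain ⟨η₂, hη₂, hr⟩ := pos_min ht (f := fun s => (Γ s).re + α)
    ((Complex.continuous_re.comp_continuousOn (h.cont.mono fun s hs => hs.1)).add
      continuousOn_const)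
    (fun s hs' => by have := (hs s hs').2; linarith)
  set η : ℝ := min (min η₁ η₂) (β - β') with hη
  have hη0 : 0 < η := lt_min (lt_min hη₁ hη₂) (by linarith)
  have hη1 : η ≤ η₁ := (min_le_left _ _).trans (min_le_left _ _)
  have hη2 : η ≤ η₂ := (min_le_left _ _).trans (min_le_right _ _)
  have hη3 : η ≤ β - β' := min_le_right _ _
  filter_upwards [evt hp h t hη0] with n ⟨g1, g2, g3, g4, g5⟩
  have hδ := hp.pos n
  rw [abs_lt] at g2 g4
  have g3' := abs_lt.1 g3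
  refine ⟨k n t, ?_, fun j hj => ?_⟩
  · have c1 := abs_lt.1 (re_lt (g5 t ⟨ht, le_rfl⟩))
    rw [re_zz] at c1
    have c3 : δ n * ((m n : ℝ) + b n) < δ n * (rightCol (path (m n) (ω n) (k n t)) : ℝ) := by
      rw [mul_add]
      linarith
    have c4 := lt_of_mul_lt_mul_left c3 hδ.le
    have : (m n : ℤ) + b n < rightCol (path (m n) (ω n) (k n t)) := by exact_mod_cast c4
    exact this.le
  · obtain ⟨s, hs', rfl⟩ := ex_s h ht hj
    have c0 := g5 s hs'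
    refine ⟨?_, not_bank hδ g3 c0 (fun w hw => hη1.trans (hb s hs' w hw))⟩
    have c1 := abs_lt.1 (re_lt c0)
    rw [re_zz] at c1
    have c2 := hr s hs'
    have c5 : (rightCol (path (m n) (ω n) (k n s)) : ℝ) - 1 ≤
        leftCol (path (m n) (ω n) (k n s)) := by
      exact_mod_cast (lc _).2
    have c3 : δ n * (-(a n : ℝ)) < δ n * (leftCol (path (m n) (ω n) (k n s)) : ℝ) := by
      have := mul_le_mul_of_nonneg_left c5 hδ.le
      linarith
    have c4 := lt_of_mul_lt_mul_left c3 hδ.le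
    exact_mod_cast c4

end Pool.Agent.H966.EX
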