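import Pool.Agent.H966.EX.Defs

/-!
Task EX-L4 (helper333): a limit curve which never leaves the window goes far before it leaves it.
-/

namespace Pool.Agent.H966.EX

open Pool.Agent.H988R2.Perc hiding X
open Pool.Agent.H966.TX
open MeasureTheory Filter Topology Set

namespace L4

/-- the closed set of the three exits -/
def CC (α γ β : ℝ) : Set ℂ := {w | w.re ≤ -α} ∪ ({w | γ + β ≤ w.re} ∪ {w | w.re = γ ∧ 0 ≤ w.im})

theorem isClosed_CC (α γ β : ℝ) : IsClosed (CC α γ β) := by
  refine IsClosed.union ?_ (IsClosed.union ?_ ?_)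
  · exact isClosed_le Complex.continuous_re continuous_const
  · exact isClosed_le continuous_const Complex.continuous_re
  · exact (isClosed_eq Complex.continuous_re continuous_const).inter
      (isClosed_le continuous_const Complex.continuous_im)

/-- a curve with none of the three exits never visits the closed set -/
theorem never {α γ β : ℝ} {Γ : ℝ → ℂ} (hα : 0 < α) (hγ : 0 < γ) (hβ : 0 < β)
    (hc : ContinuousOn Γ (Ici 0)) (h1 : ¬ HitBank α γ β Γ) (h2 : ¬ HitLeft α γ β Γ)
    (h3 : ¬ HitRight α γ β Γ) : ∀ t, 0 ≤ t → Γ t ∉ CC α γ β := by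
  intro t₁ ht₁ hmem
  have hcl : IsClosed (Icc 0 t₁ ∩ Γ ⁻¹' CC α γ β) :=
    (hc.mono (fun x hx => hx.1)).preimage_isClosed_of_isClosed isClosed_Icc (isClosed_CC α γ β)
  have hcomp : IsCompact (Icc 0 t₁ ∩ Γ ⁻¹' CC α γ β) :=
    isCompact_Icc.of_isClosed_subset hcl inter_subset_left
  obtain ⟨t, ⟨⟨ht0, ht1⟩, htC⟩, hmin⟩ := hcomp.exists_isLeast ⟨t₁, ⟨ht₁, le_rfl⟩, hmem⟩
  have hbefore : ∀ s, 0 ≤ s → s < t → Γ s ∉ CC α γ β := by
    intro s hs0 hst hsC
    exact absurd (hmin ⟨⟨hs0, hst.le.trans ht1⟩, hsC⟩) (not_le.2 hst)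
  have hb1 : ∀ s, 0 ≤ s → s < t → -α < (Γ s).re := by
    intro s hs0 hst
    by_contra hcon
    exact hbefore s hs0 hst (Or.inl (not_lt.1 hcon))
  have hb2 : ∀ s, 0 ≤ s → s < t → (Γ s).re < γ + β := by
    intro s hs0 hst
    by_contra hcon
    exact hbefore s hs0 hst (Or.inr (Or.inl (not_lt.1 hcon)))
  have hb3 : ∀ s, 0 ≤ s → s < t → ¬ OnBank γ (Γ s) := by
    intro s hs0 hst hcon
    exact hbefore s hs0 hst (Or.inr (Or.inr hcon))
  rcases htC with h | h | h
  · have h' : (Γ t).re ≤ -α := h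
    refine h2 ⟨t, ht0, h', fun s hs => ?_⟩
    rcases hs.2.lt_or_eq with hst | hst
    · exact ⟨hb3 s hs.1 hst, hb2 s hs.1 hst⟩
    · rw [hst]
      refine ⟨fun hcon => ?_, by linarith⟩
      have := hcon.1
      linarith
  · have h' : γ + β ≤ (Γ t).re := h
    refine h3 ⟨t, ht0, h', fun s hs => ?_⟩
    rcases hs.2.lt_or_eq with hst | hst
    · exact ⟨hb3 s hs.1 hst, hb1 s hs.1 hst⟩
    · rw [hst]
      refine ⟨fun hcon => ?_, by linarith⟩
      have := hcon.1
      linarith
  · have h' : (Γ t).re = γ ∧ 0 ≤ (Γ t).im := h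
    refine h1 ⟨t, ht0, h', fun s hs => ?_⟩
    rcases hs.2.lt_or_eq with hst | hst
    · exact ⟨hb1 s hs.1 hst, hb2 s hs.1 hst⟩
    · rw [hst, h'.1]
      exact ⟨by linarith, by linarith⟩

theorem leftCol_ge (s : (ℤ × ℤ) × Fin 4) : rightCol s - 1 ≤ leftCol s := by
  obtain ⟨v, d⟩ := s
  unfold rightCol leftCol
  fin_cases d <;> simp
  omega

end L4

theorem t_L4 : S_L4 := by
  intro δ a m b H α γ β M ω k Γ hα hγ hβ hPar hConv hM h1 h2 h3
  have hnev := L4.never hα hγ hβ hConv.cont h1 h2 h3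
  have hre1 : ∀ t, 0 ≤ t → -α < (Γ t).re := by
    intro t ht
    by_contra hcon
    exact hnev t ht (Or.inl (not_lt.1 hcon))
  have hre2 : ∀ t, 0 ≤ t → (Γ t).re < γ + β := by
    intro t ht
    by_contra hcon
    exact hnev t ht (Or.inr (Or.inl (not_lt.1 hcon)))
  -- a time with a large imaginary part
  obtain ⟨t, ht0, hunb⟩ := hConv.unb (α + γ + β + M + 1)
  have him : M + 1 ≤ |(Γ t).im| := by
    have e1 := Complex.norm_le_abs_re_add_abs_im (Γ t)
    have e2 : |(Γ t).re| ≤ α + γ + β := by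
      rw [abs_le]
      constructor
      · linarith [hre1 t ht0]
      · linarith [hre2 t ht0]
    linarith
  -- the distance to the closed set
  have hK : IsCompact (Γ '' Icc 0 t) :=
    isCompact_Icc.image_of_continuousOn (hConv.cont.mono fun x hx => hx.1)
  obtain ⟨η, hη, hthick⟩ := hK.exists_thickening_subset_open (L4.isClosed_CC α γ β).isOpen_compl
    (by
      rintro _ ⟨s, hs, rfl⟩
      exact hnev s hs.1)
  have hfar : ∀ s ∈ Icc 0 t, ∀ w : ℂ, dist w (Γ s) < η → w ∉ L4.CC α γ β := by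
    intro s hs w hw
    exact hthick (Metric.mem_thickening_iff.2 ⟨Γ s, ⟨s, hs, rfl⟩, hw⟩)
  -- large `n`
  have e1 := Metric.tendstoUniformlyOn_iff.1 (hConv.unif t) (min (η / 2) 1)
    (lt_min (by positivity) one_pos)
  have e2 : ∀ᶠ n in atTop, δ n < η / 8 := hPar.lim.eventually_lt_const (by positivity)
  have e3 : ∀ᶠ n in atTop, dist (δ n * a n) α < η / 8 :=
    Metric.tendsto_nhds.1 hPar.ha (η / 8) (by positivity)
  have e4 : ∀ᶠ n in atTop, dist (δ n * m n) γ < η / 8 :=
    Metric.tendsto_nhds.1 hPar.hm (η / 8) (by positivity)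
  have e5 : ∀ᶠ n in atTop, dist (δ n * b n) β < η / 8 :=
    Metric.tendsto_nhds.1 hPar.hb (η / 8) (by positivity)
  filter_upwards [e1, e2, e3, e4, e5] with n e1 e2 e3 e4 e5
  have hδ := hPar.pos n
  rw [Real.dist_eq, abs_lt] at e3 e4 e5
  -- points near the path
  have hnear : ∀ s ∈ Icc 0 t, ∀ w : ℂ,
      dist w (zz (δ n) (path (m n) (ω n) (k n s))) < η / 2 → w ∉ L4.CC α γ β := by
    intro s hs w hw
    refine hfar s hs w ?_
    have f1 := (e1 s hs).trans_le (min_le_left _ _)
    have f2 := dist_triangle w (zz (δ n) (path (m n) (ω n) (k n s))) (Γ s)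
    rw [dist_comm (zz (δ n) (path (m n) (ω n) (k n s))) (Γ s)] at f2
    linarith
  refine ⟨k n t, ?_, fun j hj => ?_⟩
  · -- the height
    have f1 := (e1 t ⟨ht0, le_rfl⟩).trans_le (min_le_right _ _)
    rw [Complex.dist_eq] at f1
    have f2 := Complex.abs_im_le_norm (Γ t - zz (δ n) (path (m n) (ω n) (k n t)))
    rw [Complex.sub_im] at f2
    have f3 : (zz (δ n) (path (m n) (ω n) (k n t))).im =
        δ n * ((ht (path (m n) (ω n) (k n t)) : ℤ) : ℝ) := by
      unfold zz ht
      push_cast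
      ring
    have f4 : M ≤ |(zz (δ n) (path (m n) (ω n) (k n t))).im| := by
      have f5 := abs_sub_abs_le_abs_sub (Γ t).im (zz (δ n) (path (m n) (ω n) (k n t))).im
      linarith
    rw [f3, abs_mul, abs_of_pos hδ] at f4
    have f6 : δ n * (H n : ℝ) ≤ δ n * |((ht (path (m n) (ω n) (k n t)) : ℤ) : ℝ)| :=
      (hM n).trans f4
    have f7 := le_of_mul_le_mul_left f6 hδ
    exact_mod_cast f7
  · -- the path is free
    obtain ⟨s, hs0, hs⟩ : ∃ s, s ∈ Icc 0 t ∧ k n s = j := by
      obtain ⟨s, hs0, hs⟩ := hConv.surj n j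
      rcases le_or_gt s t with hst | hst
      · exact ⟨s, ⟨hs0, hst⟩, hs⟩
      · refine ⟨t, ⟨ht0, le_rfl⟩, le_antisymm ?_ hj⟩
        rw [← hs]
        exact hConv.mono n t s ht0 hst.le
    have g := hnear s hs0
    rw [hs] at g
    set st := path (m n) (ω n) j with hst
    have gre : (zz (δ n) st).re = δ n * ((rightCol st : ℤ) : ℝ) := by
      unfold zz rightCol
      push_cast
      ring
    have gim : (zz (δ n) st).im = δ n * ((ht st : ℤ) : ℝ) := by
      unfold zz ht
      push_cast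
      ring
    refine ⟨fun hb => ?_, ?_, ?_⟩
    · -- right bank
      have hb1 : rightCol st = m n := hb.1
      have hb2 : 0 ≤ ht st := hb.2
      refine g ⟨γ, (zz (δ n) st).im⟩ ?_ (Or.inr (Or.inr ⟨rfl, ?_⟩))
      · rw [Complex.dist_eq]
        refine (Complex.norm_le_abs_re_add_abs_im _).trans_lt ?_
        rw [Complex.sub_re, Complex.sub_im, sub_self, abs_zero, add_zero, gre, hb1]
        push_cast
        rw [abs_lt]
        constructor <;> linarith
      · show 0 ≤ (zz (δ n) st).im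
        rw [gim]
        have : (0 : ℝ) ≤ ((ht st : ℤ) : ℝ) := by exact_mod_cast hb2
        positivity
    · -- left line
      by_contra hcon
      have hl := L4.leftCol_ge st
      have hr : rightCol st ≤ -(a n : ℤ) + 1 := by omega
      have hr' : ((rightCol st : ℤ) : ℝ) ≤ -(a n : ℝ) + 1 := by exact_mod_cast hr
      have hr2 : δ n * ((rightCol st : ℤ) : ℝ) ≤ δ n * (-(a n : ℝ) + 1) :=
        mul_le_mul_of_nonneg_left hr' hδ.le
      refine g ⟨(zz (δ n) st).re - η / 4, (zz (δ n) st).im⟩ ?_ (Or.inl ?_)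
      · rw [Complex.dist_eq]
        refine (Complex.norm_le_abs_re_add_abs_im _).trans_lt ?_
        rw [Complex.sub_re, Complex.sub_im, sub_self, abs_zero, add_zero]
        rw [abs_lt]
        constructor <;> simp only <;> linarith
      · show (zz (δ n) st).re - η / 4 ≤ -α
        rw [gre]
        nlinarith
    · -- right line
      by_contra hcon
      have hr : (m n : ℤ) + b n ≤ rightCol st := not_lt.1 hcon
      have hr' : (m n : ℝ) + b n ≤ ((rightCol st : ℤ) : ℝ) := by exact_mod_cast hr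
      have hr2 : δ n * ((m n : ℝ) + b n) ≤ δ n * ((rightCol st : ℤ) : ℝ) :=
        mul_le_mul_of_nonneg_left hr' hδ.le
      refine g ⟨(zz (δ n) st).re + η / 4, (zz (δ n) st).im⟩ ?_ (Or.inr (Or.inl ?_))
      · rw [Complex.dist_eq]
        refine (Complex.norm_le_abs_re_add_abs_im _).trans_lt ?_
        rw [Complex.sub_re, Complex.sub_im, sub_self, abs_zero, add_zero]
        rw [abs_lt]
        constructor <;> simp only <;> linarith
      · show γ + β ≤ (zz (δ n) st).re + η / 4
        rw [gre]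
        nlinarith

end Pool.Agent.H966.EX
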