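import Pool.Agent.H966.EX.Val

/-!
The exit law of every scaling limit of the exploration path at a thick slit (helper966).
-/

namespace Pool.Agent.H966.EX

open Pool.Agent.H988R2.Perc hiding X
open Pool.Agent.H966.TX
open MeasureTheory Filter Topology Set

/-! ## lattice parameters of given macroscopic size -/

theorem mesh_floor {δ : ℕ → ℝ} (hδ : ∀ n, 0 < δ n) (hδ0 : Tendsto δ atTop (𝓝 0)) {c : ℝ}
    (hc : 0 ≤ c) : Tendsto (fun n => δ n * (⌊c / δ n⌋₊ : ℝ)) atTop (𝓝 c) := by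
  have h1 : Tendsto (fun n => c - δ n) atTop (𝓝 c) := by
    simpa using (tendsto_const_nhds (x := c)).sub hδ0
  refine tendsto_of_tendsto_of_tendsto_of_le_of_le h1 tendsto_const_nhds (fun n => ?_)
    (fun n => ?_)
  · have h2 := Nat.lt_floor_add_one (c / δ n)
    rw [div_lt_iff₀ (hδ n)] at h2
    have := hδ n
    show c - δ n ≤ δ n * (⌊c / δ n⌋₊ : ℝ)
    nlinarith
  · have h2 := Nat.floor_le (a := c / δ n) (by have := hδ n; positivity)
    rw [le_div_iff₀ (hδ n)] at h2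
    show δ n * (⌊c / δ n⌋₊ : ℝ) ≤ c
    nlinarith

theorem mesh_ceil {δ : ℕ → ℝ} (hδ : ∀ n, 0 < δ n) (hδ0 : Tendsto δ atTop (𝓝 0)) {c : ℝ}
    (hc : 0 ≤ c) : (∀ n, c ≤ δ n * (⌈c / δ n⌉₊ : ℝ)) ∧
      Tendsto (fun n => δ n * (⌈c / δ n⌉₊ : ℝ)) atTop (𝓝 c) := by
  have h0 : ∀ n, c ≤ δ n * (⌈c / δ n⌉₊ : ℝ) := by
    intro n
    have h2 := Nat.le_ceil (c / δ n)
    rw [div_le_iff₀ (hδ n)] at h2
    linarith
  refine ⟨h0, ?_⟩
  have h1 : Tendsto (fun n => c + δ n) atTop (𝓝 c) := by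
    simpa using (tendsto_const_nhds (x := c)).add hδ0
  refine tendsto_of_tendsto_of_tendsto_of_le_of_le tendsto_const_nhds h1 h0 (fun n => ?_)
  have h2 := Nat.ceil_lt_add_one (a := c / δ n) (by have := hδ n; positivity)
  have h3 : (⌈c / δ n⌉₊ : ℝ) * δ n < c + δ n := by
    have := mul_lt_mul_of_pos_right h2 (hδ n)
    rwa [add_mul, div_mul_cancel₀ _ (hδ n).ne', one_mul] at this
  show δ n * (⌈c / δ n⌉₊ : ℝ) ≤ c + δ n
  linarith

section

variable {Ω : Type} [MeasurableSpace Ω] {P : Measure Ω} [IsProbabilityMeasure P]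

/-- Fatou for sets with an eventual bound -/
theorem fatou (E : Set Ω) (A : ℕ → Set Ω) (v : ℝ) (u : ℕ → ℝ) (hA : ∀ n, MeasurableSet (A n))
    (hE : ∀ᵐ p ∂P, p ∈ E → ∀ᶠ n in atTop, p ∈ A n) (hu : ∀ᶠ n in atTop, P.real (A n) ≤ u n)
    (hv : Tendsto u atTop (𝓝 v)) : P.real E ≤ v := by
  classical
  refine t_P1 P E A v (fun n => if P.real (A n) ≤ u n then u n else 1) hA hE (fun n => ?_) ?_
  · show P.real (A n) ≤ if P.real (A n) ≤ u n then u n else 1
    split_ifs with h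
    · exact h
    · exact measureReal_le_one
  · refine hv.congr' ?_
    filter_upwards [hu] with n hn
    rw [if_pos hn]

theorem prob_eq {W : Ω → Conf} (hW : Measurable W) (hP : P.map W = perc) {S : Set Conf}
    (hS : MeasurableSet S) : P.real (W ⁻¹' S) = perc.real S := by
  rw [← hP, measureReal_def, measureReal_def, Measure.map_apply hW hS]

variable {γ : ℝ} {Γ : Ω → ℝ → ℂ}

theorem upper_left (hγ : 0 < γ) (hL : Limit γ P Γ) {α α' β : ℝ} (h0 : 0 < α') (hα : α' < α)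
    (hβ : 0 < β) : P.real {p | HitLeft α γ β (Γ p)} ≤ 1 - vU α' γ β := by
  obtain ⟨δ, m, W, k, hδ, hδ0, hm, hW, hP, hC⟩ := hL
  have hpar : Par δ (fun n => ⌊α' / δ n⌋₊) m (fun n => ⌊β / δ n⌋₊) α' γ β :=
    ⟨hδ, hδ0, mesh_floor hδ hδ0 h0.le, hm, mesh_floor hδ hδ0 hβ.le⟩
  refine fatou (P := P) _ (fun n => W n ⁻¹' ExitLeft ⌊α' / δ n⌋₊ (m n) ⌊β / δ n⌋₊) _
    (fun n => perc.real (ExitLeft ⌊α' / δ n⌋₊ (m n) ⌊β / δ n⌋₊))
    (fun n => hW n (meas_left _ _ _)) ?_
    (Eventually.of_forall fun n => (prob_eq (hW n) (hP n) (meas_left _ _ _)).le)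
    (lim_left h0 hγ hβ hpar)
  filter_upwards [hC] with p hp hE
  exact t_L2 δ _ m _ α α' γ β (fun n => W n p) (fun n => k n p) (Γ p) h0 hα hγ hβ hpar hp hE

theorem upper_right (hγ : 0 < γ) (hL : Limit γ P Γ) {α β β' : ℝ} (hα : 0 < α) (h0 : 0 < β')
    (hβ : β' < β) : P.real {p | HitRight α γ β (Γ p)} ≤ vU α γ β' - vB α γ β' := by
  obtain ⟨δ, m, W, k, hδ, hδ0, hm, hW, hP, hC⟩ := hL
  have hpar : Par δ (fun n => ⌊α / δ n⌋₊) m (fun n => ⌊β' / δ n⌋₊) α γ β' :=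
    ⟨hδ, hδ0, mesh_floor hδ hδ0 hα.le, hm, mesh_floor hδ hδ0 h0.le⟩
  refine fatou (P := P) _ (fun n => W n ⁻¹' ExitRight ⌊α / δ n⌋₊ (m n) ⌊β' / δ n⌋₊) _
    (fun n => perc.real (ExitRight ⌊α / δ n⌋₊ (m n) ⌊β' / δ n⌋₊))
    (fun n => hW n (meas_right _ _ _)) ?_
    (Eventually.of_forall fun n => (prob_eq (hW n) (hP n) (meas_right _ _ _)).le)
    (lim_right hα hγ h0 hpar)
  filter_upwards [hC] with p hp hE
  exact t_L3 δ _ m _ α γ β β' (fun n => W n p) (fun n => k n p) (Γ p) hα hγ h0 hβ hpar hp hE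

theorem upper_bank_aux (hγ : 0 < γ) (hL : Limit γ P Γ) {α β : ℝ} (hα : 0 < α) (hβ : 0 < β)
    {η : ℝ} (hη : 0 < η) : ∃ ε0 : ℝ, 0 < ε0 ∧ ∀ ε, 0 < ε → ε < ε0 →
      P.real {p | HitBank α γ β (Γ p)} ≤ vB α (γ + ε) (β - ε) + η := by
  obtain ⟨ε1, hε1, m0, hco⟩ := t_CO t_AN η hη
  refine ⟨min (min β γ) (ε1 * γ), by positivity, fun ε hε hε2 => ?_⟩
  have e1 : ε < β := lt_of_lt_of_le hε2 ((min_le_left _ _).trans (min_le_left _ _))
  have e2 : ε < γ := lt_of_lt_of_le hε2 ((min_le_left _ _).trans (min_le_right _ _))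
  have e3 : ε < ε1 * γ := lt_of_lt_of_le hε2 (min_le_right _ _)
  obtain ⟨δ, m, W, k, hδ, hδ0, hm, hW, hP, hC⟩ := hL
  obtain ⟨c1, c2⟩ := mesh_ceil hδ hδ0 hε.le
  have hpar : Par δ (fun n => ⌊α / δ n⌋₊) m (fun n => ⌊β / δ n⌋₊) α γ β :=
    ⟨hδ, hδ0, mesh_floor hδ hδ0 hα.le, hm, mesh_floor hδ hδ0 hβ.le⟩
  -- `e < b`, `e < m`
  have hlt : ∀ {c : ℝ} {l : ℕ → ℕ}, ε < c → Tendsto (fun n => δ n * (l n : ℝ)) atTop (𝓝 c) →
      ∀ᶠ n in atTop, ⌈ε / δ n⌉₊ < l n := by
    intro c l hc hl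
    filter_upwards [c2.eventually_lt hl hc] with n hn
    have := lt_of_mul_lt_mul_left hn (hδ n).le
    exact_mod_cast this
  have hb1 := hlt e1 hpar.hb
  have hm1 := hlt e2 hpar.hm
  have hpar' : Par δ (fun n => ⌊α / δ n⌋₊) (fun n => m n + ⌈ε / δ n⌉₊)
      (fun n => ⌊β / δ n⌋₊ - ⌈ε / δ n⌉₊) α (γ + ε) (β - ε) := by
    refine ⟨hδ, hδ0, hpar.ha, ?_, ?_⟩
    · refine (hpar.hm.add c2).congr fun n => ?_
      push_cast
      ring
    · refine (hpar.hb.sub c2).congr' ?_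
      filter_upwards [hb1] with n hn
      rw [Nat.cast_sub hn.le]
      ring
  have hsmall : ∀ᶠ n in atTop, ((⌈ε / δ n⌉₊ : ℕ) : ℝ) ≤ ε1 * m n := by
    have h1 : Tendsto (fun n => ε1 * (δ n * (m n : ℝ))) atTop (𝓝 (ε1 * γ)) := hm.const_mul ε1
    filter_upwards [c2.eventually_lt h1 e3] with n hn
    have h2 : ε1 * (δ n * (m n : ℝ)) = δ n * (ε1 * m n) := by ring
    rw [h2] at hn
    exact (lt_of_mul_lt_mul_left hn (hδ n).le).le
  have hm0 : ∀ᶠ n in atTop, m0 ≤ m n := ev_ge hδ hδ0 hγ hm m0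
  refine fatou (P := P) _ (fun n => W n ⁻¹'
    NearBank ⌊α / δ n⌋₊ (m n) ⌊β / δ n⌋₊ ⌈ε / δ n⌉₊) _
    (fun n => perc.real (ExitBank ⌊α / δ n⌋₊ (m n + ⌈ε / δ n⌉₊) (⌊β / δ n⌋₊ - ⌈ε / δ n⌉₊)) + η)
    (fun n => hW n (meas_near _ _ _ _)) ?_ ?_
    ((lim_bank hα (by positivity) (by linarith) hpar').add_const η)
  · filter_upwards [hC] with p hp hE
    exact t_L1 δ _ m _ _ α γ β ε (fun n => W n p) (fun n => k n p) (Γ p) hα hγ hβ hε hpar hp c1 hE
  · filter_upwards [hb1, hm1, hsmall, hm0, ev_ge hδ hδ0 hα hpar.ha 1, ev_ge hδ hδ0 hγ hm 1,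
      ev_ge hδ hδ0 hβ hpar.hb 1] with n g1 g2 g3 g4 g5 g6 g7
    rw [prob_eq (hW n) (hP n) (meas_near _ _ _ _)]
    exact (measureReal_mono (t_NB _ _ _ _ g5 g6 g7 g1 g2)).trans
      ((measureReal_union_le _ _).trans (by
        have := hco (m n) _ g4 g3
        linarith))

theorem upper_bank (hγ : 0 < γ) (hL : Limit γ P Γ) {α β : ℝ} (hα : 0 < α) (hβ : 0 < β) :
    P.real {p | HitBank α γ β (Γ p)} ≤ vB α γ β := by
  refine le_of_forall_pos_le_add fun η hη => ?_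
  obtain ⟨ε0, hε0, h⟩ := upper_bank_aux hγ hL hα hβ (half_pos hη)
  have hc : ContinuousAt (fun s : ℝ => vB α (γ + s) (β - s)) 0 := by
    refine cont_vB continuousAt_const (continuousAt_const.add continuousAt_id)
      (continuousAt_const.sub continuousAt_id) hα ?_ ?_
    · show 0 < γ + 0
      linarith
    · show 0 < β - 0
      linarith
  have h1 : ∀ᶠ s in 𝓝[>] (0:ℝ), vB α (γ + s) (β - s) < vB α γ β + η/2 := by
    have h2 := hc.tendsto.mono_left (nhdsWithin_le_nhds (s := Ioi (0:ℝ)))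
    simp only [add_zero, sub_zero] at h2
    exact h2.eventually_lt_const (by linarith)
  have h3 : ∀ᶠ s in 𝓝[>] (0:ℝ), s < ε0 :=
    (tendsto_id.mono_left nhdsWithin_le_nhds).eventually_lt_const hε0
  have h4 : ∀ᶠ s in 𝓝[>] (0:ℝ), 0 < s := eventually_mem_nhdsWithin
  obtain ⟨s, h5, h6, h7⟩ := (h1.and (h3.and h4)).exists
  have := h s h7 h6
  linarith

theorem upper_left' (hγ : 0 < γ) (hL : Limit γ P Γ) {α β : ℝ} (hα : 0 < α) (hβ : 0 < β) :
    P.real {p | HitLeft α γ β (Γ p)} ≤ 1 - vU α γ β := by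
  have hc : ContinuousAt (fun s : ℝ => 1 - vU s γ β) α :=
    continuousAt_const.sub (cont_vU continuousAt_id continuousAt_const continuousAt_const hα hγ hβ)
  have h2 := hc.tendsto.mono_left (nhdsWithin_le_nhds (s := Iio α))
  refine ge_of_tendsto h2 ?_
  have h3 : ∀ᶠ s in 𝓝[<] α, 0 < s :=
    (tendsto_id.mono_left nhdsWithin_le_nhds).eventually_const_lt hα
  have h4 : ∀ᶠ s in 𝓝[<] α, s < α := eventually_mem_nhdsWithin
  filter_upwards [h3, h4] with s h5 h6
  exact upper_left hγ hL h5 h6 hβ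

theorem upper_right' (hγ : 0 < γ) (hL : Limit γ P Γ) {α β : ℝ} (hα : 0 < α) (hβ : 0 < β) :
    P.real {p | HitRight α γ β (Γ p)} ≤ vU α γ β - vB α γ β := by
  have hc : ContinuousAt (fun s : ℝ => vU α γ s - vB α γ s) β :=
    (cont_vU continuousAt_const continuousAt_const continuousAt_id hα hγ hβ).sub
      (cont_vB continuousAt_const continuousAt_const continuousAt_id hα hγ hβ)
  have h2 := hc.tendsto.mono_left (nhdsWithin_le_nhds (s := Iio β))
  refine ge_of_tendsto h2 ?_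
  have h3 : ∀ᶠ s in 𝓝[<] β, 0 < s :=
    (tendsto_id.mono_left nhdsWithin_le_nhds).eventually_const_lt hβ
  have h4 : ∀ᶠ s in 𝓝[<] β, s < β := eventually_mem_nhdsWithin
  filter_upwards [h3, h4] with s h5 h6
  exact upper_right hγ hL hα h5 h6

/-- a limit curve leaves the window -/
theorem none_zero (hγ : 0 < γ) (hL : Limit γ P Γ) {α β : ℝ} (hα : 0 < α) (hβ : 0 < β) :
    P.real {p | ¬ HitBank α γ β (Γ p) ∧ ¬ HitLeft α γ β (Γ p) ∧ ¬ HitRight α γ β (Γ p)} ≤ 0 := by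
  have key : ∀ j : ℕ, P.real {p | ¬ HitBank α γ β (Γ p) ∧ ¬ HitLeft α γ β (Γ p) ∧
      ¬ HitRight α γ β (Γ p)} ≤ 2 * (1 - (1/2 : ℝ)^188)^j := by
    intro j
    obtain ⟨δ, m, W, k, hδ, hδ0, hm, hW, hP, hC⟩ := hL
    have hpar : Par δ (fun n => ⌊α / δ n⌋₊) m (fun n => ⌊β / δ n⌋₊) α γ β :=
      ⟨hδ, hδ0, mesh_floor hδ hδ0 hα.le, hm, mesh_floor hδ hδ0 hβ.le⟩
    have hH : Tendsto (fun n => δ n *
        ((100 * (⌊α / δ n⌋₊ + m n + ⌊β / δ n⌋₊) * j + 2 : ℕ) : ℝ)) atTop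
        (𝓝 (100 * (α + γ + β) * j + 0 * 2)) := by
      refine ((((hpar.ha.add hpar.hm).add hpar.hb).const_mul 100).mul_const (j:ℝ) |>.add
        (hδ0.mul_const 2)).congr fun n => ?_
      push_cast
      ring
    obtain ⟨M, hM⟩ := hH.bddAbove_range
    refine fatou (P := P) _ (fun n => W n ⁻¹' Far ⌊α / δ n⌋₊ (m n) ⌊β / δ n⌋₊
      (100 * (⌊α / δ n⌋₊ + m n + ⌊β / δ n⌋₊) * j + 2)) _
      (fun _ => 2 * (1 - (1/2 : ℝ)^188)^j) (fun n => hW n (meas_far _ _ _ _)) ?_ ?_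
      tendsto_const_nhds
    · filter_upwards [hC] with p hp hE
      exact t_L4 δ _ m _ _ α γ β M (fun n => W n p) (fun n => k n p) (Γ p) hα hγ hβ hpar hp
        (fun n => hM ⟨n, rfl⟩) hE.1 hE.2.1 hE.2.2
    · filter_upwards [ev_ge hδ hδ0 hα hpar.ha 1, ev_ge hδ hδ0 hγ hm 1,
        ev_ge hδ hδ0 hβ hpar.hb 1] with n g5 g6 g7
      rw [prob_eq (hW n) (hP n) (meas_far _ _ _ _)]
      exact t_FA t_FD t_DV _ _ _ j g5 g6 g7
  have h188 : ((1:ℝ)/2)^188 < 1 := pow_lt_one₀ (by norm_num) (by norm_num) (by norm_num)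
  have h188' : (0:ℝ) < (1/2:ℝ)^188 := by positivity
  have ht : Tendsto (fun j : ℕ => 2 * (1 - (1/2 : ℝ)^188)^j) atTop (𝓝 (2 * 0)) :=
    (tendsto_pow_atTop_nhds_zero_of_lt_one (r := 1 - (1/2 : ℝ)^188) (by linarith)
      (by linarith)).const_mul 2
  rw [mul_zero] at ht
  exact ge_of_tendsto ht (Eventually.of_forall key)

/-- a general criterion: a covering by two disjoint sets whose outer measures sum to at most one -/
theorem nullMeas_of_cover {E F : Set Ω} (hd : ∀ p, p ∈ E → p ∉ F)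
    (hc : ∀ᵐ p ∂P, p ∈ E ∪ F) (hs : P.real E + P.real F ≤ 1) : NullMeasurableSet E P := by
  have hE := measure_toMeasurable (μ := P) E
  have hF := measure_toMeasurable (μ := P) F
  have mE := measurableSet_toMeasurable P E
  have mF := measurableSet_toMeasurable P F
  have hE' : P.real (toMeasurable P E) = P.real E := by rw [measureReal_def, hE, measureReal_def]
  have hF' : P.real (toMeasurable P F) = P.real F := by rw [measureReal_def, hF, measureReal_def]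
  have hU : P.real (toMeasurable P E ∪ toMeasurable P F) = 1 := by
    have h1 : (toMeasurable P E ∪ toMeasurable P F : Set Ω) =ᵐ[P] univ := by
      refine eventuallyEq_univ.2 ?_
      filter_upwards [hc] with p hp
      exact union_subset_union (subset_toMeasurable P E) (subset_toMeasurable P F) hp
    rw [measureReal_congr h1]
    exact probReal_univ
  have h2 := measureReal_union_add_inter (μ := P) (s := toMeasurable P E) mF
  have h3 : P.real (toMeasurable P E ∩ toMeasurable P F) = 0 := by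
    have := measureReal_nonneg (μ := P) (s := toMeasurable P E ∩ toMeasurable P F)
    linarith
  have h4 : P (toMeasurable P E ∩ toMeasurable P F) = 0 := by
    rwa [measureReal_eq_zero_iff] at h3
  have h5 : E =ᵐ[P] toMeasurable P E := by
    have h6 : ∀ᵐ p ∂P, p ∉ toMeasurable P E ∩ toMeasurable P F := measure_eq_zero_iff_ae_notMem.1 h4
    filter_upwards [hc, h6] with p hp hq
    apply propext
    constructor
    · exact fun h => subset_toMeasurable P E h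
    · intro h
      rcases hp with hp | hp
      · exact hp
      · exact absurd ⟨h, subset_toMeasurable P F hp⟩ hq
  exact mE.nullMeasurableSet.congr h5.symm

/-- the exit law of every scaling limit -/
theorem limit_law (hγ : 0 < γ) (hL : Limit γ P Γ) {α β : ℝ} (hα : 0 < α) (hβ : 0 < β) :
    P.real {p | HitBank α γ β (Γ p)} = vB α γ β ∧
    P.real {p | HitLeft α γ β (Γ p)} = 1 - vU α γ β ∧
    P.real {p | HitRight α γ β (Γ p)} = vU α γ β - vB α γ β := by
  have h1 := upper_bank hγ hL hα hβ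
  have h2 := upper_left' hγ hL hα hβ
  have h3 := upper_right' hγ hL hα hβ
  have h4 := none_zero hγ hL hα hβ
  have h5 : (1:ℝ) ≤ P.real {p | HitBank α γ β (Γ p)} + (P.real {p | HitLeft α γ β (Γ p)} +
      (P.real {p | HitRight α γ β (Γ p)} +
      P.real {p | ¬ HitBank α γ β (Γ p) ∧ ¬ HitLeft α γ β (Γ p) ∧ ¬ HitRight α γ β (Γ p)})) := by
    have hu : (univ : Set Ω) = {p | HitBank α γ β (Γ p)} ∪ ({p | HitLeft α γ β (Γ p)} ∪
        ({p | HitRight α γ β (Γ p)} ∪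
        {p | ¬ HitBank α γ β (Γ p) ∧ ¬ HitLeft α γ β (Γ p) ∧ ¬ HitRight α γ β (Γ p)})) := by
      ext p
      simp only [mem_univ, mem_union, mem_ofPred_eq, true_iff]
      tauto
    have h6 : P.real (univ : Set Ω) = 1 := probReal_univ
    rw [← h6]
    conv_lhs => rw [hu]
    refine (measureReal_union_le _ _).trans (add_le_add le_rfl ?_)
    exact (measureReal_union_le _ _).trans (add_le_add le_rfl (measureReal_union_le _ _))
  refine ⟨by linarith, by linarith, by linarith⟩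

theorem bank_not_left {α β : ℝ} {G : ℝ → ℂ} (hα : 0 < α) (hγ : 0 < γ) (h1 : HitBank α γ β G)
    (h2 : HitLeft α γ β G) : False := by
  obtain ⟨t, ht, hb, hw⟩ := h1
  obtain ⟨t', ht', hb', hw'⟩ := h2
  rcases le_total t t' with h | h
  · exact (hw' t ⟨ht, h⟩).1 hb
  · have := (hw t' ⟨ht', h⟩).1
    linarith

theorem bank_not_right {α β : ℝ} {G : ℝ → ℂ} (h1 : HitBank α γ β G)
    (h2 : HitRight α γ β G) : False := by
  obtain ⟨t, ht, hb, hw⟩ := h1
  obtain ⟨t', ht', hb', hw'⟩ := h2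
  rcases le_total t t' with h | h
  · exact (hw' t ⟨ht, h⟩).1 hb
  · have := (hw t' ⟨ht', h⟩).2
    linarith

theorem left_not_right {α β : ℝ} {G : ℝ → ℂ} (h1 : HitLeft α γ β G)
    (h2 : HitRight α γ β G) : False := by
  obtain ⟨t, ht, hb, hw⟩ := h1
  obtain ⟨t', ht', hb', hw'⟩ := h2
  rcases le_total t t' with h | h
  · have := (hw' t ⟨ht, h⟩).2
    linarith
  · have := (hw t' ⟨ht', h⟩).2
    linarith

theorem ae_hit (hγ : 0 < γ) (hL : Limit γ P Γ) {α β : ℝ} (hα : 0 < α) (hβ : 0 < β) :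
    ∀ᵐ p ∂P, HitBank α γ β (Γ p) ∨ HitLeft α γ β (Γ p) ∨ HitRight α γ β (Γ p) := by
  have h := none_zero hγ hL hα hβ
  have h1 : P.real {p | ¬ HitBank α γ β (Γ p) ∧ ¬ HitLeft α γ β (Γ p) ∧ ¬ HitRight α γ β (Γ p)} = 0 :=
    le_antisymm h measureReal_nonneg
  rw [measureReal_eq_zero_iff] at h1
  have h2 := measure_eq_zero_iff_ae_notMem.1 h1
  filter_upwards [h2] with p hp
  by_contra hc
  push Not at hc
  exact hp hc

/-- the three events are measurable up to null sets -/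
theorem null_meas (hγ : 0 < γ) (hL : Limit γ P Γ) {α β : ℝ} (hα : 0 < α) (hβ : 0 < β) :
    NullMeasurableSet {p | HitBank α γ β (Γ p)} P ∧ NullMeasurableSet {p | HitLeft α γ β (Γ p)} P ∧
    NullMeasurableSet {p | HitRight α γ β (Γ p)} P := by
  obtain ⟨h1, h2, h3⟩ := limit_law hγ hL hα hβ
  have h4 := ae_hit hγ hL hα hβ
  refine ⟨?_, ?_, ?_⟩
  · refine nullMeas_of_cover (F := {p | HitLeft α γ β (Γ p)} ∪ {p | HitRight α γ β (Γ p)}) ?_ ?_ ?_
    · rintro p hp (h | h)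
      · exact bank_not_left hα hγ hp h
      · exact bank_not_right hp h
    · filter_upwards [h4] with p hp
      exact hp
    · have := measureReal_union_le (μ := P) {p | HitLeft α γ β (Γ p)} {p | HitRight α γ β (Γ p)}
      linarith
  · refine nullMeas_of_cover (F := {p | HitBank α γ β (Γ p)} ∪ {p | HitRight α γ β (Γ p)}) ?_ ?_ ?_
    · rintro p hp (h | h)
      · exact bank_not_left hα hγ h hp
      · exact left_not_right hp h
    · filter_upwards [h4] with p hp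
      rcases hp with h | h | h
      · exact Or.inr (Or.inl h)
      · exact Or.inl h
      · exact Or.inr (Or.inr h)
    · have := measureReal_union_le (μ := P) {p | HitBank α γ β (Γ p)} {p | HitRight α γ β (Γ p)}
      linarith
  · refine nullMeas_of_cover (F := {p | HitBank α γ β (Γ p)} ∪ {p | HitLeft α γ β (Γ p)}) ?_ ?_ ?_
    · rintro p hp (h | h)
      · exact bank_not_right h hp
      · exact left_not_right h hp
    · filter_upwards [h4] with p hp
      rcases hp with h | h | h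
      · exact Or.inr (Or.inl h)
      · exact Or.inr (Or.inr h)
      · exact Or.inl h
    · have := measureReal_union_le (μ := P) {p | HitBank α γ β (Γ p)} {p | HitLeft α γ β (Γ p)}
      linarith

end

end Pool.Agent.H966.EX
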