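import Pool.Agent.H966.TX.Main
import Pool.Agent.H966.EX.I

/-!
The exit law of the exploration path at a thick slit (helper966): the three events in terms of
crossing events of the forked channel.
-/

namespace Pool.Agent.H966.EX

open Pool.Agent.H988R2.Perc hiding X
open Pool.Agent.H966.TX
open MeasureTheory Filter

/-- the inner wall of the left arm is joined to the inner wall of the right arm or to the right wall -/
def FCrossU (a m b : ℕ) : Set Conf :=
  {ω | ∃ x y : ℤ × ℤ, x.1 - x.2 = 0 ∧ 0 ≤ x.1 + x.2 ∧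
    ((y.1 - y.2 = (m : ℤ) ∧ 0 ≤ y.1 + y.2) ∨ y.1 - y.2 = (m : ℤ) + b) ∧
    Relation.ReflTransGen (FAdj a m b ω) x y}

theorem col_rel (s : (ℤ × ℤ) × Fin 4) : rightCol s - 1 ≤ leftCol s ∧ leftCol s ≤ rightCol s + 1 := by
  obtain ⟨⟨u, v⟩, d⟩ := s
  have hd : d = 0 ∨ d = 1 ∨ d = 2 ∨ d = 3 := by fin_cases d <;> simp
  unfold leftCol rightCol
  rcases hd with rfl | rfl | rfl | rfl <;> simp only <;> omega

theorem first_exit {a m b : ℕ} (ha : 1 ≤ a) (hm : 1 ≤ m) (hb : 1 ≤ b) (ω : Conf)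
    (hex : ∃ n, ¬ Free a m b (path m ω n)) :
    ∃ n, (∀ j < n, Free a m b (path m ω j)) ∧
      ((leftCol (path m ω n) ≤ -(a : ℤ) ∧ ¬ RightBank m (path m ω n).1 ∧
          rightCol (path m ω n) < (m : ℤ) + b) ∨
        (-(a : ℤ) < leftCol (path m ω n) ∧ RightBank m (path m ω n).1 ∧
          rightCol (path m ω n) < (m : ℤ) + b) ∨
        (-(a : ℤ) < leftCol (path m ω n) ∧ ¬ RightBank m (path m ω n).1 ∧
          (m : ℤ) + b ≤ rightCol (path m ω n))) := by
  classical
  have h1 := Nat.find_spec hex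
  have h2 : ∀ j < Nat.find hex, Free a m b (path m ω j) := fun j hj => by
    have := Nat.find_min hex hj
    rwa [not_not] at this
  refine ⟨Nat.find hex, h2, ?_⟩
  generalize Nat.find hex = n at h1 h2
  cases n with
  | zero =>
    exfalso
    apply h1
    refine ⟨?_, ?_, ?_⟩
    · rintro ⟨h, -⟩
      have : (0:ℤ) - 0 = m := h
      omega
    · show -(a:ℤ) < 0 - 0 + 1
      omega
    · show (0:ℤ) - 0 < (m:ℤ) + b
      omega
  | succ n =>
    obtain ⟨g1, g2, g3⟩ := h2 n (by omega)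
    rw [TX.path_succ] at h1 ⊢
    rcases step_face m ω (path m ω n) with h | h
    · have hl : -(a : ℤ) < leftCol (step m ω (path m ω n)) := by rw [h]; exact g2
      by_cases hR : RightBank m (step m ω (path m ω n)).1
      · right; left
        refine ⟨hl, hR, ?_⟩
        have := hR.1
        unfold rightCol
        omega
      · right; right
        refine ⟨hl, hR, ?_⟩
        by_contra hc
        push Not at hc
        exact h1 ⟨hR, hl, hc⟩
    · left
      have hR : ¬ RightBank m (step m ω (path m ω n)).1 := by rw [h]; exact g1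
      have hr : rightCol (step m ω (path m ω n)) < (m : ℤ) + b := by
        unfold rightCol at g3 ⊢
        rw [h]; exact g3
      refine ⟨?_, hR, hr⟩
      by_contra hc
      push Not at hc
      exact h1 ⟨hR, hc, hr⟩

theorem exit_cover {a m b : ℕ} (ha : 1 ≤ a) (hm : 1 ≤ m) (hb : 1 ≤ b) (ω : Conf)
    (hex : ∃ n, ¬ Free a m b (path m ω n)) :
    ω ∈ ExitLeft a m b ∪ (ExitBank a m b ∪ ExitRight a m b) := by
  obtain ⟨n, h1, h2⟩ := first_exit ha hm hb ω hex
  rcases h2 with ⟨k1, k2, k3⟩ | ⟨k1, k2, k3⟩ | ⟨k1, k2, k3⟩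
  · left
    refine ⟨n, k1, fun j hj => ?_⟩
    rcases Nat.lt_or_eq_of_le hj with h | h
    · exact ⟨(h1 j h).1, (h1 j h).2.2⟩
    · rw [h]; exact ⟨k2, k3⟩
  · right; left
    refine ⟨n, k2, fun j hj => ?_⟩
    rcases Nat.lt_or_eq_of_le hj with h | h
    · exact ⟨(h1 j h).2.1, (h1 j h).2.2⟩
    · rw [h]; exact ⟨k1, k3⟩
  · right; right
    refine ⟨n, k3, fun j hj => ?_⟩
    rcases Nat.lt_or_eq_of_le hj with h | h
    · exact ⟨(h1 j h).2.1, (h1 j h).1⟩
    · rw [h]; exact ⟨k1, k2⟩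

theorem left_bank_disj (a m b : ℕ) : Disjoint (ExitLeft a m b) (ExitBank a m b) := by
  rw [Set.disjoint_left]
  rintro ω ⟨n, h1, h2⟩ ⟨n', h3, h4⟩
  rcases le_total n n' with h | h
  · have := (h4 n h).1
    omega
  · exact (h2 n' h).1 h3

theorem left_right_disj (a m b : ℕ) : Disjoint (ExitLeft a m b) (ExitRight a m b) := by
  rw [Set.disjoint_left]
  rintro ω ⟨n, h1, h2⟩ ⟨n', h3, h4⟩
  rcases le_total n n' with h | h
  · have := (h4 n h).1
    omega
  · have := (h2 n' h).2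
    omega

theorem bank_right_disj (a m b : ℕ) : Disjoint (ExitBank a m b) (ExitRight a m b) := by
  rw [Set.disjoint_left]
  rintro ω ⟨n, h1, h2⟩ ⟨n', h3, h4⟩
  rcases le_total n n' with h | h
  · exact (h4 n h).2 h1
  · have := (h2 n' h).2
    omega

/-! ## measurability -/

theorem meas_left (a m b : ℕ) : MeasurableSet (ExitLeft a m b) := by
  have : ExitLeft a m b = ⋃ n : ℕ, ({ω : Conf | leftCol (path m ω n) ≤ -(a : ℤ)} ∩
      ⋂ j : ℕ, ⋂ _ : j ≤ n, {ω : Conf | ¬ RightBank m (path m ω j).1 ∧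
        rightCol (path m ω j) < (m : ℤ) + b}) := by
    ext ω
    simp only [ExitLeft, Set.mem_ofPred_eq, Set.mem_iUnion, Set.mem_inter_iff, Set.mem_iInter]
  rw [this]
  exact MeasurableSet.iUnion fun n => (M.key m (fun s => leftCol s ≤ -(a : ℤ)) n).inter
    (MeasurableSet.iInter fun j => MeasurableSet.iInter fun _ =>
      M.key m (fun s => ¬ RightBank m s.1 ∧ rightCol s < (m : ℤ) + b) j)

theorem meas_bank (a m b : ℕ) : MeasurableSet (ExitBank a m b) := by
  have : ExitBank a m b = ⋃ n : ℕ, ({ω : Conf | RightBank m (path m ω n).1} ∩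
      ⋂ j : ℕ, ⋂ _ : j ≤ n, {ω : Conf | -(a : ℤ) < leftCol (path m ω j) ∧
        rightCol (path m ω j) < (m : ℤ) + b}) := by
    ext ω
    simp only [ExitBank, Set.mem_ofPred_eq, Set.mem_iUnion, Set.mem_inter_iff, Set.mem_iInter]
  rw [this]
  exact MeasurableSet.iUnion fun n => (M.key m (fun s => RightBank m s.1) n).inter
    (MeasurableSet.iInter fun j => MeasurableSet.iInter fun _ =>
      M.key m (fun s => -(a : ℤ) < leftCol s ∧ rightCol s < (m : ℤ) + b) j)

theorem meas_right (a m b : ℕ) : MeasurableSet (ExitRight a m b) := by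
  have : ExitRight a m b = ⋃ n : ℕ, ({ω : Conf | (m : ℤ) + b ≤ rightCol (path m ω n)} ∩
      ⋂ j : ℕ, ⋂ _ : j ≤ n, {ω : Conf | -(a : ℤ) < leftCol (path m ω j) ∧
        ¬ RightBank m (path m ω j).1}) := by
    ext ω
    simp only [ExitRight, Set.mem_ofPred_eq, Set.mem_iUnion, Set.mem_inter_iff, Set.mem_iInter]
  rw [this]
  exact MeasurableSet.iUnion fun n => (M.key m (fun s => (m : ℤ) + b ≤ rightCol s) n).inter
    (MeasurableSet.iInter fun j => MeasurableSet.iInter fun _ =>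
      M.key m (fun s => -(a : ℤ) < leftCol s ∧ ¬ RightBank m s.1) j)

theorem meas_near (a m b e : ℕ) : MeasurableSet (NearBank a m b e) := by
  have : NearBank a m b e = ⋃ n : ℕ, ({ω : Conf | (m : ℤ) - e ≤ rightCol (path m ω n) ∧
      rightCol (path m ω n) ≤ (m : ℤ) + e ∧ -(e : ℤ) ≤ ht (path m ω n)} ∩
      ⋂ j : ℕ, ⋂ _ : j ≤ n, {ω : Conf | -(a : ℤ) < leftCol (path m ω j) ∧
        rightCol (path m ω j) < (m : ℤ) + b}) := by
    ext ω
    simp only [NearBank, Set.mem_ofPred_eq, Set.mem_iUnion, Set.mem_inter_iff, Set.mem_iInter]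
    constructor
    · rintro ⟨N, h1, h2, h3, h4⟩
      exact ⟨N, ⟨h1, h2, h3⟩, h4⟩
    · rintro ⟨N, ⟨h1, h2, h3⟩, h4⟩
      exact ⟨N, h1, h2, h3, h4⟩
  rw [this]
  exact MeasurableSet.iUnion fun n => (M.key m (fun s => (m : ℤ) - e ≤ rightCol s ∧
      rightCol s ≤ (m : ℤ) + e ∧ -(e : ℤ) ≤ ht s) n).inter
    (MeasurableSet.iInter fun j => MeasurableSet.iInter fun _ =>
      M.key m (fun s => -(a : ℤ) < leftCol s ∧ rightCol s < (m : ℤ) + b) j)

theorem meas_far (a m b H : ℕ) : MeasurableSet (Far a m b H) := by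
  have : Far a m b H = ⋃ n : ℕ, ({ω : Conf | (H : ℤ) ≤ |ht (path m ω n)|} ∩
      ⋂ j : ℕ, ⋂ _ : j ≤ n, {ω : Conf | Free a m b (path m ω j)}) := by
    ext ω
    simp only [Far, Set.mem_ofPred_eq, Set.mem_iUnion, Set.mem_inter_iff, Set.mem_iInter]
  rw [this]
  exact MeasurableSet.iUnion fun n => (M.key m (fun s => (H : ℤ) ≤ |ht s|) n).inter
    (MeasurableSet.iInter fun j => MeasurableSet.iInter fun _ =>
      M.key m (fun s => Free a m b s) j)

/-! ## almost sure exit -/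

theorem ae_cover {a m b : ℕ} (ha : 1 ≤ a) (hm : 1 ≤ m) (hb : 1 ≤ b) :
    ∀ᵐ ω ∂perc, ω ∈ ExitLeft a m b ∪ (ExitBank a m b ∪ ExitRight a m b) := by
  filter_upwards [t_TX3 a m (b+1) ha hm (by omega)] with ω hω
  apply exit_cover ha hm hb ω
  obtain ⟨n, h⟩ := hω
  refine ⟨n, ?_⟩
  rintro ⟨h1, h2, h3⟩
  have h4 := col_rel (path m ω n)
  push_cast at h
  rcases h with h | h | h
  · exact h1 h
  · omega
  · omega

/-! ## the events and the crossing events -/

theorem reach_sub {a m b : ℕ} (ha : 1 ≤ a) (hm : 1 ≤ m) (hb : 1 ≤ b) :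
    ExitBank a m b ∪ ExitRight a m b ⊆ FCrossU a m b := by
  have key : ∀ (ω : Conf) (n : ℕ), ¬ Free a m b (path m ω n) →
      (∀ j ≤ n, -(a : ℤ) < leftCol (path m ω j)) → ω ∈ FCrossU a m b := by
    intro ω n hn hl
    obtain ⟨n', h3, h4⟩ := first_exit ha hm hb ω ⟨n, hn⟩
    have hnn : n' ≤ n := by
      by_contra hc
      push Not at hc
      exact hn (h3 n hc)
    obtain ⟨⟨x, hx1, hx2, hr⟩, ⟨c1, c2⟩, -⟩ := I.inv_path ha hm hb n' h3
    have hl' := hl n' hnn
    rcases h4 with ⟨k1, -, -⟩ | ⟨-, k2, -⟩ | ⟨-, -, k3⟩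
    · omega
    · exact ⟨x, _, hx1, hx2, Or.inl ⟨k2.1, k2.2⟩, hr⟩
    · refine ⟨x, _, hx1, hx2, Or.inr ?_, hr⟩
      unfold rightCol at k3
      omega
  rintro ω (⟨n, h1, h2⟩ | ⟨n, h1, h2⟩)
  · exact key ω n (fun h => h.1 h1) (fun j hj => (h2 j hj).1)
  · refine key ω n (fun h => ?_) (fun j hj => (h2 j hj).1)
    have := h.2.2
    omega

theorem left_disj {a m b : ℕ} (ha : 1 ≤ a) (hm : 1 ≤ m) (hb : 1 ≤ b) :
    Disjoint (FCrossU a m b) (ExitLeft a m b) := by
  rw [Set.disjoint_left]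
  rintro ω ⟨x, y, hx1, hx2, hy, hr⟩ ⟨n, h1, h2⟩
  have hn : ¬ Free a m b (path m ω n) := by
    rintro ⟨-, h, -⟩
    omega
  obtain ⟨n', h3, h4⟩ := first_exit ha hm hb ω ⟨n, hn⟩
  have hnn : n' ≤ n := by
    by_contra hc
    push Not at hc
    exact hn (h3 n hc)
  obtain ⟨V, hV, hV1, hV3⟩ : ∃ V : ℤ × ℤ → ZMod 2, DualConstR a m b ω V ∧ V (0, -1) = 1 ∧
      (∀ f : ℤ × ℤ, f.1 - f.2 ≤ -(a:ℤ) - 1 → V f = 0) := by
    rcases hy with ⟨hy1, hy2⟩ | hy
    · obtain ⟨V, hV, hV1, -, hV3⟩ := t_TX1 a m b ω x y hm hx1 hx2 hy1 hy2 hr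
      exact ⟨V, dualConstR_of hV, hV1, hV3⟩
    · exact exists_V hm hb hx1 hx2 hy hr
  have h2n := h2 n' hnn
  rcases h4 with ⟨k1, -, -⟩ | ⟨-, k2, -⟩ | ⟨-, -, k3⟩
  · have h5 := (I.inv_path ha hm hb n' h3).2.2.2.2 V hV
    rw [hV1] at h5
    have hne : (1 : ZMod 2) ≠ 0 := by decide
    rw [leftCol_face] at k1
    set f := face (path m ω n') with hf
    rcases lt_or_eq_of_le k1 with k3 | k3
    · exact hne (h5.symm.trans (hV3 f (by omega)))
    · -- cross the edge between the columns `-a-1` and `-a`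
      have h6 := hV ((f.1, f.2 + 1), 0) (by
        show f.1 - (f.2 + 1) < (m:ℤ) + b
        omega) (by
        intro hc
        have h9 := hc.2.1
        simp only at h9
        omega) (by
        intro hc
        have h9 := hc.1.1
        simp only at h9
        omega)
      have e1 : face ((f.1, f.2 + 1), 0) = (f.1, f.2 + 1) := rfl
      have e2 : face (((f.1, f.2 + 1) : ℤ × ℤ), ((0 : Fin 4) + 3)) = f := by
        show ((f.1, f.2 + 1 - 1) : ℤ × ℤ) = f
        ext
        · rfl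
        · show f.2 + 1 - 1 = f.2
          ring
      rw [e1] at h6
      have h7 : V (f.1, f.2 + 1) = V f := h6.trans (congrArg V e2)
      have h8 := hV3 (f.1, f.2 + 1) (by show f.1 - (f.2 + 1) ≤ -(a:ℤ) - 1; omega)
      exact hne (h5.symm.trans (h7.symm.trans h8))
  · exact h2n.1 k2
  · have := h2n.2
    omega

/-- the probability of `ExitLeft` -/
theorem left_eq {a m b : ℕ} (ha : 1 ≤ a) (hm : 1 ≤ m) (hb : 1 ≤ b) :
    perc.real (ExitBank a m b ∪ ExitRight a m b) = perc.real (FCrossU a m b) := by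
  refine le_antisymm (measureReal_mono (reach_sub ha hm hb)) ?_
  have h : (FCrossU a m b ∩ (ExitLeft a m b ∪ (ExitBank a m b ∪ ExitRight a m b)) : Set Conf)
      =ᵐ[perc] (FCrossU a m b : Set Conf) := by
    have h1 : (ExitLeft a m b ∪ (ExitBank a m b ∪ ExitRight a m b) : Set Conf) =ᵐ[perc] Set.univ :=
      eventuallyEq_univ.2 (ae_cover ha hm hb)
    have h2 := (Filter.EventuallyEq.refl (ae perc) (FCrossU a m b : Set Conf)).inter h1
    rwa [Set.inter_univ] at h2
  rw [← measureReal_congr h]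
  refine measureReal_mono ?_
  rintro ω ⟨h1, h2 | h2⟩
  · exact absurd h2 (Set.disjoint_left.mp (left_disj ha hm hb) h1)
  · exact h2

theorem sum_one {a m b : ℕ} (ha : 1 ≤ a) (hm : 1 ≤ m) (hb : 1 ≤ b) :
    perc.real (ExitLeft a m b) + (perc.real (ExitBank a m b) + perc.real (ExitRight a m b)) = 1 := by
  rw [← measureReal_union (bank_right_disj a m b) (meas_right a m b),
    ← measureReal_union (Set.disjoint_union_right.2 ⟨left_bank_disj a m b, left_right_disj a m b⟩)
      ((meas_bank a m b).union (meas_right a m b))]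
  have h3 : (ExitLeft a m b ∪ (ExitBank a m b ∪ ExitRight a m b) : Set Conf) =ᵐ[perc] Set.univ :=
    eventuallyEq_univ.2 (ae_cover ha hm hb)
  rw [measureReal_congr h3]
  exact probReal_univ

/-- the left line -/
theorem left_val {a m b : ℕ} (ha : 1 ≤ a) (hm : 1 ≤ m) (hb : 1 ≤ b) :
    perc.real (ExitLeft a m b) = 1 - perc.real (FCrossU a m b) := by
  have h1 := left_eq ha hm hb
  rw [measureReal_union (bank_right_disj a m b) (meas_right a m b)] at h1
  have h2 := sum_one ha hm hb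
  linarith

/-! ## the right bank -/

theorem bank_sub (a m b : ℕ) : ExitBank a m (b+1) ⊆ FCross a m b := by
  rintro ω ⟨n, h1, h2⟩
  have key : ∀ j ≤ n, ∃ x : ℤ × ℤ, x.1 - x.2 = 0 ∧ 0 ≤ x.1 + x.2 ∧
      Relation.ReflTransGen (FAdj a m b ω) x (path m ω j).1 := by
    intro j
    induction j with
    | zero =>
      intro _
      exact ⟨(0, 0), by simp, by simp, Relation.ReflTransGen.refl⟩
    | succ j ih =>
      intro hj
      obtain ⟨x, hx1, hx2, hx3⟩ := ih (by omega)
      have g1 := h2 j (by omega)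
      have g2 := h2 (j+1) hj
      have r1 := col_rel (path m ω j)
      have r2 := col_rel (path m ω (j+1))
      push_cast at g1 g2
      rw [TX.path_succ] at g2 r2 ⊢
      rcases TX.step_cases m ω (path m ω j) with ⟨hb, _, h⟩ | ⟨hs, h⟩ | h
      · refine ⟨(step m ω (path m ω j)).1, ?_, ?_, Relation.ReflTransGen.refl⟩
        · rw [h]
          have := hb.1
          show (path m ω j).1.1 + 1 - ((path m ω j).1.2 + 1) = 0
          omega
        · rw [h]
          have := hb.1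
          have := hb.2
          show 0 ≤ (path m ω j).1.1 + 1 + ((path m ω j).1.2 + 1)
          omega
      · refine ⟨x, hx1, hx2, hx3.tail ?_⟩
        rw [h] at g2 r2 ⊢
        unfold rightCol at g1 g2 r1 r2
        simp only at g2 r2 ⊢
        refine ⟨hs.1, by omega, by push_cast; omega, by omega, by push_cast; omega, ?_⟩
        rintro ⟨e1, e2, e3, e4, e5, e6⟩
        exact hs.2 ⟨⟨e3, e4, e1⟩, ⟨e5, e6, e2⟩⟩
      · refine ⟨x, hx1, hx2, ?_⟩
        rw [h]
        exact hx3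
  obtain ⟨x, hx1, hx2, hx3⟩ := key n le_rfl
  exact ⟨x, _, hx1, hx2, h1.1, h1.2, hx3⟩

theorem inner_sub_bank (a m b : ℕ) : InnerFirst a m b ⊆ ExitBank a m (b+1) := by
  rintro ω ⟨n, h1, h2⟩
  refine ⟨n, h1, fun j hj => ?_⟩
  have g := h2 j hj
  have r := col_rel (path m ω j)
  push_cast
  omega

theorem bank_val {a m b : ℕ} (ha : 1 ≤ a) (hm : 1 ≤ m) (hb : 1 ≤ b) :
    perc.real (ExitBank a m (b+1)) = perc.real (FCross a m b) := by
  refine le_antisymm (measureReal_mono (bank_sub a m b)) ?_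
  rw [← inner_eq ha hm hb]
  exact measureReal_mono (inner_sub_bank a m b)

end Pool.Agent.H966.EX
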