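import Mathlib
import Pool.Agent.H966.EX.Defs
import Pool.Agent.H966.TX.I

/-!
# NB: a path which comes near the right bank (coupling of the exploration paths of two slits)
-/

namespace Pool.Agent.H966.EX

open Pool.Agent.H988R2.Perc hiding X
open Pool.Agent.H966.TX
open MeasureTheory Filter Topology Set

namespace NB

/-- vertices of column in `[m, m+e]` and height `≥ 0` -/
def Sset (m e : ℕ) (x : ℤ × ℤ) : Prop :=
  (m : ℤ) ≤ x.1 - x.2 ∧ x.1 - x.2 ≤ (m : ℤ) + e ∧ 0 ≤ x.1 + x.2

theorem path_succ (m : ℕ) (ω : Conf) (n : ℕ) : path m ω (n + 1) = step m ω (path m ω n) := by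
  unfold path
  rw [Function.iterate_succ_apply']

theorem leftCol_le (s : (ℤ × ℤ) × Fin 4) : leftCol s ≤ rightCol s + 1 := by
  obtain ⟨v, d⟩ := s
  fin_cases d <;> simp [leftCol, rightCol]
  omega

theorem vec_bd (v : ℤ × ℤ) (d : Fin 4) :
    (v + vec d).1 - (v + vec d).2 - (v.1 - v.2) ≤ 1 ∧
      -1 ≤ (v + vec d).1 - (v + vec d).2 - (v.1 - v.2) ∧
      (v + vec d).1 + (v + vec d).2 - (v.1 + v.2) ≤ 1 ∧
      -1 ≤ (v + vec d).1 + (v + vec d).2 - (v.1 + v.2) := by
  fin_cases d <;> simp [vec]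

theorem sadj_iff {m e : ℕ} {ω : Conf} {v : ℤ × ℤ} {d : Fin 4} (hv : ¬ Sset m e v) :
    SAdj (m + e) ω v (v + vec d) ↔ SAdj m ω v (v + vec d) := by
  have hb := vec_bd v d
  unfold SAdj
  refine and_congr_right (fun _ => not_congr ⟨?_, ?_⟩)
  · rintro ⟨⟨h1, h2, h3⟩, ⟨h4, h5, h6⟩⟩
    push_cast at h2 h5
    have h7 : v.1 - v.2 < m := by
      by_contra h
      exact hv ⟨by omega, by omega, h3⟩
    exact ⟨⟨h1, by omega, h3⟩, ⟨h4, by omega, h6⟩⟩
  · rintro ⟨⟨h1, h2, h3⟩, ⟨h4, h5, h6⟩⟩
    refine ⟨⟨h1, ?_, h3⟩, ⟨h4, ?_, h6⟩⟩ <;> push_cast <;> omega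

theorem step_eq {m e : ℕ} {ω : Conf} {s : (ℤ × ℤ) × Fin 4} (hv : ¬ Sset m e s.1) :
    step (m + e) ω s = step m ω s := by
  unfold step
  by_cases hA : LeftBank s.1 ∧ s.2 = 0
  · rw [if_pos hA, if_pos hA]
  · rw [if_neg hA, if_neg hA]
    by_cases hB : SAdj m ω s.1 (s.1 + vec s.2)
    · rw [if_pos hB, if_pos ((sadj_iff hv).mpr hB)]
    · rw [if_neg hB, if_neg (fun h => hB ((sadj_iff hv).mp h))]

theorem path_eq {m e : ℕ} {ω : Conf} {N : ℕ} (h : ∀ j < N, ¬ Sset m e (path m ω j).1) :
    ∀ j ≤ N, path (m + e) ω j = path m ω j := by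
  intro j
  induction j with
  | zero => intro _; rfl
  | succ j ih =>
    intro hj
    rw [path_succ, path_succ, ih (by omega)]
    exact step_eq (h j (by omega))

theorem inv_of {a m b e N : ℕ} {ω : Conf} (ha : 1 ≤ a) (hm : 1 ≤ m)
    (h : ∀ j < N, ¬ Sset m e (path m ω j).1)
    (hw : ∀ j < N, -(a : ℤ) < leftCol (path m ω j) ∧ rightCol (path m ω j) < (m : ℤ) + b) :
    I.Inv a m (b + 1) ω (path m ω N) := by
  refine I.inv_path ha hm (by omega) N (fun j hj => ⟨?_, (hw j hj).1, ?_⟩)
  · rintro ⟨h1, h2⟩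
    exact h j hj ⟨by omega, by omega, h2⟩
  · have h1 := leftCol_le (path m ω j)
    have h2 := (hw j hj).2
    push_cast
    omega

theorem corner_of {a m b e : ℕ} {ω : Conf} {s : (ℤ × ℤ) × Fin 4} (hI : I.Inv a m b ω s)
    (h1 : |s.1.1 - s.1.2 - m| ≤ e) (h2 : |s.1.1 + s.1.2| ≤ e) : ω ∈ Corner m e := by
  obtain ⟨⟨x, hx1, -, hx3⟩, -⟩ := hI
  have hmono : FAdj a m b ω ≤ OpenAdj ω := fun p r hpr => hpr.1
  exact ⟨x, s.1, hx1, h1, h2, Relation.ReflTransGen.mono hmono _ _ hx3⟩

end NB

open NB in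
theorem t_NB : S_NB := by
  intro a m b e ha hm hb heb hem ω hω
  obtain ⟨N, hN1, hN2, hN3, hN4⟩ := hω
  by_cases hS : ∃ j, j ≤ N ∧ Sset m e (path m ω j).1
  · -- Case A
    classical
    obtain ⟨hle, hin⟩ := Nat.find_spec hS
    have hmin : ∀ j < Nat.find hS, ¬ Sset m e (path m ω j).1 := by
      intro j hj hj'
      exact Nat.find_min hS hj ⟨by omega, hj'⟩
    set M := Nat.find hS with hM
    have hI : I.Inv a m (b + 1) ω (path m ω M) :=
      inv_of ha hm hmin (fun j hj => hN4 j (by omega))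
    by_cases hcol : (path m ω M).1.1 - (path m ω M).1.2 = (m : ℤ) + e
    · left
      have hpe := path_eq hmin
      refine ⟨M, ?_, ?_⟩
      · rw [hpe M le_rfl]
        refine ⟨?_, hin.2.2⟩
        rw [hcol]; push_cast; ring
      · intro j hj
        rw [hpe j hj]
        refine ⟨(hN4 j (by omega)).1, ?_⟩
        have h1 := (hN4 j (by omega)).2
        have h2 : ((b - e : ℕ) : ℤ) = (b : ℤ) - e := by
          rw [Nat.cast_sub heb.le]
        rw [h2]
        push_cast
        omega
    · right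
      have hM0 : M ≠ 0 := by
        intro h0
        rw [h0] at hin
        obtain ⟨h1, -, -⟩ := hin
        simp [path] at h1
        omega
      obtain ⟨k, hk⟩ := Nat.exists_eq_succ_of_ne_zero hM0
      have hk' : M = k + 1 := hk
      have hz : ¬ Sset m e (path m ω k).1 := hmin k (by omega)
      have hps : path m ω M = step m ω (path m ω k) := by rw [hk', path_succ]
      refine corner_of hI ?_ ?_
      · obtain ⟨h1, h2, h3⟩ := hin
        rw [abs_le]
        constructor <;> omega
      · rw [hps] at hin hcol ⊢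
        generalize path m ω k = s at hz hin hcol ⊢
        obtain ⟨v, d⟩ := s
        simp only at hz
        have hb' := vec_bd v d
        unfold step at hin hcol ⊢
        by_cases hA : LeftBank (v, d).1 ∧ (v, d).2 = 0
        · exfalso
          rw [if_pos hA] at hin
          obtain ⟨h1, -, -⟩ := hin
          obtain ⟨⟨h2, h3⟩, h4⟩ := hA
          simp at h1 h2
          omega
        · rw [if_neg hA] at hin hcol ⊢
          by_cases hB : SAdj m ω (v, d).1 ((v, d).1 + vec (v, d).2)
          · rw [if_pos hB] at hin hcol ⊢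
            simp only at hin hcol hB ⊢
            obtain ⟨h1, h2, h3⟩ := hin
            have hzneg : v.1 + v.2 ≤ -1 := by
              by_contra hzn
              have hcz : v.1 - v.2 < m := by
                by_contra hc
                exact hz ⟨by omega, by omega, by omega⟩
              apply hB.2
              refine ⟨⟨?_, ?_, ?_⟩, ⟨?_, ?_, ?_⟩⟩ <;> omega
            rw [abs_le]
            constructor <;> omega
          · rw [if_neg hB] at hin
            exact absurd hin hz
  · -- Case B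
    right
    have hno : ∀ j ≤ N, ¬ Sset m e (path m ω j).1 := fun j hj hj' => hS ⟨j, hj, hj'⟩
    have hI : I.Inv a m (b + 1) ω (path m ω N) :=
      inv_of ha hm (fun j hj => hno j hj.le) (fun j hj => hN4 j hj.le)
    have h3 := hI.2.2.1
    have hn := hno N le_rfl
    unfold rightCol at hN1 hN2
    unfold ht at hN3
    refine corner_of hI ?_ ?_
    · rw [abs_le]
      constructor <;> omega
    · have hle : (path m ω N).1.1 + (path m ω N).1.2 ≤ 0 := by
        by_contra hc
        by_cases hcm : (m : ℤ) ≤ (path m ω N).1.1 - (path m ω N).1.2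
        · exact hn ⟨hcm, hN2, by omega⟩
        · exact h3 ⟨by omega, by omega, by omega⟩
      rw [abs_le]
      constructor <;> omega

end Pool.Agent.H966.EX
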