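import Mathlib
import Pool.Agent.H966.EX.Defs

/-! # P1: Fatou for sets -/

namespace Pool.Agent.H966.EX

open MeasureTheory Filter Topology Set

namespace P1

/-- the increasing sets `⋂_{n ≥ N} A n` -/
def B {Ω : Type} (A : ℕ → Set Ω) (N : ℕ) : Set Ω := ⋂ n : ℕ, ⋂ _ : N ≤ n, A n

lemma mem_B {Ω : Type} (A : ℕ → Set Ω) (N : ℕ) (p : Ω) : p ∈ B A N ↔ ∀ n, N ≤ n → p ∈ A n := by
  unfold B
  simp only [mem_iInter]

lemma B_mono {Ω : Type} (A : ℕ → Set Ω) : Monotone (B A) := by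
  intro N N' h p hp
  rw [mem_B] at hp ⊢
  exact fun n hn => hp n (h.trans hn)

end P1

open P1 in
theorem t_P1 : S_P1 := by
  intro Ω _ P _ E A v u hA hE hu hv
  have h1 : Tendsto (P ∘ B A) atTop (𝓝 (P (⋃ N, B A N))) :=
    tendsto_measure_iUnion_atTop (B_mono A)
  have h2 : Tendsto (fun N => P.real (B A N)) atTop (𝓝 (P.real (⋃ N, B A N))) :=
    (ENNReal.tendsto_toReal (measure_ne_top P _)).comp h1
  have h3 : ∀ N, P.real (B A N) ≤ v := by
    intro N
    refine ge_of_tendsto hv ?_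
    filter_upwards [eventually_ge_atTop N] with n hn
    refine le_trans (measureReal_mono ?_) (hu n)
    intro p hp
    rw [mem_B] at hp
    exact hp n hn
  have h4 : P.real (⋃ N, B A N) ≤ v := le_of_tendsto' h2 h3
  refine le_trans ?_ h4
  have h5 : P E ≤ P (⋃ N, B A N) := by
    refine measure_mono_ae ?_
    filter_upwards [hE] with p hp hpE
    obtain ⟨N, hN⟩ := eventually_atTop.1 (hp hpE)
    exact mem_iUnion.2 ⟨N, (mem_B A N p).2 hN⟩
  exact ENNReal.toReal_mono (measure_ne_top P _) h5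

end Pool.Agent.H966.EX
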