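import Pool.Agent.H965.K3.J
import Pool.Agent.H966.EX.Main

/-!
The event `FCrossU` (inner wall of the left arm joined to the inner wall of the right arm or to the
right wall): mirror image, exact formula, odd thickness, the scaling limit (helper966).
-/

namespace Pool.Agent.H966.EX

open Pool.Agent.H988R2.Perc hiding X
open Pool.Agent.H966.TX
open Pool.Agent.NH38.Step (cardy)
open Pool.Agent.NH38.Fork (x1 x2 rr)
open Pool.Agent.H966.T1 (FAdj1)
open Pool.Agent.H965.K3 (Cross3 mi2 openAdj_mi2 x1_swap)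
open MeasureTheory Filter Topology

theorem fadj_rtg_symm {a m b : ℕ} {ω : Conf} {x y : ℤ × ℤ}
    (h : Relation.ReflTransGen (FAdj a m b ω) x y) :
    Relation.ReflTransGen (FAdj a m b ω) y x := by
  induction h with
  | refl => exact Relation.ReflTransGen.refl
  | tail _ h2 ih => exact ih.head (V.fAdj_symm h2)

/-- the mirror image of the event -/
theorem mirror_eq (a K b : ℕ) :
    perc.real (FCrossU a (2*K) b) = perc.real (Cross3 b (2*K) a) := by
  rw [← Pool.Agent.H863R4.perc_map (mi2 K) (Cross3 b (2*K) a)]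
  congr 1
  have hstep : ∀ (ω : Conf) (x y : ℤ × ℤ), FAdj a (2*K) b ω x y ↔
      FAdj1 b (2*K) a (fun i => ω ((mi2 K).symm i)) (x.2 + K, x.1 - K) (y.2 + K, y.1 - K) := by
    intro ω x y
    unfold FAdj FAdj1
    rw [openAdj_mi2]
    simp only
    push_cast
    constructor
    · rintro ⟨e1, e2, e3, e4, e5, e6⟩
      exact ⟨e1, by omega, by omega, by omega, by omega, by omega⟩
    · rintro ⟨e1, e2, e3, e4, e5, e6⟩
      exact ⟨e1, by omega, by omega, by omega, by omega, by omega⟩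
  ext ω
  constructor
  · rintro ⟨x, y, h1, h1', h3, h4⟩
    refine ⟨(y.2 + K, y.1 - K), (x.2 + K, x.1 - K), ?_, ?_, ?_, ?_⟩
    · show (y.2 + K - (y.1 - K) = -(b:ℤ) ∨ (y.2 + K - (y.1 - K) = 0 ∧ 0 ≤ y.2 + K + (y.1 - K)))
      push_cast at h3
      omega
    · show x.2 + K - (x.1 - K) = ((2*K : ℕ) : ℤ)
      push_cast; omega
    · show 0 ≤ x.2 + K + (x.1 - K); omega
    · exact (fadj_rtg_symm h4).lift (fun z : ℤ × ℤ => (z.2 + K, z.1 - K))
        fun p q hpq => (hstep ω p q).mp hpq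
  · rintro ⟨y, x, h3, h1, h1', h4⟩
    refine ⟨(x.2 + K, x.1 - K), (y.2 + K, y.1 - K), ?_, ?_, ?_, ?_⟩
    · show x.2 + K - (x.1 - K) = 0
      push_cast at h1; omega
    · show 0 ≤ x.2 + K + (x.1 - K); omega
    · show (y.2 + K - (y.1 - K) = ((2*K : ℕ) : ℤ) ∧ 0 ≤ y.2 + K + (y.1 - K)) ∨
        y.2 + K - (y.1 - K) = ((2*K : ℕ) : ℤ) + b
      push_cast; omega
    · refine fadj_rtg_symm (h4.lift (fun z : ℤ × ℤ => (z.2 + K, z.1 - K)) fun p q hpq => ?_)
      show FAdj a (2*K) b ω (p.2 + K, p.1 - K) (q.2 + K, q.1 - K)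
      rw [hstep]
      simpa using hpq

/-! ## odd thickness -/

open Pool.Agent.H966.T1.G (step SlitC CArm slitC_symm slitC_rtg_symm carm_le plane_zero lim_close2)

theorem upperU (a : ℕ) {m : ℕ} (hm : Odd m) (b : ℕ) :
    FCrossU a m (b+1) ⊆ FCrossU a (m+1) b := by
  rintro ω ⟨x, y, h1, h1', h3, h4⟩
  have hm1 : 1 ≤ m := hm.pos
  obtain ⟨l, hl⟩ := hm
  have key : ∀ z, Relation.ReflTransGen (FAdj a m (b+1) ω) x z →
      (Relation.ReflTransGen (FAdj a (m+1) b ω) x z ∧ ¬ (z.1 - z.2 = (m:ℤ) + 1 ∧ 0 ≤ z.1 + z.2) ∧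
        ¬ (z.1 - z.2 = m ∧ 0 ≤ z.1 + z.2)) ∨
        ∃ y : ℤ × ℤ, y.1 - y.2 = (m:ℤ) + 1 ∧ 0 ≤ y.1 + y.2 ∧
          Relation.ReflTransGen (FAdj a (m+1) b ω) x y := by
    intro z hz
    induction hz with
    | refl =>
      left
      exact ⟨Relation.ReflTransGen.refl, by omega, by omega⟩
    | tail hpq hqr ih =>
      rename_i q r
      rcases ih with ⟨i1, i2, i3⟩ | i4
      · obtain ⟨e1, e2, e3, e4, e5, e6⟩ := hqr
        obtain ⟨s1, s2⟩ := step e1
        push_cast at e3 e5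
        by_cases hr : r.1 - r.2 = m ∧ 0 ≤ r.1 + r.2
        · exfalso
          have hr2 := hr.1
          have hpar : 1 ≤ r.1 + r.2 := by omega
          omega
        · by_cases hr' : r.1 - r.2 = (m:ℤ) + 1 ∧ 0 ≤ r.1 + r.2
          · right
            refine ⟨r, hr'.1, hr'.2, i1.tail ?_⟩
            refine ⟨e1, e2, by push_cast; omega, e4, by push_cast; omega, ?_⟩
            push_cast
            omega
          · left
            refine ⟨i1.tail ?_, hr', hr⟩
            refine ⟨e1, e2, by push_cast; omega, e4, by push_cast; omega, ?_⟩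
            push_cast
            omega
      · exact Or.inr i4
  rcases key y h4 with ⟨h6, _, h5⟩ | ⟨y', h5, h6, h7⟩
  · rcases h3 with h3 | h3
    · exact absurd h3 h5
    · refine ⟨x, y, h1, h1', Or.inr ?_, h6⟩
      push_cast at h3 ⊢
      omega
  · exact ⟨x, y', h1, h1', Or.inl ⟨by push_cast; exact h5, h6⟩, h7⟩

theorem lowerU (a : ℕ) {K : ℕ} (hK : 1 ≤ K) (b : ℕ) :
    FCrossU a (2*K) (b+1) ⊆ FCrossU a (2*K+1) b ∪ CArm K := by
  rintro ω ⟨x, y, h1, h1', h3, h4⟩
  have key : ∀ z, Relation.ReflTransGen (FAdj a (2*K) (b+1) ω) x z →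
      (Relation.ReflTransGen (FAdj a (2*K+1) b ω) x z ∧
        Relation.ReflTransGen (SlitC (2*K) ω) x z ∧
        ¬ (z.1 - z.2 = 2 * (K:ℤ) + 1 ∧ 0 ≤ z.1 + z.2) ∧
        ¬ (z.1 - z.2 = 2 * (K:ℤ) ∧ 0 ≤ z.1 + z.2)) ∨
        (∃ y : ℤ × ℤ, y.1 - y.2 = 2 * (K:ℤ) + 1 ∧ 0 ≤ y.1 + y.2 ∧
          Relation.ReflTransGen (FAdj a (2*K+1) b ω) x y) ∨
        Relation.ReflTransGen (SlitC (2*K) ω) x ((K:ℤ), -(K:ℤ)) := by
    intro z hz
    induction hz with
    | refl =>
      left
      exact ⟨Relation.ReflTransGen.refl, Relation.ReflTransGen.refl, by omega, by omega⟩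
    | tail hpq hqr ih =>
      rename_i q r
      rcases ih with ⟨i1, i1', i2, i3⟩ | i4 | i5
      · obtain ⟨e1, e2, e3, e4, e5, e6⟩ := hqr
        obtain ⟨s1, s2⟩ := step e1
        push_cast at e3 e5 e6
        by_cases hr : r.1 - r.2 = 2 * (K:ℤ) ∧ 0 ≤ r.1 + r.2
        · right; right
          obtain ⟨r1, r2⟩ := hr
          have hr0 : r.1 + r.2 = 0 := by omega
          have hrr : r = ((K:ℤ), -(K:ℤ)) := by
            apply Prod.ext
            · show r.1 = K; omega
            · show r.2 = -K; omega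
          rw [← hrr]
          refine i1'.tail ⟨e1, ?_⟩
          push_cast
          omega
        · by_cases hr' : r.1 - r.2 = 2 * (K:ℤ) + 1 ∧ 0 ≤ r.1 + r.2
          · right; left
            refine ⟨r, hr'.1, hr'.2, i1.tail ?_⟩
            refine ⟨e1, e2, by push_cast; omega, e4, by push_cast; omega, ?_⟩
            push_cast
            omega
          · left
            refine ⟨i1.tail ?_, i1'.tail ?_, hr', hr⟩
            · refine ⟨e1, e2, by push_cast; omega, e4, by push_cast; omega, ?_⟩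
              push_cast
              omega
            · refine ⟨e1, ?_⟩
              push_cast
              omega
      · exact Or.inr (Or.inl i4)
      · exact Or.inr (Or.inr i5)
  push_cast at h3
  rcases key y h4 with ⟨h6, _, _, h5⟩ | ⟨y', h5, h6, h7⟩ | h8
  · rcases h3 with h3 | h3
    · exact absurd h3 h5
    · left
      refine ⟨x, y, h1, h1', Or.inr ?_, h6⟩
      push_cast
      omega
  · left
    exact ⟨x, y', h1, h1', Or.inl ⟨by push_cast; exact h5, h6⟩, h7⟩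
  · right
    exact ⟨x, h1, slitC_rtg_symm h8⟩

/-! ## the scaling limit -/

theorem x2_swap (A B : ℝ) : x2 B A = 1 - x1 A B := by
  have h : rr B A = rr A B := by
    unfold rr
    congr 1
    ring
  unfold x1 x2
  rw [h]
  ring

open Pool.Agent.NH38.Fork.GF (lim_top)

theorem lim_mirror (α γ β : ℝ) (hα : 0 < α) (hγ : 0 < γ) (hβ : 0 < β) (δ : ℕ → ℝ) (a m b : ℕ → ℕ)
    (hδ : ∀ n, 0 < δ n) (hδ0 : Tendsto δ atTop (𝓝 0)) (ha : Tendsto (fun n => δ n * a n) atTop (𝓝 α))
    (hm : Tendsto (fun n => δ n * m n) atTop (𝓝 γ))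
    (hb : Tendsto (fun n => δ n * b n) atTop (𝓝 β)) :
    Tendsto (fun n => perc.real (Cross3 (b n) (m n) (a n))) atTop
      (𝓝 (cardy (x1 ((α/(α+γ+β))^2) ((β/(α+γ+β))^2) / x2 ((α/(α+γ+β))^2) ((β/(α+γ+β))^2)))) := by
  have h := Pool.Agent.H965.K3.t3_Lim β γ α hβ hγ hα δ b m a hδ hδ0 hb hm ha
  have e : β + γ + α = α + γ + β := by ring
  rw [x1_swap, x2_swap, e] at h
  refine h.trans (le_of_eq ?_)
  congr 3
  · ring
  · ring

/-- the scaling limit -/
theorem limU (α γ β : ℝ) (hα : 0 < α) (hγ : 0 < γ) (hβ : 0 < β) (δ : ℕ → ℝ) (a m b : ℕ → ℕ)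
    (hδ : ∀ n, 0 < δ n) (hδ0 : Tendsto δ atTop (𝓝 0)) (ha : Tendsto (fun n => δ n * a n) atTop (𝓝 α))
    (hm : Tendsto (fun n => δ n * m n) atTop (𝓝 γ))
    (hb : Tendsto (fun n => δ n * b n) atTop (𝓝 β)) :
    Tendsto (fun n => perc.real (FCrossU (a n) (m n) (b n))) atTop
      (𝓝 (cardy (x1 ((α/(α+γ+β))^2) ((β/(α+γ+β))^2) / x2 ((α/(α+γ+β))^2) ((β/(α+γ+β))^2)))) := by
  -- the thickness `2 (m/2)`, right arm `b + (m - 2 (m/2))`
  have m2 : Tendsto (fun n => δ n * ((2 * (m n / 2) : ℕ) : ℝ)) atTop (𝓝 γ) := by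
    refine lim_close2 hδ hδ0 hm fun n => ?_
    have h1 : 2 * (m n / 2) ≤ m n + 2 := by omega
    have h2 : m n ≤ 2 * (m n / 2) + 2 := by omega
    have h1' : ((2 * (m n / 2) : ℕ) : ℝ) ≤ m n + 2 := by exact_mod_cast h1
    have h2' : (m n : ℝ) ≤ ((2 * (m n / 2) : ℕ) : ℝ) + 2 := by exact_mod_cast h2
    rw [abs_le]; constructor <;> linarith
  have b2 : Tendsto (fun n => δ n * ((b n + (m n - 2 * (m n / 2)) : ℕ) : ℝ)) atTop (𝓝 β) := by
    refine lim_close2 hδ hδ0 hb fun n => ?_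
    have h1 : b n + (m n - 2 * (m n / 2)) ≤ b n + 2 := by omega
    have h2 : b n ≤ b n + (m n - 2 * (m n / 2)) + 2 := by omega
    have h1' : ((b n + (m n - 2 * (m n / 2)) : ℕ) : ℝ) ≤ b n + 2 := by exact_mod_cast h1
    have h2' : (b n : ℝ) ≤ ((b n + (m n - 2 * (m n / 2)) : ℕ) : ℝ) + 2 := by exact_mod_cast h2
    rw [abs_le]; constructor <;> linarith
  -- the thickness `2 ((m+1)/2)`, right arm `b - (2 ((m+1)/2) - m)`
  have m1 : Tendsto (fun n => δ n * ((2 * ((m n + 1) / 2) : ℕ) : ℝ)) atTop (𝓝 γ) := by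
    refine lim_close2 hδ hδ0 hm fun n => ?_
    have h1 : 2 * ((m n + 1) / 2) ≤ m n + 2 := by omega
    have h2 : m n ≤ 2 * ((m n + 1) / 2) + 2 := by omega
    have h1' : ((2 * ((m n + 1) / 2) : ℕ) : ℝ) ≤ m n + 2 := by exact_mod_cast h1
    have h2' : (m n : ℝ) ≤ ((2 * ((m n + 1) / 2) : ℕ) : ℝ) + 2 := by exact_mod_cast h2
    rw [abs_le]; constructor <;> linarith
  have b1 : Tendsto (fun n => δ n * ((b n - (2 * ((m n + 1) / 2) - m n) : ℕ) : ℝ)) atTop
      (𝓝 β) := by
    refine lim_close2 hδ hδ0 hb fun n => ?_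
    have h1 : b n - (2 * ((m n + 1) / 2) - m n) ≤ b n + 2 := by omega
    have h2 : b n ≤ b n - (2 * ((m n + 1) / 2) - m n) + 2 := by omega
    have h1' : ((b n - (2 * ((m n + 1) / 2) - m n) : ℕ) : ℝ) ≤ b n + 2 := by exact_mod_cast h1
    have h2' : (b n : ℝ) ≤ ((b n - (2 * ((m n + 1) / 2) - m n) : ℕ) : ℝ) + 2 := by
      exact_mod_cast h2
    rw [abs_le]; constructor <;> linarith
  have L1 := lim_mirror α γ β hα hγ hβ δ a _ _ hδ hδ0 ha m1 b1
  have L2 := lim_mirror α γ β hα hγ hβ δ a _ _ hδ hδ0 ha m2 b2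
  have hmt : Tendsto (fun n => 2 * (m n / 2)) atTop atTop := by
    rw [← tendsto_natCast_atTop_iff (R := ℝ)]
    exact lim_top hδ hδ0 hγ m2
  have L3 : Tendsto (fun n => perc.real (Pool.Agent.H981R2.TP.PL.PlaneArm
      (2 * (m n / 2)))) atTop (𝓝 0) := plane_zero.comp hmt
  have L4 := L2.sub L3
  rw [sub_zero] at L4
  have e2 := (lim_top hδ hδ0 hγ hm).eventually_ge_atTop 2
  have e3 := (lim_top hδ hδ0 hβ hb).eventually_ge_atTop 1
  refine tendsto_of_tendsto_of_tendsto_of_le_of_le' L4 L1 ?_ ?_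
  · filter_upwards [e2, e3] with n h2 h3
    have g2 : 2 ≤ m n := by exact_mod_cast h2
    rw [← mirror_eq]
    have hsub : FCrossU (a n) (2 * (m n / 2)) (b n + (m n - 2 * (m n / 2))) ⊆
        FCrossU (a n) (m n) (b n) ∪ CArm (m n / 2) := by
      rcases Nat.even_or_odd (m n) with he | ho
      · obtain ⟨c, hc⟩ := he
        have i1 : 2 * (m n / 2) = m n := by omega
        have i2 : b n + (m n - m n) = b n := by omega
        rw [i1, i2]
        exact Set.subset_union_left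
      · obtain ⟨c, hc⟩ := ho
        have i2 : 2 * (m n / 2) + 1 = m n := by omega
        have i3 : b n + (m n - 2 * (m n / 2)) = b n + 1 := by omega
        have := lowerU (a n) (K := m n / 2) (by omega) (b n)
        rw [i2] at this
        rw [i3]
        exact this
    have hle : perc.real (FCrossU (a n) (2 * (m n / 2)) (b n + (m n - 2 * (m n / 2)))) ≤
        perc.real (FCrossU (a n) (m n) (b n)) + perc.real (CArm (m n / 2)) :=
      (measureReal_mono hsub).trans (measureReal_union_le _ _)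
    have hc := carm_le (m n / 2)
    linarith
  · filter_upwards [e2, e3] with n h2 h3
    have g3 : 1 ≤ b n := by exact_mod_cast h3
    rw [← mirror_eq]
    refine measureReal_mono ?_
    rcases Nat.even_or_odd (m n) with he | ho
    · obtain ⟨c, hc⟩ := he
      have i1 : 2 * ((m n + 1) / 2) = m n := by omega
      have i2 : b n - (m n - m n) = b n := by omega
      rw [i1, i2]
    · have h := upperU (a n) ho (b n - 1)
      obtain ⟨c, hc⟩ := ho
      have i1 : 2 * ((m n + 1) / 2) = m n + 1 := by omega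
      have i2 : b n - (m n + 1 - m n) = b n - 1 := by omega
      have i3 : b n - 1 + 1 = b n := by omega
      rw [i3] at h
      rw [i1, i2]
      exact h

end Pool.Agent.H966.EX
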