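import Pool.Agent.H966.EX.U
import Pool.Agent.H966.EX.NB
import Pool.Agent.H966.EX.AN
import Pool.Agent.H966.EX.CO
import Pool.Agent.H966.EX.DV
import Pool.Agent.H966.EX.FD
import Pool.Agent.H966.EX.FA
import Pool.Agent.H966.EX.L1
import Pool.Agent.H966.EX.L23
import Pool.Agent.H966.EX.L4
import Pool.Agent.H966.EX.P1
import Pool.Agent.H966.T1.Main

/-!
The exit law of the exploration path at a thick slit (helper966): the limit values, their
continuity, the limits of the three probabilities.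
-/

namespace Pool.Agent.H966.EX

open Pool.Agent.H988R2.Perc hiding X
open Pool.Agent.H966.TX
open Pool.Agent.NH38.Step (cardy)
open Pool.Agent.NH38.Fork (x1 x2 rr)
open Pool.Agent.NH38.Fork.GF (lim_top)
open MeasureTheory Filter Topology Set

/-- the conformal images of the corners -/
noncomputable def X1 (α γ β : ℝ) : ℝ := x1 ((α/(α+γ+β))^2) ((β/(α+γ+β))^2)
noncomputable def X2 (α γ β : ℝ) : ℝ := x2 ((α/(α+γ+β))^2) ((β/(α+γ+β))^2)

theorem X_facts {α γ β : ℝ} (hα : 0 < α) (hγ : 0 < γ) (hβ : 0 < β) :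
    0 < X1 α γ β ∧ X1 α γ β < X2 α γ β ∧ X2 α γ β < 1 ∧
      X1 α γ β * X2 α γ β = (α/(α+γ+β))^2 ∧
      (1 - X1 α γ β) * (1 - X2 α γ β) = (β/(α+γ+β))^2 := by
  unfold X1 X2
  have hN : 0 < α + γ + β := by positivity
  set A : ℝ := (α / (α + γ + β))^2 with hA
  set B : ℝ := (β / (α + γ + β))^2 with hB
  have hr : 0 < α / (α + γ + β) := by positivity
  have hs : 0 < β / (α + γ + β) := by positivity
  have hrs : α / (α + γ + β) + β / (α + γ + β) < 1 := by
    rw [← add_div, div_lt_one hN]; linarith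
  have hA0 : 0 < A := by positivity
  have hB0 : 0 < B := by positivity
  have hd : 0 < (1 + A - B)^2 - 4*A := by
    have e : (1 + A - B)^2 - 4*A = (1 - (α / (α + γ + β) + β / (α + γ + β))) *
        (1 + (α / (α + γ + β) + β / (α + γ + β))) *
        ((1 - (α / (α + γ + β) - β / (α + γ + β))) *
        (1 + (α / (α + γ + β) - β / (α + γ + β)))) := by
      rw [hA, hB]; ring
    rw [e]
    have h1 : 0 < 1 - (α / (α + γ + β) + β / (α + γ + β)) := by linarith
    have h2 : 0 < 1 + (α / (α + γ + β) + β / (α + γ + β)) := by linarith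
    have h3 : 0 < 1 - (α / (α + γ + β) - β / (α + γ + β)) := by linarith
    have h4 : 0 < 1 + (α / (α + γ + β) - β / (α + γ + β)) := by linarith
    positivity
  have hsq : rr A B * rr A B = (1 + A - B)^2 - 4*A := Real.mul_self_sqrt hd.le
  have hrr : 0 < rr A B := Real.sqrt_pos.mpr hd
  have hprod : x1 A B * x2 A B = A := by
    unfold x1 x2; linear_combination (-1/4) * hsq
  have hprod' : (1 - x1 A B) * (1 - x2 A B) = B := by
    unfold x1 x2; linear_combination (-1/4) * hsq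
  have hlt : x1 A B < x2 A B := by
    unfold x1 x2; linarith
  have hA1 : A < 1 := by
    rw [hA]; exact pow_lt_one₀ hr.le (by linarith) two_ne_zero
  have hB1 : B < 1 := by
    rw [hB]; exact pow_lt_one₀ hs.le (by linarith) two_ne_zero
  have hx2 : 0 < x2 A B := by
    have : 0 < 1 + A - B := by linarith
    unfold x2; linarith
  have hx1 : 0 < x1 A B := by
    by_contra hc
    push Not at hc
    have := mul_nonpos_of_nonpos_of_nonneg hc hx2.le
    linarith
  have h1x : 0 < 1 - x1 A B := by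
    have : 0 < 1 - A + B := by linarith
    unfold x1; linarith
  have hx2' : x2 A B < 1 := by
    by_contra hc
    push Not at hc
    have := mul_nonpos_of_nonneg_of_nonpos h1x.le (by linarith : 1 - x2 A B ≤ 0)
    linarith
  exact ⟨hx1, hlt, hx2', hprod, hprod'⟩

/-- the limit of `ExitBank` -/
noncomputable def vB (α γ β : ℝ) : ℝ :=
  cardy (X1 α γ β * (1 - X2 α γ β) / (X2 α γ β * (1 - X1 α γ β)))

/-- the limit of the union of `ExitBank` and `ExitRight` -/
noncomputable def vU (α γ β : ℝ) : ℝ := cardy (X1 α γ β / X2 α γ β)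

theorem arg_facts {α γ β : ℝ} (hα : 0 < α) (hγ : 0 < γ) (hβ : 0 < β) :
    (0 < X1 α γ β * (1 - X2 α γ β) / (X2 α γ β * (1 - X1 α γ β)) ∧
      X1 α γ β * (1 - X2 α γ β) / (X2 α γ β * (1 - X1 α γ β)) < 1) ∧
    (0 < X1 α γ β / X2 α γ β ∧ X1 α γ β / X2 α γ β < 1) := by
  obtain ⟨h1, h2, h3, -, -⟩ := X_facts hα hγ hβ
  have h4 : 0 < X2 α γ β := h1.trans h2
  have h5 : 0 < 1 - X2 α γ β := by linarith
  have h6 : 0 < 1 - X1 α γ β := by linarith
  refine ⟨⟨by positivity, ?_⟩, ⟨by positivity, ?_⟩⟩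
  · rw [div_lt_one (by positivity)]
    nlinarith
  · rw [div_lt_one h4]
    exact h2

/-- continuity of the arguments along a continuous curve of parameters -/
theorem cont_X {f g h : ℝ → ℝ} {t : ℝ} (hf : ContinuousAt f t) (hg : ContinuousAt g t)
    (hh : ContinuousAt h t) (h0 : f t + g t + h t ≠ 0) :
    ContinuousAt (fun s => X1 (f s) (g s) (h s)) t ∧
      ContinuousAt (fun s => X2 (f s) (g s) (h s)) t := by
  have hS : ContinuousAt (fun s => f s + g s + h s) t := (hf.add hg).add hh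
  have hA : ContinuousAt (fun s => (f s / (f s + g s + h s))^2) t := (hf.div hS h0).pow 2
  have hB : ContinuousAt (fun s => (h s / (f s + g s + h s))^2) t := (hh.div hS h0).pow 2
  have hr : ContinuousAt (fun s => rr ((f s / (f s + g s + h s))^2)
      ((h s / (f s + g s + h s))^2)) t := by
    unfold rr
    exact (((continuousAt_const.add hA).sub hB).pow 2 |>.sub (continuousAt_const.mul hA)).sqrt
  constructor
  · unfold X1 x1
    exact ((continuousAt_const.add hA).sub hB |>.sub hr).div_const 2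
  · unfold X2 x2
    exact ((continuousAt_const.add hA).sub hB |>.add hr).div_const 2

theorem cont_vB {f g h : ℝ → ℝ} {t : ℝ} (hf : ContinuousAt f t) (hg : ContinuousAt g t)
    (hh : ContinuousAt h t) (f0 : 0 < f t) (g0 : 0 < g t) (h0 : 0 < h t) :
    ContinuousAt (fun s => vB (f s) (g s) (h s)) t := by
  obtain ⟨c1, c2⟩ := cont_X hf hg hh (by positivity)
  obtain ⟨h1, h2, h3, -, -⟩ := X_facts f0 g0 h0
  obtain ⟨⟨k1, k2⟩, -⟩ := arg_facts f0 g0 h0
  have h4 : 0 < X2 (f t) (g t) (h t) := h1.trans h2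
  have h6 : 0 < 1 - X1 (f t) (g t) (h t) := by linarith
  have hc : ContinuousAt (fun s => X1 (f s) (g s) (h s) * (1 - X2 (f s) (g s) (h s)) /
      (X2 (f s) (g s) (h s) * (1 - X1 (f s) (g s) (h s)))) t :=
    (c1.mul (continuousAt_const.sub c2)).div (c2.mul (continuousAt_const.sub c1)) (by positivity)
  exact ContinuousAt.comp (f := fun s => X1 (f s) (g s) (h s) * (1 - X2 (f s) (g s) (h s)) /
      (X2 (f s) (g s) (h s) * (1 - X1 (f s) (g s) (h s)))) (g := cardy)
    (Pool.Agent.NH38.Step.A2.cardy_deriv k1 k2).continuousAt hc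

theorem cont_vU {f g h : ℝ → ℝ} {t : ℝ} (hf : ContinuousAt f t) (hg : ContinuousAt g t)
    (hh : ContinuousAt h t) (f0 : 0 < f t) (g0 : 0 < g t) (h0 : 0 < h t) :
    ContinuousAt (fun s => vU (f s) (g s) (h s)) t := by
  obtain ⟨c1, c2⟩ := cont_X hf hg hh (by positivity)
  obtain ⟨h1, h2, h3, -, -⟩ := X_facts f0 g0 h0
  obtain ⟨-, ⟨k1, k2⟩⟩ := arg_facts f0 g0 h0
  have h4 : 0 < X2 (f t) (g t) (h t) := h1.trans h2
  have hc : ContinuousAt (fun s => X1 (f s) (g s) (h s) / X2 (f s) (g s) (h s)) t :=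
    c1.div c2 h4.ne'
  exact ContinuousAt.comp (f := fun s => X1 (f s) (g s) (h s) / X2 (f s) (g s) (h s)) (g := cardy)
    (Pool.Agent.NH38.Step.A2.cardy_deriv k1 k2).continuousAt hc

/-! ## the limits of the probabilities of the three exits -/

theorem ev_ge {δ : ℕ → ℝ} (hδ : ∀ n, 0 < δ n) (hδ0 : Tendsto δ atTop (𝓝 0)) {c : ℝ} {k : ℕ → ℕ}
    (hc : 0 < c) (hk : Tendsto (fun n => δ n * k n) atTop (𝓝 c)) (N : ℕ) :
    ∀ᶠ n in atTop, N ≤ k n := by
  filter_upwards [(lim_top hδ hδ0 hc hk).eventually_ge_atTop (N:ℝ)] with n hn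
  exact_mod_cast hn

theorem lim_left {α γ β : ℝ} (hα : 0 < α) (hγ : 0 < γ) (hβ : 0 < β) {δ : ℕ → ℝ} {a m b : ℕ → ℕ}
    (h : Par δ a m b α γ β) :
    Tendsto (fun n => perc.real (ExitLeft (a n) (m n) (b n))) atTop (𝓝 (1 - vU α γ β)) := by
  have h1 := limU α γ β hα hγ hβ δ a m b h.pos h.lim h.ha h.hm h.hb
  refine (h1.const_sub 1).congr' ?_
  filter_upwards [ev_ge h.pos h.lim hα h.ha 1, ev_ge h.pos h.lim hγ h.hm 1,
    ev_ge h.pos h.lim hβ h.hb 1] with n e1 e2 e3
  exact (left_val e1 e2 e3).symm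

theorem lim_bank {α γ β : ℝ} (hα : 0 < α) (hγ : 0 < γ) (hβ : 0 < β) {δ : ℕ → ℝ} {a m b : ℕ → ℕ}
    (h : Par δ a m b α γ β) :
    Tendsto (fun n => perc.real (ExitBank (a n) (m n) (b n))) atTop (𝓝 (vB α γ β)) := by
  have hb1 : Tendsto (fun n => δ n * ((b n - 1 : ℕ) : ℝ)) atTop (𝓝 β) := by
    refine Pool.Agent.H966.T1.G.lim_close2 h.pos h.lim h.hb fun n => ?_
    have h1 : b n - 1 ≤ b n + 2 := by omega
    have h2 : b n ≤ b n - 1 + 2 := by omega
    have h1' : ((b n - 1 : ℕ) : ℝ) ≤ b n + 2 := by exact_mod_cast h1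
    have h2' : (b n : ℝ) ≤ ((b n - 1 : ℕ) : ℝ) + 2 := by exact_mod_cast h2
    rw [abs_le]; constructor <;> linarith
  have h1 := Pool.Agent.H966.T1.t_Lim α γ β hα hγ hβ δ a m (fun n => b n - 1) h.pos h.lim h.ha h.hm
    hb1
  refine h1.congr' ?_
  filter_upwards [ev_ge h.pos h.lim hα h.ha 1, ev_ge h.pos h.lim hγ h.hm 1,
    ev_ge h.pos h.lim hβ h.hb 2] with n e1 e2 e3
  obtain ⟨c, hc⟩ : ∃ c, b n = c + 1 := ⟨b n - 1, by omega⟩
  have h3 := bank_val (b := c) e1 e2 (by omega)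
  rw [← hc] at h3
  rw [h3]
  have : b n - 1 = c := by omega
  rw [this]
  rfl

theorem lim_right {α γ β : ℝ} (hα : 0 < α) (hγ : 0 < γ) (hβ : 0 < β) {δ : ℕ → ℝ} {a m b : ℕ → ℕ}
    (h : Par δ a m b α γ β) :
    Tendsto (fun n => perc.real (ExitRight (a n) (m n) (b n))) atTop
      (𝓝 (vU α γ β - vB α γ β)) := by
  have h1 := (lim_left hα hγ hβ h).const_sub 1
  have h2 := h1.sub (lim_bank hα hγ hβ h)
  rw [sub_sub_cancel] at h2
  refine h2.congr' ?_
  filter_upwards [ev_ge h.pos h.lim hα h.ha 1, ev_ge h.pos h.lim hγ h.hm 1,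
    ev_ge h.pos h.lim hβ h.hb 1] with n e1 e2 e3
  have h3 := sum_one e1 e2 e3
  linarith

end Pool.Agent.H966.EX
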